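import Mathlib
import Pool.Agent.LibZM.HB8
import Pool.Agent.LibZM.CS1
import Pool.Agent.LibZM.Reflect
import Pool.Agent.LibZM.Param

set_option autoImplicit false

namespace Pool.Agent.LibZD46

open MeasureTheory Set Filter Topology Complex ProbabilityTheory
open scoped NNReal ComplexConjugate
open Pool.Agent.LibZM

/-- The divisor function with parameter `1/(2N)`, truncated at `X`. -/
noncomputable def bt (N X : ℕ) : ArithmeticFunction ℝ := ⟨fun n => if n ≤ X then tau (1 / (2 * (N:ℝ))) n else 0, by simp⟩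

/-- The corresponding Dirichlet polynomial on the critical line. -/
noncomputable def Bf (N X : ℕ) (t : ℝ) : ℂ := dp (bt N X) X (crit t)

/-- The unimodular factor of the functional equation: `zeta = chi * conj zeta` on the critical line. -/
noncomputable def chi (t : ℝ) : ℂ := conj (Xfac (crit t))

lemma bt_apply (N X n : ℕ) : bt N X n = if n ≤ X then tau (1 / (2 * (N:ℝ))) n else 0 := rfl

lemma bt_supp (N X : ℕ) : SuppLe (bt N X) X := by
  intro n hn
  rw [bt_apply, if_neg (by omega)]

lemma bt_nonneg (N X n : ℕ) : 0 ≤ bt N X n := by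
  rw [bt_apply]
  split_ifs
  · exact tau_nonneg (by positivity) n
  · exact le_rfl

lemma bt_le (N X n : ℕ) : bt N X n ≤ tau (1 / (2 * (N:ℝ))) n := by
  rw [bt_apply]
  split_ifs
  · exact le_rfl
  · exact tau_nonneg (by positivity) n

lemma bt_le_one {N : ℕ} (hN : 1 ≤ N) (X n : ℕ) : bt N X n ≤ 1 := by
  refine (bt_le N X n).trans ?_
  have hN' : (1:ℝ) ≤ N := by exact_mod_cast hN
  have h1 : 1 / (2 * (N:ℝ)) ≤ 1 := by
    rw [div_le_one (by positivity)]; linarith
  rcases Nat.eq_zero_or_pos n with rfl | hn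
  · simp
  · calc tau (1 / (2 * (N:ℝ))) n ≤ tau 1 n := tau_mono (by positivity) h1 n
      _ = 1 := tau_one_apply hn.ne'
      _ ≤ 1 := le_rfl

lemma Xfac_crit_norm (t : ℝ) : ‖Xfac (crit t)‖ = 1 := norm_Xfac_half (by simp)

lemma norm_chi (t : ℝ) : ‖chi t‖ = 1 := by
  unfold chi
  rw [Complex.norm_conj, Xfac_crit_norm]

end Pool.Agent.LibZD46
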