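import Mathlib
import Pool.Agent.LibZD46.Base

set_option autoImplicit false

namespace Pool.Agent.LibZD46

open MeasureTheory Set Filter Topology Complex ProbabilityTheory
open scoped NNReal ComplexConjugate
open Pool.Agent.LibZM

lemma bt_pow_le (N X j n : ℕ) : (bt N X ^ j) n ≤ tau (j * (1 / (2 * (N:ℝ)))) n := by
  rw [← tau_pow]
  induction j generalizing n with
  | zero => simp
  | succ j ih =>
    rw [pow_succ, pow_succ]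
    exact mul_apply_mono (pow_nonneg_af (bt_nonneg N X) j) ih (bt_nonneg N X) (bt_le N X) n

lemma bt_pow_eq {N X n : ℕ} (hn : n ≤ X) (j : ℕ) : (bt N X ^ j) n = tau (j * (1 / (2 * (N:ℝ)))) n := by
  rw [← tau_pow]
  induction j generalizing n with
  | zero => simp
  | succ j ih =>
    rw [pow_succ, pow_succ, ArithmeticFunction.mul_apply, ArithmeticFunction.mul_apply]
    refine Finset.sum_congr rfl fun x hx => ?_
    have h := Nat.mem_divisorsAntidiagonal.mp hx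
    have hn0 : 0 < n := Nat.pos_of_ne_zero h.2
    have h1 : x.1 ≤ n := Nat.le_of_dvd hn0 ⟨x.2, h.1.symm⟩
    have h2 : x.2 ≤ n := Nat.le_of_dvd hn0 ⟨x.1, by rw [mul_comm]; exact h.1.symm⟩
    rw [ih (h1.trans hn), bt_apply, if_pos (h2.trans hn)]

lemma Bf_pow (N X j : ℕ) (t : ℝ) : Bf N X t ^ j = dp (bt N X ^ j) (X ^ j) (crit t) := by
  unfold Bf
  rw [dp_pow (bt_supp N X)]
  intro h
  have := congrArg Complex.re h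
  simp at this

lemma sum_bt_le {N : ℕ} (hN : 1 ≤ N) (X : ℕ) : ∑ n ∈ Finset.Icc 1 X, bt N X n ≤ X := by
  calc ∑ n ∈ Finset.Icc 1 X, bt N X n ≤ ∑ n ∈ Finset.Icc 1 X, (1:ℝ) := Finset.sum_le_sum fun n _ => bt_le_one hN X n
    _ = X := by simp

lemma sum_bt_nonneg (N X : ℕ) : 0 ≤ ∑ n ∈ Finset.Icc 1 X, bt N X n := Finset.sum_nonneg fun n _ => bt_nonneg N X n

lemma sum_bt_pow_le {N : ℕ} (hN : 1 ≤ N) (X j : ℕ) : ∑ n ∈ Finset.Icc 1 (X ^ j), (bt N X ^ j) n ≤ (X:ℝ) ^ j := by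
  rw [sum_coeff_pow (bt_supp N X)]
  exact pow_le_pow_left₀ (sum_bt_nonneg N X) (sum_bt_le hN X) j

lemma norm_Bf_le {N : ℕ} (hN : 1 ≤ N) (X : ℕ) (t : ℝ) : ‖Bf N X t‖ ≤ X := by
  unfold Bf
  exact (norm_dp_crit_le (bt_nonneg N X) X t).trans (sum_bt_le hN X)

lemma continuous_Bf (N X : ℕ) : Continuous (Bf N X) := continuous_dp_crit _ _

/-- Diagonal main term of the twisted first moment. -/
noncomputable def MM (N X a b : ℕ) : ℝ := ∑ m ∈ Finset.Icc 1 (X ^ a), ∑ q ∈ Finset.Icc 1 (X ^ b), 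
  (if m ∣ q then (bt N X ^ a) m * (bt N X ^ b) q * (q:ℝ)⁻¹ else 0)

/-- error function for the moments -/
noncomputable def eB (θ : ℝ) (m : ℕ) (T : ℝ) : ℝ := 
  6 * ((NT θ T : ℝ) ^ m) ^ 2 * Real.exp (-(vT (4/5) T : ℝ) / (16 * ((NT θ T : ℝ) ^ m) ^ 2)) * ((NT θ T : ℝ) ^ m) ^ 2

lemma NT_pow_le {θ : ℝ} (_hθ0 : 0 ≤ θ) (m : ℕ) {T c : ℝ} (hT : 1 ≤ T) (hm : θ * m ≤ c) : (NT θ T : ℝ) ^ m ≤ T ^ c := by
  have h0 : 0 < T := by linarith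
  calc (NT θ T : ℝ) ^ m ≤ (T ^ θ) ^ m := pow_le_pow_left₀ (by positivity) (NT_le_rpow θ h0) m
    _ = T ^ (θ * m) := by rw [← Real.rpow_natCast, ← Real.rpow_mul h0.le]
    _ ≤ T ^ c := Real.rpow_le_rpow_of_exponent_le hT hm

lemma one_le_NT_pow {θ : ℝ} (hθ0 : 0 ≤ θ) (m : ℕ) {T : ℝ} (hT : 1 ≤ T) : 1 ≤ (NT θ T : ℝ) ^ m :=
  one_le_pow₀ (by exact_mod_cast one_le_NT hθ0 hT)

lemma vT_val {T : ℝ} (hT : 0 < T) : (vT (4/5) T : ℝ) = T ^ (9/5:ℝ) := by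
  rw [vT_coe]
  unfold HT
  rw [← Real.rpow_natCast, ← Real.rpow_mul hT.le]
  norm_num

lemma eB_tendsto {θ : ℝ} (hθ0 : 0 ≤ θ) {m : ℕ} (hm : θ * m ≤ 1/8) : Tendsto (eB θ m) atTop (𝓝 0) := by
  have h1 := (lim_exp (a := 1/16) (ε := 1) (by norm_num) (by norm_num) 1).const_mul 6
  rw [mul_zero] at h1
  refine squeeze_zero' (Eventually.of_forall fun T => by unfold eB; positivity) ?_ h1
  filter_upwards [eventually_ge_atTop 1] with T hT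
  have hT0 : 0 < T := by linarith
  have a1 := NT_pow_le hθ0 m hT hm
  have a2 := one_le_NT_pow hθ0 m hT
  obtain ⟨Z, hZ⟩ : ∃ Z : ℝ, Z = (NT θ T : ℝ) ^ m := ⟨_, rfl⟩
  unfold eB
  rw [← hZ] at a1 a2 ⊢
  rw [vT_val hT0]
  have e1 : Z ^ 2 ≤ T ^ (1/4:ℝ) := by
    calc Z ^ 2 ≤ (T ^ (1/8:ℝ)) ^ 2 := pow_le_pow_left₀ (by linarith) a1 2
      _ = T ^ (1/4:ℝ) := by rw [← Real.rpow_natCast, ← Real.rpow_mul hT0.le]; norm_num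
  have e2 : T ^ (9/5:ℝ) / (16 * Z ^ 2) ≥ 1/16 * T ^ (1:ℝ) := by
    rw [ge_iff_le, le_div_iff₀ (by positivity)]
    calc 1/16 * T ^ (1:ℝ) * (16 * Z ^ 2) = T ^ (1:ℝ) * Z ^ 2 := by ring
      _ ≤ T ^ (1:ℝ) * T ^ (1/4:ℝ) := by gcongr
      _ = T ^ (5/4:ℝ) := by rw [← Real.rpow_add hT0]; norm_num
      _ ≤ T ^ (9/5:ℝ) := Real.rpow_le_rpow_of_exponent_le hT (by norm_num)
  have e3 : Real.exp (-T ^ (9/5:ℝ) / (16 * Z ^ 2)) ≤ Real.exp (-(1/16 * T ^ (1:ℝ))) := by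
    apply Real.exp_le_exp.mpr
    rw [neg_div]; linarith
  have e4 : Z ^ 2 * Z ^ 2 ≤ T ^ (1:ℝ) := by
    calc Z ^ 2 * Z ^ 2 ≤ T ^ (1/4:ℝ) * T ^ (1/4:ℝ) := by gcongr
      _ = T ^ (1/2:ℝ) := by rw [← Real.rpow_add hT0]; norm_num
      _ ≤ _ := Real.rpow_le_rpow_of_exponent_le hT (by norm_num)
  calc 6 * Z ^ 2 * Real.exp (-T ^ (9/5:ℝ) / (16 * Z ^ 2)) * Z ^ 2 
      = 6 * ((Z ^ 2 * Z ^ 2) * Real.exp (-T ^ (9/5:ℝ) / (16 * Z ^ 2))) := by ring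
    _ ≤ 6 * (T ^ (1:ℝ) * Real.exp (-(1/16 * T ^ (1:ℝ)))) := by gcongr

lemma Fl_one {η : ℝ} (hη : 0 < η) : ∀ᶠ q : ℝ × ℝ in Fl η, 1 < q.1 ∧ 1 < q.2 := Fl_pos hη

/-- Mean value of the powers of the polynomial. -/
theorem B_mean {N : ℕ} (hN : 1 ≤ N) {θ : ℝ} {m : ℕ} {η : ℝ} (hη : 0 < η) :
    ∀ᶠ q : ℝ × ℝ in Fl η, |(∫ t, ‖Bf N (NT θ q.1) t‖ ^ (2 * m) ∂(gaussianReal q.2 (vT (4/5) q.1))) - 
      ∑ n ∈ Finset.Icc 1 (NT θ q.1 ^ m), (bt N (NT θ q.1) ^ m) n ^ 2 * (n:ℝ)⁻¹| ≤ eB θ m q.1 := by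
  filter_upwards [Fl_one hη, (Fl_fst η).eventually (four_le_vT (θ := 4/5) (by norm_num))] with q hq hv
  have h := mean_square q.2 hv (pow_nonneg_af (bt_nonneg N (NT θ q.1)) m) (NT θ q.1 ^ m)
  have e1 : ∀ t, ‖dp (bt N (NT θ q.1) ^ m) (NT θ q.1 ^ m) (crit t)‖ ^ 2 = ‖Bf N (NT θ q.1) t‖ ^ (2 * m) := by
    intro t
    rw [← Bf_pow, norm_pow, ← pow_mul, mul_comm]
  simp only [e1] at h
  refine h.trans ?_
  unfold eB
  push_cast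
  have h2 := sum_bt_pow_le hN (NT θ q.1) m
  have h3 : 0 ≤ ∑ n ∈ Finset.Icc 1 (NT θ q.1 ^ m), (bt N (NT θ q.1) ^ m) n := 
    Finset.sum_nonneg fun n _ => pow_nonneg_af (bt_nonneg N _) m n
  gcongr
  norm_num

end Pool.Agent.LibZD46
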