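import Mathlib
import Pool.Agent.LibZM.Asymp2

set_option autoImplicit false

namespace Pool.Agent.LibZD46

open Filter Topology Finset
open Pool.Agent.LibZM

namespace T1

lemma dcoef_mul_le {α β : ℝ} (hα : 0 ≤ α) (hβ : 0 ≤ β) (a : ℕ) : 
    dcoef α a * dcoef β a ≤ dcoef (max α β) a ^ 2 := by
  rw [sq]
  exact mul_le_mul (dcoef_mono hα (le_max_left _ _) a) (dcoef_mono hβ (le_max_right _ _) a) (dcoef_nonneg hβ a) 
    (dcoef_nonneg (hα.trans (le_max_left _ _)) a)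

lemma tau_mul_le {α β : ℝ} (hα : 0 ≤ α) (hβ : 0 ≤ β) (n : ℕ) : 
    tau α n * tau β n ≤ tau (max α β) n ^ 2 := by
  rw [sq]
  exact mul_le_mul (tau_mono hα (le_max_left _ _) n) (tau_mono hβ (le_max_right _ _) n) (tau_nonneg hβ n) 
    (tau_nonneg (hα.trans (le_max_left _ _)) n)

noncomputable def F (α β z : ℝ) : ℝ := ∑' a : ℕ, dcoef α a * dcoef β a * z ^ a

lemma summable_F {α β : ℝ} (hα : 0 ≤ α) (hβ : 0 ≤ β) {z : ℝ} (hz : 0 ≤ z) (hz1 : z < 1) : 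
    Summable fun a : ℕ => dcoef α a * dcoef β a * z ^ a := by
  refine Summable.of_nonneg_of_le (fun a => ?_) (fun a => ?_) (summable_G (hα.trans (le_max_left α β)) hz hz1)
  · have := dcoef_nonneg hα a
    have := dcoef_nonneg hβ a
    positivity
  · exact mul_le_mul_of_nonneg_right (dcoef_mul_le hα hβ a) (by positivity)

lemma F_nonneg {α β : ℝ} (hα : 0 ≤ α) (hβ : 0 ≤ β) {z : ℝ} (hz : 0 ≤ z) : 0 ≤ F α β z := by
  apply tsum_nonneg
  intro a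
  have := dcoef_nonneg hα a
  have := dcoef_nonneg hβ a
  positivity

lemma F_le {α β : ℝ} (hα : 0 ≤ α) (hβ : 0 ≤ β) {z : ℝ} (hz : 0 ≤ z) (hz1 : z ≤ 1/2) : 
    F α β z ≤ ((1 - z)⁻¹) ^ (α * β) * (1 + 4 * F α β (1/2) * z ^ 2) := by
  have h1 : F α β z = 1 + α * β * z + ∑' a : ℕ, dcoef α (a+2) * dcoef β (a+2) * z ^ (a+2) := by
    unfold F
    rw [← (summable_F hα hβ hz (by linarith)).sum_add_tsum_nat_add 2]
    simp [sum_range_succ]
  have hs := summable_F hα hβ (show (0:ℝ) ≤ 1/2 by norm_num) (by norm_num)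
  have h2 : ∑' a : ℕ, dcoef α (a+2) * dcoef β (a+2) * z ^ (a+2) ≤ 
      ∑' a : ℕ, 4 * z ^ 2 * (dcoef α (a+2) * dcoef β (a+2) * (1/2:ℝ) ^ (a+2)) := by
    refine ((summable_nat_add_iff 2).2 (summable_F hα hβ hz (by linarith))).tsum_le_tsum (fun a => ?_) 
      (((summable_nat_add_iff 2).2 hs).mul_left _)
    have n1 := dcoef_nonneg hα (a+2)
    have n2 := dcoef_nonneg hβ (a+2)
    have e1 : 4 * z ^ 2 * (dcoef α (a+2) * dcoef β (a+2) * (1/2:ℝ) ^ (a+2)) = 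
        dcoef α (a+2) * dcoef β (a+2) * (z ^ 2 * (1/2:ℝ) ^ a) := by
      rw [pow_add]; ring
    have e2 : dcoef α (a+2) * dcoef β (a+2) * z ^ (a+2) = dcoef α (a+2) * dcoef β (a+2) * (z ^ 2 * z ^ a) := by
      rw [pow_add]; ring
    rw [e1, e2]
    gcongr
  have h3 : ∑' a : ℕ, 4 * z ^ 2 * (dcoef α (a+2) * dcoef β (a+2) * (1/2:ℝ) ^ (a+2)) ≤ 4 * z ^ 2 * F α β (1/2) := by
    rw [tsum_mul_left]
    apply mul_le_mul_of_nonneg_left _ (by positivity)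
    unfold F
    rw [← hs.sum_add_tsum_nat_add 2]
    apply le_add_of_nonneg_left
    apply sum_nonneg
    intro a _
    have := dcoef_nonneg hα a
    have := dcoef_nonneg hβ a
    positivity
  have hF0 := F_nonneg hα hβ (show (0:ℝ) ≤ 1/2 by norm_num)
  have h4 : 1 + α * β * z ≤ ((1 - z)⁻¹) ^ (α * β) := by
    have e : ((1 - z)⁻¹) ^ (α * β) = Real.exp (- Real.log (1 - z) * (α * β)) := by
      rw [Real.rpow_def_of_pos (by rw [inv_pos]; linarith), Real.log_inv]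
    rw [e]
    have h5 : z ≤ - Real.log (1 - z) := by
      have := Real.log_le_sub_one_of_pos (show (0:ℝ) < 1 - z by linarith)
      linarith
    have h6 : α * β * z ≤ - Real.log (1 - z) * (α * β) := by
      have : 0 ≤ α * β := by positivity
      nlinarith
    have := Real.add_one_le_exp (- Real.log (1 - z) * (α * β))
    linarith
  have h7 : 1 ≤ ((1 - z)⁻¹) ^ (α * β) := by
    have : 0 ≤ α * β * z := by positivity
    linarith
  have h8 : 0 ≤ 4 * F α β (1/2) * z ^ 2 := by positivity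
  nlinarith

lemma summable_tt {α β : ℝ} (hα : 0 ≤ α) (hβ : 0 ≤ β) {σ : ℝ} (hσ : 1 < σ) : 
    Summable fun n : ℕ => tau α n * tau β n * (n:ℝ) ^ (-σ) := by
  refine Summable.of_nonneg_of_le (fun a => ?_) (fun a => ?_) (summable_tau_sq (hα.trans (le_max_left α β)) hσ)
  · have := tau_nonneg hα a
    have := tau_nonneg hβ a
    positivity
  · exact mul_le_mul_of_nonneg_right (tau_mul_le hα hβ a) (by positivity)

lemma hasProd_tt {α β : ℝ} (hα : 0 ≤ α) (hβ : 0 ≤ β) {σ : ℝ} (hσ : 1 < σ) : 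
    HasProd (fun p : Nat.Primes => F α β ((p:ℝ) ^ (-σ))) (∑' n : ℕ, tau α n * tau β n * (n:ℝ) ^ (-σ)) := by
  have h := EulerProduct.eulerProduct_hasProd (R := ℝ) (f := fun n : ℕ => tau α n * tau β n * (n:ℝ) ^ (-σ)) 
    (by simp [(tau_isMultiplicative α).map_one, (tau_isMultiplicative β).map_one]) 
    (by
      intro m n hmn
      rw [(tau_isMultiplicative α).map_mul_of_coprime hmn, (tau_isMultiplicative β).map_mul_of_coprime hmn]
      push_cast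
      rw [Real.mul_rpow (Nat.cast_nonneg _) (Nat.cast_nonneg _)]
      ring)
    (by
      have := summable_tt hα hβ hσ
      exact this.norm) 
    (by simp)
  have e : (fun p : Nat.Primes => F α β ((p:ℝ) ^ (-σ))) = 
      fun p : Nat.Primes => ∑' e : ℕ, tau α ((p:ℕ) ^ e) * tau β ((p:ℕ) ^ e) * (((p:ℕ) ^ e : ℕ) : ℝ) ^ (-σ) := by
    funext p
    unfold F
    congr 1; funext a
    rw [tau_prime_pow _ p.prop, tau_prime_pow _ p.prop]
    congr 1
    push_cast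
    rw [← Real.rpow_natCast, ← Real.rpow_mul (Nat.cast_nonneg _), ← Real.rpow_natCast, 
      ← Real.rpow_mul (Nat.cast_nonneg _)]
    congr 1; ring
  rw [e]
  exact h

/-- The Dirichlet series is at most a constant times a power of zeta. -/
lemma tsum_le {α β : ℝ} (hα : 0 ≤ α) (hβ : 0 ≤ β) : ∃ C : ℝ, 0 < C ∧ ∀ σ : ℝ, 1 < σ → 
    ∑' n : ℕ, tau α n * tau β n * (n:ℝ) ^ (-σ) ≤ C * (∑' n : ℕ, 1 / (n:ℝ) ^ σ) ^ (α * β) := by
  have hF0 := F_nonneg hα hβ (show (0:ℝ) ≤ 1/2 by norm_num)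
  have hs : Summable fun p : Nat.Primes => 4 * F α β (1/2) * (p:ℝ) ^ (-2:ℝ) := 
    (Nat.Primes.summable_rpow.mpr (by norm_num)).mul_left _
  set S := ∑' p : Nat.Primes, 4 * F α β (1/2) * (p:ℝ) ^ (-2:ℝ) with hS
  refine ⟨Real.exp S, Real.exp_pos _, fun σ hσ => ?_⟩
  have h1 := hasProd_tt hα hβ hσ
  have h2 := hasProd_tau_sq zero_le_one hσ
  have hpos := tsum_tau_sq_pos zero_le_one hσ
  have h3 := hasProd_rpow (fun p => ?_) hpos (α * β) h2
  swap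
  · obtain ⟨h0, h1, _⟩ := prime_rpow_mem hσ.le p
    have := Gsum_ge zero_le_one h0.le (by linarith)
    refine le_trans ?_ this
    positivity
  rw [tsum_tau_one hσ] at h3
  refine le_of_tendsto' h1 fun s => ?_
  have e1 : ∏ p ∈ s, F α β ((p:ℝ) ^ (-σ)) ≤ ∏ p ∈ s, ((Gsum 1 ((p:ℝ) ^ (-σ))) ^ (α * β) * Real.exp (4 * F α β (1/2) * (p:ℝ) ^ (-2:ℝ))) := by
    apply Finset.prod_le_prod
    · intro p _
      obtain ⟨h0, h1, _⟩ := prime_rpow_mem hσ.le p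
      exact F_nonneg hα hβ h0.le
    · intro p _
      obtain ⟨h0, h1, h2⟩ := prime_rpow_mem hσ.le p
      refine (F_le hα hβ h0.le h1).trans ?_
      rw [Gsum_one h0.le (by linarith)]
      apply mul_le_mul_of_nonneg_left
      · have h3 : ((p:ℝ) ^ (-σ)) ^ 2 ≤ ((p:ℝ) ^ (-(1:ℝ))) ^ 2 := by gcongr
        have h4 : ((p:ℝ) ^ (-(1:ℝ))) ^ 2 = (p:ℝ) ^ (-2:ℝ) := by
          rw [← Real.rpow_natCast, ← Real.rpow_mul (Nat.cast_nonneg _)]; norm_num
        rw [h4] at h3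
        have h5 : 4 * F α β (1/2) * ((p:ℝ) ^ (-σ)) ^ 2 ≤ 4 * F α β (1/2) * (p:ℝ) ^ (-2:ℝ) := by gcongr
        have := Real.add_one_le_exp (4 * F α β (1/2) * (p:ℝ) ^ (-2:ℝ))
        linarith
      · have : 0 < (1 - (p:ℝ) ^ (-σ))⁻¹ := by rw [inv_pos]; linarith
        positivity
  rw [prod_mul_distrib, ← Real.exp_sum] at e1
  have e2 : ∏ p ∈ s, (Gsum 1 ((p:ℝ) ^ (-σ))) ^ (α * β) ≤ (∑' n : ℕ, 1 / (n:ℝ) ^ σ) ^ (α * β) := by
    refine ge_of_tendsto h3 ?_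
    filter_upwards [eventually_ge_atTop s] with t ht
    have g1 : ∀ p : Nat.Primes, 1 ≤ (Gsum 1 ((p:ℝ) ^ (-σ))) ^ (α * β) := by
      intro p
      obtain ⟨h0, h1, _⟩ := prime_rpow_mem hσ.le p
      have g2 := Gsum_ge zero_le_one h0.le (by linarith)
      refine Real.one_le_rpow (le_trans ?_ g2) (by positivity)
      have : 0 ≤ 1 ^ 2 * (p:ℝ) ^ (-σ) := by positivity
      linarith
    rw [← Finset.prod_sdiff (show s ⊆ t from ht)]
    apply le_mul_of_one_le_left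
    · exact Finset.prod_nonneg fun p _ => zero_le_one.trans (g1 p)
    · have g3 : ∏ p ∈ t \ s, (1:ℝ) ≤ ∏ p ∈ t \ s, (Gsum 1 ((p:ℝ) ^ (-σ))) ^ (α * β) := 
        Finset.prod_le_prod (fun _ _ => zero_le_one) (fun p _ => g1 p)
      rwa [Finset.prod_const_one] at g3
  have e3 : ∑ p ∈ s, 4 * F α β (1/2) * (p:ℝ) ^ (-2:ℝ) ≤ S := hs.sum_le_tsum _ (fun p _ => by positivity)
  have e4 : 0 ≤ ∏ p ∈ s, (Gsum 1 ((p:ℝ) ^ (-σ))) ^ (α * β) := by
    apply Finset.prod_nonneg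
    intro p _
    obtain ⟨h0, h1, _⟩ := prime_rpow_mem hσ.le p
    have := Gsum_ge zero_le_one h0.le (by linarith)
    have : 0 ≤ Gsum 1 ((p:ℝ) ^ (-σ)) := by
      refine le_trans ?_ this
      positivity
    positivity
  calc ∏ p ∈ s, F α β ((p:ℝ) ^ (-σ)) ≤ _ := e1
    _ ≤ (∑' n : ℕ, 1 / (n:ℝ) ^ σ) ^ (α * β) * Real.exp S := by
        apply mul_le_mul e2 (Real.exp_le_exp.2 e3) (Real.exp_pos _).le (e4.trans e2)
    _ = _ := by ring

lemma zeta_bound : ∀ᶠ s : ℝ in 𝓝[>] 0, ∑' n : ℕ, 1 / (n:ℝ) ^ (1+s) ≤ 2 / s := by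
  have h := tendsto_zeta_shift.eventually_le_const (show (1:ℝ) < 2 by norm_num)
  filter_upwards [h, self_mem_nhdsWithin] with s hs h0
  rw [le_div_iff₀ h0, mul_comm]
  exact hs

end T1

open T1 in
theorem tau_mul_sum {α β : ℝ} (hα : 0 ≤ α) (hβ : 0 ≤ β) : ∃ C : ℝ, 0 < C ∧ ∀ x : ℝ, 3 ≤ x → 
    ∑ q ∈ Icc 1 ⌊x⌋₊, tau α q * tau β q * (q:ℝ)⁻¹ ≤ C * (Real.log x) ^ (α * β) := by
  obtain ⟨C, hC, h⟩ := tsum_le hα hβ
  have hab : 0 ≤ α * β := by positivity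
  -- eventually
  have hev : ∀ᶠ x : ℝ in atTop, ∑ q ∈ Icc 1 ⌊x⌋₊, tau α q * tau β q * (q:ℝ)⁻¹ ≤ 
      (Real.exp 1 * C * 2 ^ (α * β)) * (Real.log x) ^ (α * β) := by
    have h1 : Tendsto (fun x : ℝ => (Real.log x)⁻¹) atTop (𝓝[>] 0) := 
      tendsto_inv_atTop_nhdsGT_zero.comp Real.tendsto_log_atTop
    filter_upwards [h1.eventually zeta_bound, eventually_gt_atTop 1] with x hx hx1
    have hL : 0 < Real.log x := Real.log_pos hx1
    have hσ : 1 < 1 + (Real.log x)⁻¹ := by have := inv_pos.2 hL; linarith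
    have h2 := h _ hσ
    have h3 : ∑ q ∈ Icc 1 ⌊x⌋₊, tau α q * tau β q * (q:ℝ)⁻¹ ≤ 
        Real.exp 1 * ∑ q ∈ Icc 1 ⌊x⌋₊, tau α q * tau β q * (q:ℝ) ^ (-(1 + (Real.log x)⁻¹)) := by
      rw [mul_sum]
      apply sum_le_sum
      intro q hq
      rw [mem_Icc] at hq
      have n1 := tau_nonneg hα q
      have n2 := tau_nonneg hβ q
      have hq0 : (0:ℝ) < q := by exact_mod_cast hq.1
      have hqx : (q:ℝ) ≤ x := (Nat.cast_le.2 hq.2).trans (Nat.floor_le (by linarith))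
      have h4 : (q:ℝ)⁻¹ ≤ Real.exp 1 * (q:ℝ) ^ (-(1 + (Real.log x)⁻¹)) := by
        have e1 : (q:ℝ) ^ (-(1 + (Real.log x)⁻¹)) = (q:ℝ)⁻¹ * ((q:ℝ) ^ ((Real.log x)⁻¹))⁻¹ := by
          rw [neg_add, Real.rpow_add hq0, Real.rpow_neg hq0.le, Real.rpow_neg hq0.le, Real.rpow_one]
        have e2 : (q:ℝ) ^ ((Real.log x)⁻¹) ≤ Real.exp 1 := by
          calc (q:ℝ) ^ ((Real.log x)⁻¹) ≤ x ^ ((Real.log x)⁻¹) := by gcongr
            _ = Real.exp 1 := by
                rw [Real.rpow_def_of_pos (by linarith), mul_inv_cancel₀ hL.ne']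
        rw [e1]
        have e3 : 0 < (q:ℝ) ^ ((Real.log x)⁻¹) := by positivity
        calc (q:ℝ)⁻¹ = (q:ℝ) ^ ((Real.log x)⁻¹) * ((q:ℝ)⁻¹ * ((q:ℝ) ^ ((Real.log x)⁻¹))⁻¹) := by field_simp
          _ ≤ _ := by gcongr
      calc tau α q * tau β q * (q:ℝ)⁻¹ ≤ tau α q * tau β q * (Real.exp 1 * (q:ℝ) ^ (-(1 + (Real.log x)⁻¹))) := by gcongr
        _ = _ := by ring
    have h5 : ∑ q ∈ Icc 1 ⌊x⌋₊, tau α q * tau β q * (q:ℝ) ^ (-(1 + (Real.log x)⁻¹)) ≤ 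
        ∑' n : ℕ, tau α n * tau β n * (n:ℝ) ^ (-(1 + (Real.log x)⁻¹)) := 
      (summable_tt hα hβ hσ).sum_le_tsum _ (fun n _ => by
        have n1 := tau_nonneg hα n
        have n2 := tau_nonneg hβ n
        positivity)
    have h6 : (∑' n : ℕ, 1 / (n:ℝ) ^ (1 + (Real.log x)⁻¹)) ^ (α * β) ≤ (2 * Real.log x) ^ (α * β) := by
      apply Real.rpow_le_rpow (tsum_nonneg fun n => by positivity) _ hab
      rwa [div_inv_eq_mul] at hx
    rw [Real.mul_rpow (by norm_num) hL.le] at h6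
    calc _ ≤ _ := h3
      _ ≤ Real.exp 1 * (C * (2 ^ (α * β) * (Real.log x) ^ (α * β))) := by
          gcongr
          exact (h5.trans h2).trans (by gcongr)
      _ = _ := by ring
  obtain ⟨x0, hx0⟩ := eventually_atTop.1 hev
  set x1 := max x0 3 with hx1
  have hS0 : 0 ≤ ∑ q ∈ Icc 1 ⌊x1⌋₊, tau α q * tau β q * (q:ℝ)⁻¹ := by
    apply sum_nonneg
    intro n _
    have n1 := tau_nonneg hα n
    have n2 := tau_nonneg hβ n
    positivity
  refine ⟨Real.exp 1 * C * 2 ^ (α * β) + ∑ q ∈ Icc 1 ⌊x1⌋₊, tau α q * tau β q * (q:ℝ)⁻¹, by positivity, ?_⟩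
  intro x hx
  have hL1 : 1 ≤ Real.log x := by
    rw [Real.le_log_iff_exp_le (by linarith)]
    exact (Real.exp_one_lt_d9.le.trans (by norm_num)).trans hx
  have hLp : 1 ≤ (Real.log x) ^ (α * β) := Real.one_le_rpow hL1 hab
  by_cases hc : x1 ≤ x
  · refine (hx0 x ((le_max_left _ _).trans hc)).trans ?_
    gcongr
    linarith
  · push Not at hc
    have : ∑ q ∈ Icc 1 ⌊x⌋₊, tau α q * tau β q * (q:ℝ)⁻¹ ≤ ∑ q ∈ Icc 1 ⌊x1⌋₊, tau α q * tau β q * (q:ℝ)⁻¹ := by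
      apply sum_le_sum_of_subset_of_nonneg
      · exact Icc_subset_Icc_right (Nat.floor_le_floor hc.le)
      · intro n _ _
        have n1 := tau_nonneg hα n
        have n2 := tau_nonneg hβ n
        positivity
    have h9 : 0 ≤ Real.exp 1 * C * 2 ^ (α * β) := by positivity
    nlinarith

end Pool.Agent.LibZD46
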