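import Mathlib
import Pool.Agent.LibZD46.D1
import Pool.Agent.LibZD46.T1

set_option autoImplicit false

namespace Pool.Agent.LibZD46

open MeasureTheory Set Filter Topology Complex ProbabilityTheory
open scoped NNReal ComplexConjugate
open Pool.Agent.LibZM

lemma half_cast (N : ℕ) (m : ℕ) : (m:ℝ) * (1 / (2 * (N:ℝ))) = (m:ℝ) / (2 * N) := by ring

/-- Upper bound for the diagonal sums. -/
lemma tau_sum_T {α β : ℝ} (hα : 0 ≤ α) (hβ : 0 ≤ β) : ∃ C : ℝ, 0 < C ∧ ∀ᶠ T : ℝ in atTop, ∀ Y : ℕ, (Y:ℝ) ≤ T → 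
    ∑ q ∈ Finset.Icc 1 Y, tau α q * tau β q * (q:ℝ)⁻¹ ≤ C * (Real.log T) ^ (α * β) := by
  obtain ⟨C, hC, h⟩ := tau_mul_sum hα hβ
  refine ⟨C, hC, ?_⟩
  filter_upwards [eventually_ge_atTop 3] with T hT Y hY
  refine le_trans (Finset.sum_le_sum_of_subset_of_nonneg ?_ ?_) (h T hT)
  · exact Finset.Icc_subset_Icc_right (Nat.le_floor hY)
  · intro i _ _
    have := tau_nonneg hα i
    have := tau_nonneg hβ i
    positivity

lemma log_tendsto : Tendsto (fun q : ℝ × ℝ => Real.log q.1) (comap Prod.fst atTop) atTop := 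
  Real.tendsto_log_atTop.comp tendsto_comap

lemma log_Fl (η : ℝ) : Tendsto (fun q : ℝ × ℝ => Real.log q.1) (Fl η) atTop := 
  Real.tendsto_log_atTop.comp (Fl_fst η)

/-- Moments of the polynomial, upper bound. -/
theorem B_upper {N : ℕ} (hN : 1 ≤ N) {θ : ℝ} (hθ0 : 0 ≤ θ) {m : ℕ} (hm : θ * m ≤ 1/8) {η : ℝ} (hη : 0 < η) :
    ∃ C : ℝ, 0 < C ∧ ∀ᶠ q : ℝ × ℝ in Fl η, ∫ t, ‖Bf N (NT θ q.1) t‖ ^ (2 * m) ∂(gaussianReal q.2 (vT (4/5) q.1)) ≤ 
      C * (Real.log q.1) ^ (((m:ℝ) / (2 * N)) ^ 2) := by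
  have hk : 0 ≤ (m:ℝ) * (1 / (2 * (N:ℝ))) := by positivity
  obtain ⟨C, hC, h⟩ := tau_sum_T hk hk
  refine ⟨C + 1, by linarith, ?_⟩
  have h1 := (eB_tendsto hθ0 hm).eventually_le_const (show (0:ℝ) < 1 by norm_num)
  have h2 := (log_Fl η).eventually_ge_atTop 1
  filter_upwards [B_mean (θ := θ) (m := m) hN hη, (Fl_fst η).eventually h, (Fl_fst η).eventually h1, h2, Fl_one hη] with q a1 a2 a3 a4 a5
  have hT : 1 ≤ q.1 := a5.1.le
  have b1 := NT_pow_le hθ0 m hT hm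
  have b2 : ((NT θ q.1 ^ m : ℕ) : ℝ) ≤ q.1 := by
    push_cast
    refine b1.trans ?_
    calc q.1 ^ (1/8:ℝ) ≤ q.1 ^ (1:ℝ) := Real.rpow_le_rpow_of_exponent_le hT (by norm_num)
      _ = q.1 := Real.rpow_one _
  have b3 := a2 _ b2
  have b4 : ∑ n ∈ Finset.Icc 1 (NT θ q.1 ^ m), (bt N (NT θ q.1) ^ m) n ^ 2 * (n:ℝ)⁻¹ ≤ 
      ∑ n ∈ Finset.Icc 1 (NT θ q.1 ^ m), tau (m * (1 / (2 * (N:ℝ)))) n * tau (m * (1 / (2 * (N:ℝ)))) n * (n:ℝ)⁻¹ := by
    apply Finset.sum_le_sum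
    intro n _
    have c1 := bt_pow_le N (NT θ q.1) m n
    have c2 := pow_nonneg_af (bt_nonneg N (NT θ q.1)) m n
    rw [sq]
    gcongr
    exact c2.trans c1
  have b5 := (abs_le.mp a1).2
  have e1 : (m:ℝ) * (1 / (2 * (N:ℝ))) * ((m:ℝ) * (1 / (2 * (N:ℝ)))) = ((m:ℝ) / (2 * N)) ^ 2 := by ring
  rw [e1] at b3
  have b6 : 1 ≤ (Real.log q.1) ^ (((m:ℝ) / (2 * N)) ^ 2) := Real.one_le_rpow a4 (by positivity)
  nlinarith

lemma MM_nonneg (N X a b : ℕ) : 0 ≤ MM N X a b := by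
  unfold MM
  refine Finset.sum_nonneg fun m _ => Finset.sum_nonneg fun q _ => ?_
  have := pow_nonneg_af (bt_nonneg N X) a m
  have := pow_nonneg_af (bt_nonneg N X) b q
  split_ifs <;> positivity

lemma sum_div_tau {α : ℝ} {n Y : ℕ} (hn : 1 ≤ n) (hY : n ≤ Y) : 
    ∑ m ∈ Finset.Icc 1 Y, (if m ∣ n then tau α m else 0) = tau (1 + α) n := by
  rw [← tau_mul, ArithmeticFunction.mul_apply]
  have e1 : ∑ x ∈ n.divisorsAntidiagonal, tau 1 x.1 * tau α x.2 = ∑ x ∈ n.divisorsAntidiagonal, tau α x.2 := by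
    refine Finset.sum_congr rfl fun x hx => ?_
    have h := Nat.mem_divisorsAntidiagonal.mp hx
    have hx1 : x.1 ≠ 0 := by rintro h0; rw [h0, zero_mul] at h; exact h.2 h.1.symm
    rw [tau_one_apply hx1, one_mul]
  rw [e1, Nat.sum_divisorsAntidiagonal' (fun _ m => tau α m), ← Finset.sum_filter]
  refine Finset.sum_congr ?_ fun _ _ => rfl
  ext m
  rw [Finset.mem_filter, Finset.mem_Icc, Nat.mem_divisors]
  constructor
  · rintro ⟨⟨_, _⟩, h3⟩; exact ⟨h3, by omega⟩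
  · rintro ⟨h1, _⟩
    exact ⟨⟨Nat.pos_of_dvd_of_pos h1 (by omega), (Nat.le_of_dvd (by omega) h1).trans hY⟩, h1⟩

lemma MM_upper (N X a b : ℕ) : MM N X a b ≤ ∑ q ∈ Finset.Icc 1 (X ^ b), tau (1 + a * (1 / (2 * (N:ℝ)))) q * 
    tau (b * (1 / (2 * (N:ℝ)))) q * (q:ℝ)⁻¹ := by
  unfold MM
  rw [Finset.sum_comm]
  refine Finset.sum_le_sum fun q hq => ?_
  have hq' := Finset.mem_Icc.mp hq
  have h1 : ∀ m ∈ Finset.Icc 1 (X ^ a), (if m ∣ q then (bt N X ^ a) m * (bt N X ^ b) q * (q:ℝ)⁻¹ else 0) ≤ 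
      (if m ∣ q then tau (a * (1 / (2 * (N:ℝ)))) m else 0) * (tau (b * (1 / (2 * (N:ℝ)))) q * (q:ℝ)⁻¹) := by
    intro m _
    have c1 := bt_pow_le N X a m
    have c2 := pow_nonneg_af (bt_nonneg N X) a m
    have c3 := bt_pow_le N X b q
    have c4 := pow_nonneg_af (bt_nonneg N X) b q
    split_ifs
    · rw [mul_assoc]
      gcongr
      exact c2.trans c1
    · simp
  refine (Finset.sum_le_sum h1).trans ?_
  rw [← Finset.sum_mul, mul_assoc]
  apply mul_le_mul_of_nonneg_right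
  · have h2 : ∑ m ∈ Finset.Icc 1 (X ^ a), (if m ∣ q then tau (a * (1 / (2 * (N:ℝ)))) m else 0) ≤ 
        ∑ m ∈ Finset.Icc 1 (max (X ^ a) q), (if m ∣ q then tau (a * (1 / (2 * (N:ℝ)))) m else 0) := by
      apply Finset.sum_le_sum_of_subset_of_nonneg (Finset.Icc_subset_Icc_right (le_max_left _ _))
      intro m _ _
      have := tau_nonneg (α := a * (1 / (2 * (N:ℝ)))) (by positivity) m
      split_ifs <;> positivity
    rwa [sum_div_tau hq'.1 (le_max_right _ _)] at h2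
  · have := tau_nonneg (α := b * (1 / (2 * (N:ℝ)))) (by positivity) q
    positivity

lemma MM_lower {N X a b : ℕ} (hN : 1 ≤ N) (_hX : 1 ≤ X) (hb : b = a + 2 * N) : 
    ∑ q ∈ Finset.Icc 1 X, tau ((b:ℝ) / (2 * N)) q ^ 2 * (q:ℝ)⁻¹ ≤ MM N X a b := by
  have hb1 : 1 ≤ b := by omega
  have hN' : (N:ℝ) ≠ 0 := by positivity
  unfold MM
  rw [Finset.sum_comm]
  have hsub : Finset.Icc 1 X ⊆ Finset.Icc 1 (X ^ b) := Finset.Icc_subset_Icc_right (Nat.le_self_pow (by omega) X)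
  refine le_trans ?_ (Finset.sum_le_sum_of_subset_of_nonneg hsub ?_)
  · refine Finset.sum_le_sum fun q hq => ?_
    have hq' := Finset.mem_Icc.mp hq
    rcases Nat.eq_zero_or_pos a with ha | ha
    · subst ha
      have e : (b:ℝ) / (2 * N) = 1 := by rw [hb]; push_cast; field_simp; ring
      rw [e, pow_zero, pow_zero, Finset.Icc_self, Finset.sum_singleton, if_pos (one_dvd q), bt_pow_eq hq'.2, half_cast, e, 
        tau_one_apply (by omega)]
      simp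
    have h2 : ∑ m ∈ Finset.Icc 1 X, (if m ∣ q then (bt N X ^ a) m * (bt N X ^ b) q * (q:ℝ)⁻¹ else 0) = 
        tau ((b:ℝ) / (2 * N)) q ^ 2 * (q:ℝ)⁻¹ := by
      have e1 : ∀ m ∈ Finset.Icc 1 X, (if m ∣ q then (bt N X ^ a) m * (bt N X ^ b) q * (q:ℝ)⁻¹ else 0) = 
          (if m ∣ q then tau (a * (1 / (2 * (N:ℝ)))) m else 0) * (tau (b * (1 / (2 * (N:ℝ)))) q * (q:ℝ)⁻¹) := by
        intro m hm
        have hm' := Finset.mem_Icc.mp hm
        rw [bt_pow_eq hm'.2, bt_pow_eq hq'.2]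
        split_ifs
        · ring
        · simp
      rw [Finset.sum_congr rfl e1, ← Finset.sum_mul, sum_div_tau hq'.1 hq'.2, half_cast, half_cast]
      have e : 1 + (a:ℝ) / (2 * N) = (b:ℝ) / (2 * N) := by rw [hb]; push_cast; field_simp; ring
      rw [e]; ring
    rw [← h2]
    apply Finset.sum_le_sum_of_subset_of_nonneg (Finset.Icc_subset_Icc_right (Nat.le_self_pow (by omega) X))
    intro m _ _
    have := pow_nonneg_af (bt_nonneg N X) a m
    have := pow_nonneg_af (bt_nonneg N X) b q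
    split_ifs <;> positivity
  · intro q _ _
    refine Finset.sum_nonneg fun m _ => ?_
    have := pow_nonneg_af (bt_nonneg N X) a m
    have := pow_nonneg_af (bt_nonneg N X) b q
    split_ifs <;> positivity

end Pool.Agent.LibZD46
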