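import Mathlib
import Pool.Agent.LibZD46.D2

set_option autoImplicit false

namespace Pool.Agent.LibZD46

open MeasureTheory Set Filter Topology Complex ProbabilityTheory
open scoped NNReal ComplexConjugate
open Pool.Agent.LibZM

/-- The twisted first moment. -/
noncomputable def TF (N : ℕ) (θ : ℝ) (a b : ℕ) (q : ℝ × ℝ) : ℂ := 
  ∫ t, riemannZeta (crit t) * Bf N (NT θ q.1) t ^ a * conj (Bf N (NT θ q.1) t) ^ b ∂(gaussianReal q.2 (vT (4/5) q.1))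

lemma sqrt_vT' {T : ℝ} (hT : 0 < T) : √(vT (4/5) T : ℝ) = T ^ (9/10:ℝ) := by
  rw [sqrt_vT (4/5) hT]
  unfold HT; norm_num

theorem TF_sub_MM {N : ℕ} (hN : 1 ≤ N) {θ : ℝ} (hθ0 : 0 ≤ θ) {a b : ℕ} (hab : θ * (a + b) ≤ 1/8) {η : ℝ} (hη : 0 < η) :
    Tendsto (fun q => ‖TF N θ a b q - ((MM N (NT θ q.1) a b : ℝ) : ℂ)‖) (Fl η) (𝓝 0) := by
  have hpow := (tendsto_rpow_neg_atTop (y := 1/2) (by norm_num)).const_mul 3
  rw [mul_zero] at hpow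
  have ha : θ * a ≤ 1/8 := by nlinarith [show 0 ≤ θ * b by positivity]
  have hb : θ * b ≤ 1/8 := by nlinarith [show 0 ≤ θ * a by positivity]
  have hexp := (lim_exp (a := 1/16) (ε := 1) (by norm_num) (by norm_num) 1).const_mul 6
  rw [mul_zero] at hexp
  have hlim := ((hexp.add hpow).comp (Fl_fst η))
  rw [add_zero] at hlim
  refine squeeze_zero' (Eventually.of_forall fun q => norm_nonneg _) ?_ hlim
  filter_upwards [Fl_one hη, (Fl_fst η).eventually (four_le_vT (θ := 4/5) (by norm_num))] with q hq hv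
  have hT : 1 ≤ q.1 := hq.1.le
  have hT0 : 0 < q.1 := by linarith
  have h := twisted_first q.2 hv (pow_nonneg_af (bt_nonneg N (NT θ q.1)) a) (pow_nonneg_af (bt_nonneg N (NT θ q.1)) b) 
    (NT θ q.1 ^ a) (NT θ q.1 ^ b)
  have e1 : ∀ t, riemannZeta (crit t) * dp (bt N (NT θ q.1) ^ a) (NT θ q.1 ^ a) (crit t) * 
      conj (dp (bt N (NT θ q.1) ^ b) (NT θ q.1 ^ b) (crit t)) = 
      riemannZeta (crit t) * Bf N (NT θ q.1) t ^ a * conj (Bf N (NT θ q.1) t) ^ b := by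
    intro t
    rw [← Bf_pow, ← Bf_pow, map_pow]
  simp only [e1] at h
  have e2 : (∑ m ∈ Finset.Icc 1 (NT θ q.1 ^ a), ∑ n ∈ Finset.Icc 1 (NT θ q.1 ^ b), 
      (if m ∣ n then (bt N (NT θ q.1) ^ a) m * (bt N (NT θ q.1) ^ b) n * (n:ℝ)⁻¹ else 0)) = MM N (NT θ q.1) a b := rfl
  rw [e2] at h
  refine (show ‖TF N θ a b q - ((MM N (NT θ q.1) a b : ℝ) : ℂ)‖ ≤ _ from h).trans ?_
  have s1 := sum_bt_pow_le hN (NT θ q.1) a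
  have s2 := sum_bt_pow_le hN (NT θ q.1) b
  have s1' : 0 ≤ ∑ n ∈ Finset.Icc 1 (NT θ q.1 ^ a), (bt N (NT θ q.1) ^ a) n := 
    Finset.sum_nonneg fun n _ => pow_nonneg_af (bt_nonneg N _) a n
  have s2' : 0 ≤ ∑ n ∈ Finset.Icc 1 (NT θ q.1 ^ b), (bt N (NT θ q.1) ^ b) n := 
    Finset.sum_nonneg fun n _ => pow_nonneg_af (bt_nonneg N _) b n
  have s3 : ∑ n ∈ Finset.Icc 1 (NT θ q.1 ^ a), (bt N (NT θ q.1) ^ a) n * (n:ℝ)⁻¹ ≤ (NT θ q.1 : ℝ) ^ a := by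
    refine le_trans (Finset.sum_le_sum fun n hn => ?_) s1
    have hn' := Finset.mem_Icc.mp hn
    have c := pow_nonneg_af (bt_nonneg N (NT θ q.1)) a n
    exact mul_le_of_le_one_right c (inv_le_one_of_one_le₀ (by exact_mod_cast hn'.1))
  have s3' : 0 ≤ ∑ n ∈ Finset.Icc 1 (NT θ q.1 ^ a), (bt N (NT θ q.1) ^ a) n * (n:ℝ)⁻¹ := 
    Finset.sum_nonneg fun n _ => by have := pow_nonneg_af (bt_nonneg N (NT θ q.1)) a n; positivity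
  push_cast
  rw [sqrt_vT' hT0, vT_val hT0]
  have zb := NT_pow_le hθ0 b hT hb
  have zb1 := one_le_NT_pow hθ0 b hT
  have zab : (NT θ q.1 : ℝ) ^ a * (NT θ q.1 : ℝ) ^ b ≤ q.1 ^ (1/8:ℝ) := by
    rw [← pow_add]
    exact NT_pow_le hθ0 (a + b) hT (by push_cast; exact hab)
  obtain ⟨Z, hZ⟩ : ∃ Z : ℝ, Z = (NT θ q.1 : ℝ) ^ b := ⟨_, rfl⟩
  obtain ⟨W, hW⟩ : ∃ W : ℝ, W = (NT θ q.1 : ℝ) ^ a := ⟨_, rfl⟩
  rw [← hZ] at zb zb1 zab s2 ⊢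
  rw [← hW] at zab s1 s3
  have f1 : Z ^ 2 ≤ q.1 ^ (1/4:ℝ) := by
    calc Z ^ 2 ≤ (q.1 ^ (1/8:ℝ)) ^ 2 := pow_le_pow_left₀ (by linarith) zb 2
      _ = q.1 ^ (1/4:ℝ) := by rw [← Real.rpow_natCast, ← Real.rpow_mul hT0.le]; norm_num
  have f2 : 1/16 * q.1 ^ (1:ℝ) ≤ q.1 ^ (9/5:ℝ) / (16 * Z ^ 2) := by
    rw [le_div_iff₀ (by positivity)]
    calc 1/16 * q.1 ^ (1:ℝ) * (16 * Z ^ 2) = q.1 ^ (1:ℝ) * Z ^ 2 := by ring
      _ ≤ q.1 ^ (1:ℝ) * q.1 ^ (1/4:ℝ) := by gcongr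
      _ = q.1 ^ (5/4:ℝ) := by rw [← Real.rpow_add hT0]; norm_num
      _ ≤ q.1 ^ (9/5:ℝ) := Real.rpow_le_rpow_of_exponent_le hT (by norm_num)
  have f3 : Real.exp (-q.1 ^ (9/5:ℝ) / (16 * Z ^ 2)) ≤ Real.exp (-(1/16 * q.1 ^ (1:ℝ))) := by
    apply Real.exp_le_exp.mpr
    rw [neg_div]; linarith
  have f4 : Z ^ 2 * (W * Z) ≤ q.1 ^ (1:ℝ) := by
    have hWZ : 0 ≤ W * Z := mul_nonneg (s1'.trans s1) (by linarith)
    calc Z ^ 2 * (W * Z) ≤ q.1 ^ (1/4:ℝ) * q.1 ^ (1/8:ℝ) := by gcongr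
      _ = q.1 ^ (3/8:ℝ) := by rw [← Real.rpow_add hT0]; norm_num
      _ ≤ _ := Real.rpow_le_rpow_of_exponent_le hT (by norm_num)
  have hW0 : 0 ≤ W := s1'.trans s1
  have hZ0 : 0 ≤ Z := by linarith
  have g1 : 6 * Z ^ 2 * Real.exp (-q.1 ^ (9/5:ℝ) / (16 * Z ^ 2)) * 
      ((∑ n ∈ Finset.Icc 1 (NT θ q.1 ^ a), (bt N (NT θ q.1) ^ a) n) * ∑ n ∈ Finset.Icc 1 (NT θ q.1 ^ b), (bt N (NT θ q.1) ^ b) n) ≤ 
      6 * (q.1 ^ (1:ℝ) * Real.exp (-(1/16 * q.1 ^ (1:ℝ)))) := by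
    calc _ ≤ 6 * Z ^ 2 * Real.exp (-q.1 ^ (9/5:ℝ) / (16 * Z ^ 2)) * (W * Z) := by gcongr
      _ = 6 * ((Z ^ 2 * (W * Z)) * Real.exp (-q.1 ^ (9/5:ℝ) / (16 * Z ^ 2))) := by ring
      _ ≤ _ := by gcongr
  have g2 : 3 / q.1 ^ (9/10:ℝ) * ((∑ n ∈ Finset.Icc 1 (NT θ q.1 ^ a), (bt N (NT θ q.1) ^ a) n * (n:ℝ)⁻¹) * 
      ∑ n ∈ Finset.Icc 1 (NT θ q.1 ^ b), (bt N (NT θ q.1) ^ b) n) ≤ 3 * q.1 ^ (-(1/2:ℝ)) := by
    calc _ ≤ 3 / q.1 ^ (9/10:ℝ) * (W * Z) := by gcongr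
      _ ≤ 3 / q.1 ^ (9/10:ℝ) * q.1 ^ (1/8:ℝ) := by gcongr
      _ = 3 * (q.1 ^ (-(9/10:ℝ)) * q.1 ^ (1/8:ℝ)) := by rw [Real.rpow_neg hT0.le]; ring
      _ = 3 * q.1 ^ (-(31/40:ℝ)) := by rw [← Real.rpow_add hT0]; norm_num
      _ ≤ _ := by
        apply mul_le_mul_of_nonneg_left _ (by norm_num)
        exact Real.rpow_le_rpow_of_exponent_le hT (by norm_num)
  exact add_le_add g1 g2

theorem TF_upper {N : ℕ} (hN : 1 ≤ N) {θ : ℝ} (hθ0 : 0 ≤ θ) {a b : ℕ} (hab : θ * (a + b) ≤ 1/8) {η : ℝ} (hη : 0 < η) :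
    ∃ C : ℝ, 0 < C ∧ ∀ᶠ q : ℝ × ℝ in Fl η, ‖TF N θ a b q‖ ≤ C * (Real.log q.1) ^ ((1 + (a:ℝ) / (2 * N)) * ((b:ℝ) / (2 * N))) := by
  obtain ⟨C, hC, h⟩ := tau_sum_T (α := 1 + a * (1 / (2 * (N:ℝ)))) (β := b * (1 / (2 * (N:ℝ)))) (by positivity) (by positivity)
  refine ⟨C + 1, by linarith, ?_⟩
  have h2 := (log_Fl η).eventually_ge_atTop 1
  have h3 := (TF_sub_MM hN hθ0 hab hη).eventually_le_const (show (0:ℝ) < 1 by norm_num)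
  have hb : θ * b ≤ 1/8 := by nlinarith [show 0 ≤ θ * a by positivity]
  filter_upwards [(Fl_fst η).eventually h, h2, h3, Fl_one hη] with q a1 a2 a3 a4
  have hT : 1 ≤ q.1 := a4.1.le
  have b2 : ((NT θ q.1 ^ b : ℕ) : ℝ) ≤ q.1 := by
    push_cast
    refine (NT_pow_le hθ0 b hT hb).trans ?_
    calc q.1 ^ (1/8:ℝ) ≤ q.1 ^ (1:ℝ) := Real.rpow_le_rpow_of_exponent_le hT (by norm_num)
      _ = q.1 := Real.rpow_one _
  have b3 := (MM_upper N (NT θ q.1) a b).trans (a1 _ b2)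
  rw [half_cast, half_cast] at b3
  have b4 := MM_nonneg N (NT θ q.1) a b
  have b5 : 1 ≤ (Real.log q.1) ^ ((1 + (a:ℝ) / (2 * N)) * ((b:ℝ) / (2 * N))) := Real.one_le_rpow a2 (by positivity)
  have b6 : ‖TF N θ a b q‖ ≤ ‖TF N θ a b q - ((MM N (NT θ q.1) a b : ℝ) : ℂ)‖ + ‖((MM N (NT θ q.1) a b : ℝ) : ℂ)‖ := by
    have := norm_add_le (TF N θ a b q - ((MM N (NT θ q.1) a b : ℝ) : ℂ)) ((MM N (NT θ q.1) a b : ℝ) : ℂ)
    rwa [sub_add_cancel] at this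
  rw [Complex.norm_real, Real.norm_of_nonneg b4] at b6
  nlinarith

theorem TF_lower {N : ℕ} (hN : 1 ≤ N) {θ : ℝ} (hθ0 : 0 < θ) {a b : ℕ} (hb : b = a + 2 * N) (hab : θ * (a + b) ≤ 1/8) 
    {η : ℝ} (hη : 0 < η) :
    ∃ c : ℝ, 0 < c ∧ ∀ᶠ q : ℝ × ℝ in Fl η, c * (Real.log q.1) ^ (((b:ℝ) / (2 * N)) ^ 2) ≤ ‖TF N θ a b q‖ := by
  have hN' : (0:ℝ) < N := by exact_mod_cast hN
  have hb1 : (0:ℝ) < b := by rw [hb]; push_cast; positivity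
  have hκ : 0 < (b:ℝ) / (2 * N) := by positivity
  have hA : 0 < Aconst ((b:ℝ) / (2 * N)) / Real.Gamma (((b:ℝ) / (2 * N)) ^ 2 + 1) := 
    div_pos (Aconst_pos hκ.le) (Real.Gamma_pos_of_pos (by positivity))
  have h1 := short_sum_asymp _ hκ (half_lt_self hA)
  have h2 : Tendsto (fun q : ℝ × ℝ => q.1 ^ θ) (Fl η) atTop := (tendsto_rpow_atTop hθ0).comp (Fl_fst η)
  have h3 := h2.eventually h1
  set c0 := Aconst ((b:ℝ) / (2 * N)) / Real.Gamma (((b:ℝ) / (2 * N)) ^ 2 + 1) / 2 with hc0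
  have hc0' : 0 < c0 := half_pos hA
  set c1 := c0 * θ ^ (((b:ℝ) / (2 * N)) ^ 2) with hc1
  have hc1' : 0 < c1 := by positivity
  refine ⟨c1 / 2, by positivity, ?_⟩
  have h4 := (TF_sub_MM hN hθ0.le hab hη).eventually_le_const (show (0:ℝ) < c1 / 2 by positivity)
  have h5 := (log_Fl η).eventually_ge_atTop 1
  filter_upwards [h3, h4, h5, Fl_one hη] with q a1 a2 a3 a4
  have hT : 1 ≤ q.1 := a4.1.le
  have hT0 : 0 < q.1 := by linarith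
  have b1 := MM_lower (a := a) (b := b) hN (one_le_NT hθ0.le hT) hb
  rw [Real.log_rpow hT0, Real.mul_rpow hθ0.le (by linarith)] at a1
  have b2 : c1 * (Real.log q.1) ^ (((b:ℝ) / (2 * N)) ^ 2) ≤ MM N (NT θ q.1) a b := by
    rw [hc1, mul_assoc]; exact a1.trans b1
  have b3 : 1 ≤ (Real.log q.1) ^ (((b:ℝ) / (2 * N)) ^ 2) := Real.one_le_rpow a3 (by positivity)
  have b4 := MM_nonneg N (NT θ q.1) a b
  have b6 : ‖((MM N (NT θ q.1) a b : ℝ) : ℂ)‖ ≤ ‖TF N θ a b q - ((MM N (NT θ q.1) a b : ℝ) : ℂ)‖ + ‖TF N θ a b q‖ := by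
    have := norm_sub_le (TF N θ a b q) (TF N θ a b q - ((MM N (NT θ q.1) a b : ℝ) : ℂ))
    rw [sub_sub_cancel] at this
    linarith
  rw [Complex.norm_real, Real.norm_of_nonneg b4] at b6
  nlinarith

end Pool.Agent.LibZD46
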