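import Mathlib
import Pool.Agent.LibZD46.D3
import Pool.Agent.LibZD46.T2
import Pool.Agent.LibZD46.T3

set_option autoImplicit false

namespace Pool.Agent.LibZD46

open MeasureTheory Set Filter Topology Complex ProbabilityTheory
open scoped NNReal ComplexConjugate
open Pool.Agent.LibZM

lemma zeta_chi (t : ℝ) : riemannZeta (crit t) = chi t * conj (riemannZeta (crit t)) := by
  have h2 : riemannZeta (1 - crit t) = 2 * (2 * Real.pi) ^ (-crit t) * Complex.Gamma (crit t) * 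
      Complex.cos (Real.pi * crit t / 2) * riemannZeta (crit t) := by
    apply riemannZeta_one_sub
    · intro n hn
      have := congrArg Complex.re hn
      simp at this
      linarith [Nat.cast_nonneg (α := ℝ) n]
    · exact crit_ne_one t
  have h3 : riemannZeta (1 - crit t) = Xfac (crit t) * riemannZeta (crit t) := h2
  rw [← conj_crit, riemannZeta_conj] at h3
  have h4 := congrArg (starRingEnd ℂ) h3
  rw [Complex.conj_conj, map_mul] at h4
  exact h4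

lemma chi_ne (t : ℝ) : chi t ≠ 0 := by
  intro h
  have := norm_chi t
  rw [h, norm_zero] at this
  exact zero_ne_one this

lemma conj_chi (t : ℝ) : conj (chi t) = (chi t)⁻¹ := by
  rw [Complex.inv_def, Complex.normSq_eq_norm_sq, norm_chi]
  simp

/-- Twisted moments. -/
noncomputable def TW (N : ℕ) (θ : ℝ) (i : ℤ) (a b : ℕ) (q : ℝ × ℝ) : ℂ := 
  ∫ t, riemannZeta (crit t) * chi t ^ i * Bf N (NT θ q.1) t ^ a * conj (Bf N (NT θ q.1) t) ^ b ∂(gaussianReal q.2 (vT (4/5) q.1))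

/-- Twisted moments of the polynomial. -/
noncomputable def TB (N : ℕ) (θ : ℝ) (i : ℤ) (m : ℕ) (q : ℝ × ℝ) : ℂ := 
  ∫ t, chi t ^ i * Bf N (NT θ q.1) t ^ m * conj (Bf N (NT θ q.1) t) ^ m ∂(gaussianReal q.2 (vT (4/5) q.1))

lemma TW_zero (N : ℕ) (θ : ℝ) (a b : ℕ) (q : ℝ × ℝ) : TW N θ 0 a b q = TF N θ a b q := by
  unfold TW TF
  simp only [zpow_zero, mul_one]

lemma TW_symm (N : ℕ) (θ : ℝ) (i : ℤ) (a b : ℕ) (q : ℝ × ℝ) : TW N θ i a b q = conj (TW N θ (-1 - i) b a q) := by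
  unfold TW
  rw [← integral_conj]
  congr 1; ext t
  rw [map_mul, map_mul, map_mul, map_pow, map_pow, Complex.conj_conj, map_zpow₀, conj_chi, inv_zpow', neg_sub, sub_neg_eq_add]
  have h := zeta_chi t
  have h2 : riemannZeta (crit t) * chi t ^ i = conj (riemannZeta (crit t)) * chi t ^ (i + 1) := by
    rw [zpow_add_one₀ (chi_ne t)]
    nth_rewrite 1 [h]; ring
  rw [h2]; ring

lemma TB_symm (N : ℕ) (θ : ℝ) (i : ℤ) (m : ℕ) (q : ℝ × ℝ) : TB N θ i m q = conj (TB N θ (-i) m q) := by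
  unfold TB
  rw [← integral_conj]
  congr 1; ext t
  rw [map_mul, map_mul, map_pow, map_pow, Complex.conj_conj, map_zpow₀, conj_chi, inv_zpow', neg_neg]
  ring

lemma zeta_meansq_small {η : ℝ} (hη : 0 < η) : 
    ∀ᶠ q : ℝ × ℝ in Fl η, ∫ t, ‖riemannZeta (crit t)‖ ^ 2 ∂(gaussianReal q.2 (vT (4/5) q.1)) ≤ q.1 ^ (1/4:ℝ) := by
  obtain ⟨C, hC, h⟩ := zeta_sq_upper (α := 0) le_rfl (y := 1/100) (by norm_num) le_rfl hη
  have h1 : Tendsto (fun T : ℝ => C * (Real.log T ^ (1:ℝ) / T ^ (1/4:ℝ))) atTop (𝓝 0) := by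
    have := (isLittleO_log_rpow_rpow_atTop (s := 1/4) 1 (by norm_num)).tendsto_div_nhds_zero.const_mul C
    rwa [mul_zero] at this
  have h2 := (Fl_fst η).eventually (h1.eventually_le_const (show (0:ℝ) < 1 by norm_num))
  filter_upwards [h, h2, Fl_one hη] with q a1 a2 a3
  have hT0 : 0 < q.1 := by linarith [a3.1]
  have hp : (1 : ArithmeticFunction ℝ) = tau 0 := tau_zero_eq.symm
  obtain ⟨_, b1⟩ := a1 1 (fun n => by rw [hp]; exact tau_nonneg le_rfl n) (fun n => by rw [hp]) 1 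
    (by simpa using Real.one_le_rpow a3.1.le (by norm_num : (0:ℝ) ≤ 1/100)) SuppLe.one
  have e1 : ∀ t, dp (1 : ArithmeticFunction ℝ) 1 (crit t) = 1 := by
    intro t
    simp [dp]
  simp only [e1, norm_one, one_pow, mul_one, add_zero] at b1
  refine b1.trans ?_
  rw [← mul_div_assoc, div_le_one (Real.rpow_pos_of_pos hT0 _)] at a2
  exact a2

theorem TW_small_pos {N : ℕ} (hN : 1 ≤ N) {θ : ℝ} (hθ0 : 0 < θ) {a b : ℕ} (hab : θ * (a + b) ≤ 1/8) {η : ℝ} (hη : 0 < η) 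
    {i : ℤ} (hi : 1 ≤ i) : Tendsto (fun q => ‖TW N θ i a b q‖) (Fl η) (𝓝 0) := by
  obtain ⟨j, rfl⟩ := Int.eq_ofNat_of_zero_le (by omega : 0 ≤ i)
  have h := twist_small hN 1 j a b le_rfl (by omega) hθ0 hab hη (zeta_meansq_small hη)
  have h2 := h.norm
  rw [norm_zero] at h2
  refine h2.congr fun q => ?_
  unfold TW
  simp only [pow_one, zpow_natCast]

theorem TB_small {N : ℕ} (hN : 1 ≤ N) {θ : ℝ} (hθ0 : 0 < θ) {m : ℕ} (hab : θ * (m + m) ≤ 1/8) {η : ℝ} (hη : 0 < η) 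
    {i : ℤ} (hi : i ≠ 0) : Tendsto (fun q => ‖TB N θ i m q‖) (Fl η) (𝓝 0) := by
  have key : ∀ j : ℤ, 1 ≤ j → Tendsto (fun q => ‖TB N θ j m q‖) (Fl η) (𝓝 0) := by
    intro j hj
    obtain ⟨j, rfl⟩ := Int.eq_ofNat_of_zero_le (by omega : 0 ≤ j)
    have h := twist_small hN 0 j m m (by norm_num) (by omega) hθ0 hab hη (zeta_meansq_small hη)
    have h2 := h.norm
    rw [norm_zero] at h2
    refine h2.congr fun q => ?_
    unfold TB
    simp only [pow_zero, one_mul, zpow_natCast]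
  rcases lt_or_gt_of_ne hi with h | h
  · refine (key (-i) (by omega)).congr fun q => ?_
    rw [TB_symm N θ i, Complex.norm_conj]
  · exact key i (by omega)

/-- powers of the logarithm: quotients tend to zero -/
lemma log_quot {η : ℝ} {x y : ℝ} (hxy : x < y) (C : ℝ) : 
    Tendsto (fun q : ℝ × ℝ => C * (Real.log q.1) ^ x / (Real.log q.1) ^ y) (Fl η) (𝓝 0) := by
  have h1 := (tendsto_rpow_neg_atTop (y := y - x) (by linarith)).comp (log_Fl η)
  have h2 := h1.const_mul C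
  rw [mul_zero] at h2
  refine h2.congr' ?_
  filter_upwards [(log_Fl η).eventually_gt_atTop 0] with q hq
  simp only [Function.comp]
  rw [mul_div_assoc, ← Real.rpow_sub hq]
  congr 2; ring

lemma small_div {η : ℝ} {f : ℝ × ℝ → ℝ} {y : ℝ} (hy : 0 ≤ y) (hf0 : ∀ q, 0 ≤ f q) (hf : Tendsto f (Fl η) (𝓝 0)) : 
    Tendsto (fun q : ℝ × ℝ => f q / (Real.log q.1) ^ y) (Fl η) (𝓝 0) := by
  refine squeeze_zero' ?_ ?_ hf
  · filter_upwards [(log_Fl η).eventually_ge_atTop 1] with q hq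
    exact div_nonneg (hf0 q) (by positivity)
  · filter_upwards [(log_Fl η).eventually_ge_atTop 1] with q hq
    exact div_le_self (hf0 q) (Real.one_le_rpow hq hy)

lemma upper_div {η : ℝ} {f : ℝ × ℝ → ℝ} {x y C : ℝ} (hxy : x < y) (hf0 : ∀ q, 0 ≤ f q) 
    (hf : ∀ᶠ q in Fl η, f q ≤ C * (Real.log q.1) ^ x) : 
    Tendsto (fun q : ℝ × ℝ => f q / (Real.log q.1) ^ y) (Fl η) (𝓝 0) := by
  refine squeeze_zero' ?_ ?_ (log_quot hxy C)
  · filter_upwards [(log_Fl η).eventually_ge_atTop 1] with q hq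
    exact div_nonneg (hf0 q) (by positivity)
  · filter_upwards [(log_Fl η).eventually_ge_atTop 1, hf] with q hq h
    gcongr

/-- Odd modes. -/
theorem odd_small {N : ℕ} (hN : 1 ≤ N) {k : ℕ} (hk : 2 ≤ k) {θ : ℝ} (hθ0 : 0 < θ) (hab : θ * (2 * N * k) ≤ 1/8) {η : ℝ} (hη : 0 < η) 
    (i : ℤ) : Tendsto (fun q : ℝ × ℝ => ‖TW N θ i (N * (k - 1)) (N * (k - 1)) q‖ / (Real.log q.1) ^ ((k:ℝ) ^ 2 / 4)) (Fl η) (𝓝 0) := by
  obtain ⟨k, rfl⟩ := Nat.exists_eq_add_of_le hk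
  have hN' : (0:ℝ) < N := by exact_mod_cast hN
  have e1 : 2 + k - 1 = k + 1 := by omega
  rw [e1]
  have hab' : θ * (((N * (k + 1) : ℕ) : ℝ) + ((N * (k + 1) : ℕ) : ℝ)) ≤ 1/8 := by
    refine le_trans ?_ hab
    push_cast
    have : (N:ℝ) * (k + 1) + N * (k + 1) ≤ 2 * N * (2 + k) := by nlinarith
    gcongr
  have key : ∀ j : ℤ, 0 ≤ j → Tendsto (fun q : ℝ × ℝ => ‖TW N θ j (N * (k + 1)) (N * (k + 1)) q‖ / 
      (Real.log q.1) ^ (((2 + k : ℕ):ℝ) ^ 2 / 4)) (Fl η) (𝓝 0) := by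
    intro j hj
    rcases Nat.eq_zero_or_pos j.toNat with h0 | h0
    · have : j = 0 := by omega
      subst this
      obtain ⟨C, hC, h⟩ := TF_upper hN hθ0.le hab' hη
      refine upper_div (C := C) (x := (1 + ((N * (k + 1) : ℕ):ℝ) / (2 * N)) * (((N * (k + 1) : ℕ):ℝ) / (2 * N))) ?_ 
        (fun q => norm_nonneg _) ?_
      · have e2 : ((N * (k + 1) : ℕ):ℝ) / (2 * N) = ((k:ℝ) + 1) / 2 := by
          push_cast; field_simp
        rw [e2]; push_cast; nlinarith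
      · simp only [TW_zero]; exact h
    · exact small_div (by positivity) (fun q => norm_nonneg _) (TW_small_pos hN hθ0 hab' hη (by omega))
  rcases le_or_gt 0 i with h | h
  · exact key i h
  · refine (key (-1 - i) (by omega)).congr fun q => ?_
    rw [TW_symm N θ i, Complex.norm_conj]

/-- Even modes. -/
theorem even_small {N : ℕ} (hN : 1 ≤ N) {k : ℕ} (hk : 2 ≤ k) {θ : ℝ} (hθ0 : 0 < θ) (hab : θ * (2 * N * k) ≤ 1/8) {η : ℝ} (hη : 0 < η) 
    {i : ℤ} (hi : i ≠ 0) : Tendsto (fun q : ℝ × ℝ => ‖TW N θ i (N * (k - 2)) (N * k) q‖ / (Real.log q.1) ^ ((k:ℝ) ^ 2 / 4)) (Fl η) (𝓝 0) := by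
  obtain ⟨k, rfl⟩ := Nat.exists_eq_add_of_le hk
  have hN' : (0:ℝ) < N := by exact_mod_cast hN
  have e1 : 2 + k - 2 = k := by omega
  rw [e1]
  have hab' : θ * (((N * k : ℕ) : ℝ) + ((N * (2 + k) : ℕ) : ℝ)) ≤ 1/8 := by
    refine le_trans ?_ hab
    push_cast
    have : (N:ℝ) * k + N * (2 + k) ≤ 2 * N * (2 + k) := by nlinarith
    gcongr
  have hab'' : θ * (((N * (2 + k) : ℕ) : ℝ) + ((N * k : ℕ) : ℝ)) ≤ 1/8 := by rw [add_comm ((N * (2 + k) : ℕ) : ℝ)]; exact hab'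
  rcases lt_or_gt_of_ne hi with h | h
  · -- negative modes
    have key : ∀ j : ℤ, 0 ≤ j → Tendsto (fun q : ℝ × ℝ => ‖TW N θ j (N * (2 + k)) (N * k) q‖ / 
        (Real.log q.1) ^ (((2 + k : ℕ):ℝ) ^ 2 / 4)) (Fl η) (𝓝 0) := by
      intro j hj
      rcases Nat.eq_zero_or_pos j.toNat with h0 | h0
      · have : j = 0 := by omega
        subst this
        obtain ⟨C, hC, h⟩ := TF_upper hN hθ0.le hab'' hη
        refine upper_div (C := C) (x := (1 + ((N * (2 + k) : ℕ):ℝ) / (2 * N)) * (((N * k : ℕ):ℝ) / (2 * N))) ?_ 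
          (fun q => norm_nonneg _) ?_
        · have e2 : ((N * (2 + k) : ℕ):ℝ) / (2 * N) = (2 + (k:ℝ)) / 2 := by
            push_cast; field_simp
          have e3 : ((N * k : ℕ):ℝ) / (2 * N) = (k:ℝ) / 2 := by
            push_cast; field_simp
          rw [e2, e3]; push_cast; nlinarith
        · simp only [TW_zero]; exact h
      · exact small_div (by positivity) (fun q => norm_nonneg _) (TW_small_pos hN hθ0 hab'' hη (by omega))
    refine (key (-1 - i) (by omega)).congr fun q => ?_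
    rw [TW_symm N θ i, Complex.norm_conj]
  · exact small_div (by positivity) (fun q => norm_nonneg _) (TW_small_pos hN hθ0 hab' hη (by omega))

end Pool.Agent.LibZD46
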