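import Mathlib
import Pool.Agent.LibZD46.D4

set_option autoImplicit false

namespace Pool.Agent.LibZD46

open MeasureTheory Set Filter Topology Complex ProbabilityTheory
open scoped NNReal ComplexConjugate
open Pool.Agent.LibZM

theorem trig_approx (h : C(AddCircle (2 * Real.pi), ℝ)) {ε : ℝ} (hε : 0 < ε) : 
    ∃ c : ℤ →₀ ℂ, ∀ x : AddCircle (2 * Real.pi), ‖((h x : ℝ) : ℂ) - c.sum (fun n a => a * fourier n x)‖ ≤ ε := by
  have : Fact (0 < 2 * Real.pi) := ⟨by positivity⟩
  set hc : C(AddCircle (2 * Real.pi), ℂ) := ⟨fun x => ((h x : ℝ) : ℂ), by fun_prop⟩ with hhc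
  have h1 : hc ∈ (Submodule.span ℂ (range (@fourier (2 * Real.pi)))).topologicalClosure := by
    rw [span_fourier_closure_eq_top]; trivial
  have h2 : hc ∈ closure ((Submodule.span ℂ (range (@fourier (2 * Real.pi)))) : Set C(AddCircle (2 * Real.pi), ℂ)) := h1
  obtain ⟨p, hp, hd⟩ := Metric.mem_closure_iff.mp h2 ε hε
  obtain ⟨c, hc'⟩ := Finsupp.mem_span_range_iff_exists_finsupp.mp hp
  refine ⟨c, fun x => ?_⟩
  have e1 : c.sum (fun n a => a * fourier n x) = p x := by
    rw [← hc', Finsupp.sum, Finsupp.sum, ContinuousMap.coe_sum, Finset.sum_apply]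
    rfl
  rw [e1]
  have e2 : ((h x : ℝ) : ℂ) - p x = (hc - p) x := rfl
  rw [e2]
  refine (ContinuousMap.norm_coe_le_norm _ x).trans ?_
  rw [← dist_eq_norm]
  exact hd.le

lemma fourier_real (n : ℤ) (x : ℝ) : fourier n (x : AddCircle (2 * Real.pi)) = cexp ((n:ℂ) * (x * I)) := by
  rw [fourier_coe_apply]
  congr 1
  have : (Real.pi : ℂ) ≠ 0 := by exact_mod_cast Real.pi_ne_zero
  push_cast
  field_simp

lemma integral_fourier_zero {n : ℤ} (hn : n ≠ 0) : ∫ x in (0:ℝ)..(2 * Real.pi), fourier n (x : AddCircle (2 * Real.pi)) = 0 := by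
  have hc : (n:ℂ) * I ≠ 0 := mul_ne_zero (by exact_mod_cast hn) I_ne_zero
  have h := integral_exp_mul_complex (a := 0) (b := 2 * Real.pi) hc
  have e1 : ∀ x : ℝ, fourier n (x : AddCircle (2 * Real.pi)) = cexp ((n:ℂ) * I * x) := by
    intro x; rw [fourier_real]; congr 1; ring
  simp only [e1]
  rw [h]
  have e2 : cexp ((n:ℂ) * I * ((2 * Real.pi : ℝ) : ℂ)) = 1 := by
    rw [Complex.exp_eq_one_iff]
    exact ⟨n, by push_cast; ring⟩
  rw [e2]
  simp

theorem mean_approx (h : C(AddCircle (2 * Real.pi), ℝ)) {ε : ℝ} {c : ℤ →₀ ℂ} 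
    (hc : ∀ x : AddCircle (2 * Real.pi), ‖((h x : ℝ) : ℂ) - c.sum (fun n a => a * fourier n x)‖ ≤ ε) : 
    ‖((((∫ x in (0:ℝ)..(2 * Real.pi), h (x : AddCircle (2 * Real.pi))) / (2 * Real.pi) : ℝ)) : ℂ) - c 0‖ ≤ ε := by
  have hpi : (0:ℝ) < 2 * Real.pi := by positivity
  have hcoe : Continuous (fun x : ℝ => (x : AddCircle (2 * Real.pi))) := AddCircle.continuous_mk' _
  have hI : ∀ n : ℤ, Continuous (fun x : ℝ => fourier n (x : AddCircle (2 * Real.pi))) := fun n => 
    (fourier n).continuous.comp hcoe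
  have hh : Continuous (fun x : ℝ => ((h (x : AddCircle (2 * Real.pi)) : ℝ) : ℂ)) := 
    Complex.continuous_ofReal.comp (h.continuous.comp hcoe)
  have e1 : ∫ x in (0:ℝ)..(2 * Real.pi), c.sum (fun n a => a * fourier n (x : AddCircle (2 * Real.pi))) = 2 * Real.pi * c 0 := by
    unfold Finsupp.sum
    beta_reduce
    have hint : ∀ n ∈ c.support, IntervalIntegrable (fun x : ℝ => c n * fourier n (x : AddCircle (2 * Real.pi))) volume 0 (2 * Real.pi) := 
      fun n _ => (continuous_const.mul (hI n)).intervalIntegrable _ _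
    rw [intervalIntegral.integral_finsetSum hint]
    have e2 : ∀ n ∈ c.support, ∫ x in (0:ℝ)..(2 * Real.pi), c n * fourier n (x : AddCircle (2 * Real.pi)) = 
        if n = 0 then 2 * Real.pi * c 0 else 0 := by
      intro n _
      rw [intervalIntegral.integral_const_mul]
      split_ifs with h0
      · subst h0
        simp [mul_comm]
      · rw [integral_fourier_zero h0, mul_zero]
    rw [Finset.sum_congr rfl e2, Finset.sum_ite_eq']
    split_ifs with h0
    · rfl
    · rw [Finsupp.notMem_support_iff.mp h0, mul_zero]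
  have hs : Continuous (fun x : ℝ => c.sum (fun n a => a * fourier n (x : AddCircle (2 * Real.pi)))) := by
    unfold Finsupp.sum
    exact continuous_finsetSum _ fun n _ => continuous_const.mul (hI n)
  have h2 : ‖∫ x in (0:ℝ)..(2 * Real.pi), (((h (x : AddCircle (2 * Real.pi)) : ℝ) : ℂ) - 
      c.sum (fun n a => a * fourier n (x : AddCircle (2 * Real.pi))))‖ ≤ ε * |2 * Real.pi - 0| := 
    intervalIntegral.norm_integral_le_of_norm_le_const fun x _ => hc x
  rw [intervalIntegral.integral_sub (hh.intervalIntegrable _ _) (hs.intervalIntegrable _ _), e1, intervalIntegral.integral_ofReal, 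
    sub_zero, abs_of_pos hpi] at h2
  have e3 : ((((∫ x in (0:ℝ)..(2 * Real.pi), h (x : AddCircle (2 * Real.pi))) / (2 * Real.pi) : ℝ)) : ℂ) - c 0 = 
      ((((∫ x in (0:ℝ)..(2 * Real.pi), h (x : AddCircle (2 * Real.pi))) : ℝ) : ℂ) - 2 * Real.pi * c 0) / ((2 * Real.pi : ℝ) : ℂ) := by
    have : (Real.pi : ℂ) ≠ 0 := by exact_mod_cast Real.pi_ne_zero
    push_cast
    field_simp
  rw [e3, norm_div, Complex.norm_real, Real.norm_of_nonneg hpi.le, div_le_iff₀ hpi]
  exact h2

/-- The direction of zeta, as an angle. -/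
noncomputable def ang (t : ℝ) : AddCircle (2 * Real.pi) := 
  if riemannZeta (crit t) = 0 then ((arg (chi t) / 2 : ℝ) : AddCircle (2 * Real.pi)) 
  else ((arg (riemannZeta (crit t)) : ℝ) : AddCircle (2 * Real.pi))

lemma fourier_arg {w : ℂ} (hw : w ≠ 0) (n : ℤ) : fourier n ((arg w : ℝ) : AddCircle (2 * Real.pi)) = (w / ‖w‖) ^ n := by
  rw [fourier_real, Complex.exp_int_mul]
  congr 1
  have h := Complex.norm_mul_exp_arg_mul_I w
  have h0 : (‖w‖ : ℂ) ≠ 0 := by exact_mod_cast norm_ne_zero_iff.mpr hw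
  rw [eq_div_iff h0, mul_comm]
  exact h

lemma div_norm_sq {t : ℝ} (h : riemannZeta (crit t) ≠ 0) : 
    (riemannZeta (crit t) / ‖riemannZeta (crit t)‖) ^ (2:ℤ) = chi t := by
  have h0 : (‖riemannZeta (crit t)‖ : ℂ) ≠ 0 := by exact_mod_cast norm_ne_zero_iff.mpr h
  have h1 := zeta_chi t
  have h2 : riemannZeta (crit t) ^ 2 = chi t * (‖riemannZeta (crit t)‖ : ℂ) ^ 2 := by
    have h3 := Complex.conj_mul' (riemannZeta (crit t))
    calc riemannZeta (crit t) ^ 2 = (chi t * conj (riemannZeta (crit t))) * riemannZeta (crit t) := by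
          rw [← h1]; ring
      _ = chi t * (conj (riemannZeta (crit t)) * riemannZeta (crit t)) := by ring
      _ = _ := by rw [h3]
  have e : (riemannZeta (crit t) / ‖riemannZeta (crit t)‖) ^ (2:ℤ) = riemannZeta (crit t) ^ 2 / (‖riemannZeta (crit t)‖ : ℂ) ^ 2 := by
    rw [show (2:ℤ) = ((2:ℕ):ℤ) from rfl, zpow_natCast, div_pow]
  rw [e, h2, mul_div_assoc, div_self (pow_ne_zero 2 h0), mul_one]

lemma fourier_even (t : ℝ) (i : ℤ) : fourier (2 * i) (ang t) = chi t ^ i := by
  unfold ang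
  split_ifs with h
  · rw [fourier_real]
    have h1 := Complex.norm_mul_exp_arg_mul_I (chi t)
    rw [norm_chi, ofReal_one, one_mul] at h1
    nth_rewrite 2 [← h1]
    rw [← Complex.exp_int_mul]
    congr 1
    push_cast; ring
  · rw [fourier_arg h, zpow_mul, div_norm_sq h]

lemma fourier_odd (t : ℝ) (i : ℤ) : (‖riemannZeta (crit t)‖ : ℂ) * fourier (2 * i + 1) (ang t) = riemannZeta (crit t) * chi t ^ i := by
  by_cases h : riemannZeta (crit t) = 0
  · simp [h]
  · have h0 : (‖riemannZeta (crit t)‖ : ℂ) ≠ 0 := by exact_mod_cast norm_ne_zero_iff.mpr h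
    rw [fourier_add, fourier_even]
    have e : ang t = ((arg (riemannZeta (crit t)) : ℝ) : AddCircle (2 * Real.pi)) := by unfold ang; rw [if_neg h]
    rw [e, fourier_arg h, zpow_one]
    field_simp

/-- Even part of a trigonometric polynomial. -/
noncomputable def Ee (c : ℤ →₀ ℂ) (t : ℝ) : ℂ := c.sum (fun n a => if Even n then a * chi t ^ (n / 2) else 0)

/-- Odd part, multiplied by the modulus of zeta. -/
noncomputable def Oo (c : ℤ →₀ ℂ) (t : ℝ) : ℂ := c.sum (fun n a => if Even n then 0 else a * (riemannZeta (crit t) * chi t ^ ((n - 1) / 2)))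

lemma point1 (h : C(AddCircle (2 * Real.pi), ℝ)) {ε : ℝ} {c : ℤ →₀ ℂ} 
    (hc : ∀ x : AddCircle (2 * Real.pi), ‖((h x : ℝ) : ℂ) - c.sum (fun n a => a * fourier n x)‖ ≤ ε) (t : ℝ) : 
    ‖(‖riemannZeta (crit t)‖ : ℂ) * ((h (ang t) : ℝ) : ℂ) - ((‖riemannZeta (crit t)‖ : ℂ) * Ee c t + Oo c t)‖ ≤ 
      ε * ‖riemannZeta (crit t)‖ := by
  have e1 : (‖riemannZeta (crit t)‖ : ℂ) * c.sum (fun n a => a * fourier n (ang t)) = 
      (‖riemannZeta (crit t)‖ : ℂ) * Ee c t + Oo c t := by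
    unfold Ee Oo Finsupp.sum
    rw [Finset.mul_sum, Finset.mul_sum, ← Finset.sum_add_distrib]
    refine Finset.sum_congr rfl fun n _ => ?_
    beta_reduce
    rcases Int.even_or_odd n with hn | hn
    · rw [if_pos hn, if_pos hn]
      obtain ⟨j, rfl⟩ := hn
      have : (j + j) = 2 * j := by ring
      rw [this, fourier_even, Int.mul_ediv_cancel_left _ (by norm_num)]
      ring
    · rw [if_neg (Int.not_even_iff_odd.mpr hn), if_neg (Int.not_even_iff_odd.mpr hn)]
      obtain ⟨j, rfl⟩ := hn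
      rw [add_sub_cancel_right, Int.mul_ediv_cancel_left _ (by norm_num), ← fourier_odd]
      ring
  rw [← e1, ← mul_sub, norm_mul, Complex.norm_real, norm_norm, mul_comm]
  exact mul_le_mul_of_nonneg_right (hc _) (norm_nonneg _)

lemma fourier_add_pi (n : ℤ) (x : AddCircle (2 * Real.pi)) : 
    fourier n (x + ((Real.pi : ℝ) : AddCircle (2 * Real.pi))) = (if Even n then 1 else -1) * fourier n x := by
  induction x using QuotientAddGroup.induction_on with
  | H x =>
    have e : ((x : AddCircle (2 * Real.pi)) + ((Real.pi : ℝ) : AddCircle (2 * Real.pi))) = ((x + Real.pi : ℝ) : AddCircle (2 * Real.pi)) := rfl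
    have e' : (QuotientAddGroup.mk x : AddCircle (2 * Real.pi)) = (x : AddCircle (2 * Real.pi)) := rfl
    rw [e', e, fourier_real, fourier_real]
    have e2 : (n:ℂ) * (((x + Real.pi : ℝ) : ℂ) * I) = (n:ℂ) * (x * I) + (n:ℂ) * (Real.pi * I) := by push_cast; ring
    rw [e2, Complex.exp_add, mul_comm]
    congr 1
    rw [Complex.exp_int_mul, Complex.exp_pi_mul_I]
    split_ifs with h
    · exact h.neg_one_zpow
    · exact (Int.not_even_iff_odd.mp h).neg_one_zpow

/-- symmetrised function -/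
noncomputable def hsym (h : C(AddCircle (2 * Real.pi), ℝ)) (x : AddCircle (2 * Real.pi)) : ℝ := 
  (h x + h (x + ((Real.pi : ℝ) : AddCircle (2 * Real.pi)))) / 2

lemma point2 (h : C(AddCircle (2 * Real.pi), ℝ)) {ε : ℝ} {c : ℤ →₀ ℂ} 
    (hc : ∀ x : AddCircle (2 * Real.pi), ‖((h x : ℝ) : ℂ) - c.sum (fun n a => a * fourier n x)‖ ≤ ε) (t : ℝ) : 
    ‖((hsym h (ang t) : ℝ) : ℂ) - Ee c t‖ ≤ ε := by
  have e1 : (c.sum (fun n a => a * fourier n (ang t)) + 
      c.sum (fun n a => a * fourier n (ang t + ((Real.pi : ℝ) : AddCircle (2 * Real.pi))))) / 2 = Ee c t := by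
    unfold Ee Finsupp.sum
    rw [← Finset.sum_add_distrib, Finset.sum_div]
    refine Finset.sum_congr rfl fun n _ => ?_
    beta_reduce
    rw [fourier_add_pi]
    rcases Int.even_or_odd n with hn | hn
    · rw [if_pos hn, if_pos hn]
      obtain ⟨j, rfl⟩ := hn
      have : (j + j) = 2 * j := by ring
      rw [this, fourier_even, Int.mul_ediv_cancel_left _ (by norm_num)]
      ring
    · rw [if_neg (Int.not_even_iff_odd.mpr hn), if_neg (Int.not_even_iff_odd.mpr hn)]
      ring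
  have h1 := hc (ang t)
  have h2 := hc (ang t + ((Real.pi : ℝ) : AddCircle (2 * Real.pi)))
  rw [← e1]
  unfold hsym
  have e2 : ((((h (ang t) + h (ang t + ((Real.pi : ℝ) : AddCircle (2 * Real.pi)))) / 2 : ℝ)) : ℂ) - 
      (c.sum (fun n a => a * fourier n (ang t)) + c.sum (fun n a => a * fourier n (ang t + ((Real.pi : ℝ) : AddCircle (2 * Real.pi))))) / 2 = 
      ((((h (ang t) : ℝ) : ℂ) - c.sum (fun n a => a * fourier n (ang t))) + 
       (((h (ang t + ((Real.pi : ℝ) : AddCircle (2 * Real.pi))) : ℝ) : ℂ) - 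
        c.sum (fun n a => a * fourier n (ang t + ((Real.pi : ℝ) : AddCircle (2 * Real.pi)))))) / 2 := by
    push_cast; ring
  rw [e2, norm_div]
  have h3 := norm_add_le (((h (ang t) : ℝ) : ℂ) - c.sum (fun n a => a * fourier n (ang t))) 
       (((h (ang t + ((Real.pi : ℝ) : AddCircle (2 * Real.pi))) : ℝ) : ℂ) - 
        c.sum (fun n a => a * fourier n (ang t + ((Real.pi : ℝ) : AddCircle (2 * Real.pi)))))
  rw [Complex.norm_ofNat, div_le_iff₀ (by norm_num)]
  linarith

end Pool.Agent.LibZD46
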