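import Mathlib
import Pool.Agent.LibZD46.D5

set_option autoImplicit false

namespace Pool.Agent.LibZD46

open MeasureTheory Set Filter Topology Complex ProbabilityTheory
open scoped NNReal ComplexConjugate
open Pool.Agent.LibZM

lemma continuous_chi : Continuous chi := by
  unfold chi
  refine Complex.continuous_conj.comp ?_
  rw [continuous_iff_continuousAt]
  intro t
  have hre : 0 < (crit t).re := by simp
  have hG : ContinuousAt Complex.Gamma (crit t) := by
    apply DifferentiableAt.continuousAt (𝕜 := ℂ)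
    apply Complex.differentiableAt_Gamma
    intro m hm
    rw [hm] at hre
    simp at hre
    linarith [Nat.cast_nonneg (α := ℝ) m]
  have h2pi : (2 * (Real.pi : ℂ)) ≠ 0 := by
    have : (Real.pi : ℂ) ≠ 0 := by exact_mod_cast Real.pi_ne_zero
    exact mul_ne_zero two_ne_zero this
  have hX : ContinuousAt Xfac (crit t) := by
    unfold Xfac
    refine ((ContinuousAt.mul (ContinuousAt.mul continuousAt_const ?_) hG).mul ?_)
    · exact ContinuousAt.const_cpow continuous_neg.continuousAt (Or.inl h2pi)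
    · exact (by fun_prop : Continuous (fun s : ℂ => Complex.cos (Real.pi * s / 2))).continuousAt
  exact ContinuousAt.comp (g := Xfac) (f := crit) hX continuous_crit.continuousAt

lemma continuous_chi_zpow (i : ℤ) : Continuous (fun t => chi t ^ i) := by
  exact continuous_chi.zpow₀ i (fun t => Or.inl (chi_ne t))

lemma norm_chi_zpow (i : ℤ) (t : ℝ) : ‖chi t ^ i‖ = 1 := by rw [norm_zpow, norm_chi, one_zpow]

lemma measurable_ang : Measurable ang := by
  unfold ang
  have hcoe : Measurable (fun x : ℝ => (x : AddCircle (2 * Real.pi))) := (AddCircle.continuous_mk' _).measurable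
  refine Measurable.ite ?_ ?_ ?_
  · exact measurableSet_eq_fun continuous_zeta_crit.measurable measurable_const
  · exact hcoe.comp ((Complex.measurable_arg.comp continuous_chi.measurable).div_const 2)
  · exact hcoe.comp (Complex.measurable_arg.comp continuous_zeta_crit.measurable)

lemma measurable_h_ang (h : C(AddCircle (2 * Real.pi), ℝ)) : Measurable (fun t => h (ang t)) := 
  h.continuous.measurable.comp measurable_ang

/-- basic integrability: anything bounded by a multiple of zeta -/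
lemma integrable_of_zeta (u : ℝ) (v : ℝ≥0) {E : Type*} [NormedAddCommGroup E] {f : ℝ → E} {C : ℝ} 
    (hf : AEStronglyMeasurable f (gaussianReal u v)) (hb : ∀ t, ‖f t‖ ≤ C * ‖riemannZeta (crit t)‖) : Integrable f (gaussianReal u v) := by
  have h1 : Integrable (fun t : ℝ => |C| * (4 + 2 * |t|)) (gaussianReal u v) := 
    (((integrable_const 4).add ((integrable_abs_gaussian u v).const_mul 2))).const_mul |C|
  refine Integrable.mono' h1 hf (Eventually.of_forall fun t => (hb t).trans ?_)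
  calc C * ‖riemannZeta (crit t)‖ ≤ |C| * ‖riemannZeta (crit t)‖ := mul_le_mul_of_nonneg_right (le_abs_self C) (norm_nonneg _)
    _ ≤ |C| * (4 + 2 * |t|) := mul_le_mul_of_nonneg_left (norm_zeta_crit_le t) (abs_nonneg C)

lemma integrable_of_bdd (u : ℝ) (v : ℝ≥0) {E : Type*} [NormedAddCommGroup E] {f : ℝ → E} {C : ℝ} 
    (hf : AEStronglyMeasurable f (gaussianReal u v)) (hb : ∀ t, ‖f t‖ ≤ C) : Integrable f (gaussianReal u v) := 
  Integrable.mono' (integrable_const C) hf (Eventually.of_forall hb)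

section Fixed

variable {N : ℕ} (hN : 1 ≤ N) (X : ℕ) (u : ℝ) (v : ℝ≥0)

include hN

lemma norm_B_pow_le (n : ℕ) (t : ℝ) : ‖Bf N X t‖ ^ n ≤ (X:ℝ) ^ n := pow_le_pow_left₀ (norm_nonneg _) (norm_Bf_le hN X t) n

lemma int_twist (i : ℤ) (a b : ℕ) : 
    Integrable (fun t => riemannZeta (crit t) * chi t ^ i * Bf N X t ^ a * conj (Bf N X t) ^ b) (gaussianReal u v) := by
  refine integrable_of_zeta u v (C := (X:ℝ) ^ a * (X:ℝ) ^ b) ?_ ?_
  · refine Continuous.aestronglyMeasurable ?_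
    have := continuous_Bf N X
    have := continuous_chi_zpow i
    have := continuous_zeta_crit
    have := Complex.continuous_conj
    fun_prop
  · intro t
    rw [norm_mul, norm_mul, norm_mul, norm_pow, norm_pow, Complex.norm_conj, norm_chi_zpow, mul_one, mul_comm ((X:ℝ) ^ a * (X:ℝ) ^ b), mul_assoc]
    have := norm_B_pow_le hN X a t
    have := norm_B_pow_le hN X b t
    gcongr

lemma int_twistB (i : ℤ) (m : ℕ) : 
    Integrable (fun t => chi t ^ i * Bf N X t ^ m * conj (Bf N X t) ^ m) (gaussianReal u v) := by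
  refine integrable_of_bdd u v (C := (X:ℝ) ^ m * (X:ℝ) ^ m) ?_ ?_
  · refine Continuous.aestronglyMeasurable ?_
    have := continuous_Bf N X
    have := continuous_chi_zpow i
    have := Complex.continuous_conj
    fun_prop
  · intro t
    rw [norm_mul, norm_mul, norm_pow, norm_pow, Complex.norm_conj, norm_chi_zpow, one_mul]
    have := norm_B_pow_le hN X m t
    gcongr

lemma int_M1 (m : ℕ) {g : ℝ → ℝ} (hg : Measurable g) {G : ℝ} (hb : ∀ t, |g t| ≤ G) : 
    Integrable (fun t => ‖riemannZeta (crit t)‖ * ‖Bf N X t‖ ^ (2 * m) * g t) (gaussianReal u v) := by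
  refine integrable_of_zeta u v (C := (X:ℝ) ^ (2 * m) * G) ?_ ?_
  · have h1 : Continuous (fun t => ‖riemannZeta (crit t)‖ * ‖Bf N X t‖ ^ (2 * m)) := by
      have := continuous_Bf N X
      have := continuous_zeta_crit
      fun_prop
    exact (h1.measurable.mul hg).aestronglyMeasurable
  · intro t
    rw [Real.norm_eq_abs, abs_mul, abs_of_nonneg (by positivity : 0 ≤ ‖riemannZeta (crit t)‖ * ‖Bf N X t‖ ^ (2 * m))]
    have h1 := norm_B_pow_le hN X (2 * m) t
    have h2 := hb t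
    calc ‖riemannZeta (crit t)‖ * ‖Bf N X t‖ ^ (2 * m) * |g t| ≤ ‖riemannZeta (crit t)‖ * (X:ℝ) ^ (2 * m) * G := by gcongr
      _ = _ := by ring

lemma int_B (m : ℕ) {g : ℝ → ℝ} (hg : Measurable g) {G : ℝ} (hb : ∀ t, |g t| ≤ G) : 
    Integrable (fun t => ‖Bf N X t‖ ^ m * g t) (gaussianReal u v) := by
  refine integrable_of_bdd u v (C := (X:ℝ) ^ m * G) ?_ ?_
  · have h1 : Continuous (fun t => ‖Bf N X t‖ ^ m) := by
      have := continuous_Bf N X
      fun_prop
    exact (h1.measurable.mul hg).aestronglyMeasurable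
  · intro t
    rw [Real.norm_eq_abs, abs_mul, abs_of_nonneg (by positivity : 0 ≤ ‖Bf N X t‖ ^ m)]
    have h1 := norm_B_pow_le hN X m t
    have h2 := hb t
    gcongr

end Fixed

lemma B_conj (z : ℂ) (m : ℕ) : z ^ m * conj z ^ m = ((‖z‖ ^ (2 * m) : ℝ) : ℂ) := by
  rw [← mul_pow, Complex.mul_conj, Complex.normSq_eq_norm_sq]
  push_cast; rw [← pow_mul]

lemma h_bdd (h : C(AddCircle (2 * Real.pi), ℝ)) : ∃ G : ℝ, ∀ x, |h x| ≤ G := by
  have : Fact (0 < 2 * Real.pi) := ⟨by positivity⟩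
  exact ⟨‖h‖, fun x => by simpa using h.norm_coe_le_norm x⟩

/-- the small quantities -/
noncomputable def sm1 (N k : ℕ) (θ : ℝ) (c : ℤ →₀ ℂ) (q : ℝ × ℝ) : ℝ := 
  ∑ n ∈ c.support, ‖c n‖ * ‖TW N θ ((n - 1) / 2) (N * (k - 1)) (N * (k - 1)) q‖

noncomputable def sm2 (N k : ℕ) (θ : ℝ) (c : ℤ →₀ ℂ) (q : ℝ × ℝ) : ℝ := 
  ∑ n ∈ c.support, if n / 2 = 0 then 0 else ‖c n‖ * ‖TW N θ (n / 2) (N * (k - 2)) (N * k) q‖

noncomputable def sm3 (N k : ℕ) (θ : ℝ) (c : ℤ →₀ ℂ) (q : ℝ × ℝ) : ℝ := 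
  ∑ n ∈ c.support, if n / 2 = 0 then 0 else ‖c n‖ * ‖TB N θ (n / 2) (N * k) q‖

lemma integral_Oo {N : ℕ} (hN : 1 ≤ N) (k : ℕ) (θ : ℝ) (c : ℤ →₀ ℂ) (q : ℝ × ℝ) : 
    Integrable (fun t => Oo c t * ((‖Bf N (NT θ q.1) t‖ ^ (2 * (N * (k - 1))) : ℝ) : ℂ)) (gaussianReal q.2 (vT (4/5) q.1)) ∧ 
    ‖∫ t, Oo c t * ((‖Bf N (NT θ q.1) t‖ ^ (2 * (N * (k - 1))) : ℝ) : ℂ) ∂(gaussianReal q.2 (vT (4/5) q.1))‖ ≤ sm1 N k θ c q := by
  set μ := gaussianReal q.2 (vT (4/5) q.1) with hμ
  have e1 : ∀ t, Oo c t * ((‖Bf N (NT θ q.1) t‖ ^ (2 * (N * (k - 1))) : ℝ) : ℂ) = 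
      ∑ n ∈ c.support, (if Even n then 0 else c n) * (riemannZeta (crit t) * chi t ^ ((n - 1) / 2) * 
        Bf N (NT θ q.1) t ^ (N * (k - 1)) * conj (Bf N (NT θ q.1) t) ^ (N * (k - 1))) := by
    intro t
    unfold Oo Finsupp.sum
    rw [Finset.sum_mul, ← B_conj]
    refine Finset.sum_congr rfl fun n _ => ?_
    beta_reduce
    split_ifs
    · simp
    · ring
  have hi : ∀ n ∈ c.support, Integrable (fun t => (if Even n then 0 else c n) * (riemannZeta (crit t) * chi t ^ ((n - 1) / 2) * 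
        Bf N (NT θ q.1) t ^ (N * (k - 1)) * conj (Bf N (NT θ q.1) t) ^ (N * (k - 1)))) μ := fun n _ => 
    (int_twist hN (NT θ q.1) q.2 (vT (4/5) q.1) ((n - 1) / 2) (N * (k - 1)) (N * (k - 1))).const_mul _
  simp only [e1]
  refine ⟨integrable_finsetSum _ hi, ?_⟩
  rw [integral_finsetSum _ hi]
  refine (norm_sum_le _ _).trans ?_
  unfold sm1
  refine Finset.sum_le_sum fun n _ => ?_
  rw [integral_const_mul, norm_mul]
  refine mul_le_mul_of_nonneg_right ?_ (norm_nonneg _)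
  split_ifs
  · simp
  · exact le_rfl

lemma integral_Ee {N : ℕ} (hN : 1 ≤ N) (k : ℕ) (θ : ℝ) (c : ℤ →₀ ℂ) (q : ℝ × ℝ) : 
    Integrable (fun t => riemannZeta (crit t) * Bf N (NT θ q.1) t ^ (N * (k - 2)) * conj (Bf N (NT θ q.1) t) ^ (N * k) * Ee c t) 
      (gaussianReal q.2 (vT (4/5) q.1)) ∧ 
    ‖c 0‖ * ‖TF N θ (N * (k - 2)) (N * k) q‖ - sm2 N k θ c q ≤ 
      ‖∫ t, riemannZeta (crit t) * Bf N (NT θ q.1) t ^ (N * (k - 2)) * conj (Bf N (NT θ q.1) t) ^ (N * k) * Ee c t 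
        ∂(gaussianReal q.2 (vT (4/5) q.1))‖ := by
  set μ := gaussianReal q.2 (vT (4/5) q.1) with hμ
  have e1 : ∀ t, riemannZeta (crit t) * Bf N (NT θ q.1) t ^ (N * (k - 2)) * conj (Bf N (NT θ q.1) t) ^ (N * k) * Ee c t = 
      ∑ n ∈ c.support, (if Even n then c n else 0) * (riemannZeta (crit t) * chi t ^ (n / 2) * 
        Bf N (NT θ q.1) t ^ (N * (k - 2)) * conj (Bf N (NT θ q.1) t) ^ (N * k)) := by
    intro t
    unfold Ee Finsupp.sum
    rw [Finset.mul_sum]
    refine Finset.sum_congr rfl fun n _ => ?_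
    beta_reduce
    split_ifs
    · ring
    · simp
  have hi : ∀ n ∈ c.support, Integrable (fun t => (if Even n then c n else 0) * (riemannZeta (crit t) * chi t ^ (n / 2) * 
        Bf N (NT θ q.1) t ^ (N * (k - 2)) * conj (Bf N (NT θ q.1) t) ^ (N * k))) μ := fun n _ => 
    (int_twist hN (NT θ q.1) q.2 (vT (4/5) q.1) (n / 2) (N * (k - 2)) (N * k)).const_mul _
  simp only [e1]
  refine ⟨integrable_finsetSum _ hi, ?_⟩
  rw [integral_finsetSum _ hi]
  have e2 : ∀ n ∈ c.support, ∫ t, (if Even n then c n else 0) * (riemannZeta (crit t) * chi t ^ (n / 2) * 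
        Bf N (NT θ q.1) t ^ (N * (k - 2)) * conj (Bf N (NT θ q.1) t) ^ (N * k)) ∂μ = 
      (if n = 0 then c 0 * TF N θ (N * (k - 2)) (N * k) q else 0) + 
      (if n / 2 = 0 then 0 else (if Even n then c n else 0) * TW N θ (n / 2) (N * (k - 2)) (N * k) q) := by
    intro n _
    rw [integral_const_mul]
    have e3 : ∫ t, riemannZeta (crit t) * chi t ^ (n / 2) * 
        Bf N (NT θ q.1) t ^ (N * (k - 2)) * conj (Bf N (NT θ q.1) t) ^ (N * k) ∂μ = TW N θ (n / 2) (N * (k - 2)) (N * k) q := rfl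
    rw [e3]
    by_cases h0 : n = 0
    · subst h0
      rw [if_pos rfl, Int.zero_ediv, if_pos rfl, TW_zero, if_pos (by decide)]
      ring
    · rw [if_neg h0]
      by_cases h1 : n / 2 = 0
      · have : n = 1 := by omega
        subst this
        rw [if_pos h1, if_neg (by decide)]; ring
      · rw [if_neg h1]; ring
  rw [Finset.sum_congr rfl e2, Finset.sum_add_distrib, Finset.sum_ite_eq']
  have e4 : (if (0:ℤ) ∈ c.support then c 0 * TF N θ (N * (k - 2)) (N * k) q else 0) = c 0 * TF N θ (N * (k - 2)) (N * k) q := by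
    split_ifs with h
    · rfl
    · rw [Finsupp.notMem_support_iff.mp h, zero_mul]
  rw [e4]
  have h5 : ‖∑ n ∈ c.support, (if n / 2 = 0 then 0 else (if Even n then c n else 0) * TW N θ (n / 2) (N * (k - 2)) (N * k) q)‖ ≤ 
      sm2 N k θ c q := by
    refine (norm_sum_le _ _).trans ?_
    unfold sm2
    refine Finset.sum_le_sum fun n _ => ?_
    split_ifs
    · simp
    · rw [norm_mul]
    · simp; positivity
  have h6 := norm_sub_le (c 0 * TF N θ (N * (k - 2)) (N * k) q + 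
    ∑ n ∈ c.support, (if n / 2 = 0 then 0 else (if Even n then c n else 0) * TW N θ (n / 2) (N * (k - 2)) (N * k) q))
    (∑ n ∈ c.support, (if n / 2 = 0 then 0 else (if Even n then c n else 0) * TW N θ (n / 2) (N * (k - 2)) (N * k) q))
  rw [add_sub_cancel_right, norm_mul] at h6
  linarith

lemma integral_EeB {N : ℕ} (hN : 1 ≤ N) (k : ℕ) (θ : ℝ) (c : ℤ →₀ ℂ) (q : ℝ × ℝ) : 
    Integrable (fun t => ((‖Bf N (NT θ q.1) t‖ ^ (2 * (N * k)) : ℝ) : ℂ) * Ee c t) (gaussianReal q.2 (vT (4/5) q.1)) ∧ 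
    ‖∫ t, ((‖Bf N (NT θ q.1) t‖ ^ (2 * (N * k)) : ℝ) : ℂ) * Ee c t ∂(gaussianReal q.2 (vT (4/5) q.1))‖ ≤ 
      ‖c 0‖ * (∫ t, ‖Bf N (NT θ q.1) t‖ ^ (2 * (N * k)) ∂(gaussianReal q.2 (vT (4/5) q.1))) + sm3 N k θ c q := by
  set μ := gaussianReal q.2 (vT (4/5) q.1) with hμ
  have e1 : ∀ t, ((‖Bf N (NT θ q.1) t‖ ^ (2 * (N * k)) : ℝ) : ℂ) * Ee c t = 
      ∑ n ∈ c.support, (if Even n then c n else 0) * (chi t ^ (n / 2) * 
        Bf N (NT θ q.1) t ^ (N * k) * conj (Bf N (NT θ q.1) t) ^ (N * k)) := by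
    intro t
    unfold Ee Finsupp.sum
    rw [Finset.mul_sum, ← B_conj]
    refine Finset.sum_congr rfl fun n _ => ?_
    beta_reduce
    split_ifs
    · ring
    · simp
  have hi : ∀ n ∈ c.support, Integrable (fun t => (if Even n then c n else 0) * (chi t ^ (n / 2) * 
        Bf N (NT θ q.1) t ^ (N * k) * conj (Bf N (NT θ q.1) t) ^ (N * k))) μ := fun n _ => 
    (int_twistB hN (NT θ q.1) q.2 (vT (4/5) q.1) (n / 2) (N * k)).const_mul _
  simp only [e1]
  refine ⟨integrable_finsetSum _ hi, ?_⟩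
  rw [integral_finsetSum _ hi]
  have e0 : TB N θ 0 (N * k) q = ((∫ t, ‖Bf N (NT θ q.1) t‖ ^ (2 * (N * k)) ∂μ : ℝ) : ℂ) := by
    unfold TB
    rw [← integral_complex_ofReal]
    congr 1; ext t
    rw [zpow_zero, one_mul]
    exact B_conj _ _
  have e2 : ∀ n ∈ c.support, ∫ t, (if Even n then c n else 0) * (chi t ^ (n / 2) * 
        Bf N (NT θ q.1) t ^ (N * k) * conj (Bf N (NT θ q.1) t) ^ (N * k)) ∂μ = 
      (if n = 0 then c 0 * ((∫ t, ‖Bf N (NT θ q.1) t‖ ^ (2 * (N * k)) ∂μ : ℝ) : ℂ) else 0) + 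
      (if n / 2 = 0 then 0 else (if Even n then c n else 0) * TB N θ (n / 2) (N * k) q) := by
    intro n _
    rw [integral_const_mul]
    have e3 : ∫ t, chi t ^ (n / 2) * 
        Bf N (NT θ q.1) t ^ (N * k) * conj (Bf N (NT θ q.1) t) ^ (N * k) ∂μ = TB N θ (n / 2) (N * k) q := rfl
    rw [e3]
    by_cases h0 : n = 0
    · subst h0
      rw [if_pos rfl, Int.zero_ediv, if_pos rfl, e0, if_pos (by decide)]
      ring
    · rw [if_neg h0]
      by_cases h1 : n / 2 = 0
      · have : n = 1 := by omega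
        subst this
        rw [if_pos h1, if_neg (by decide)]; ring
      · rw [if_neg h1]; ring
  rw [Finset.sum_congr rfl e2, Finset.sum_add_distrib, Finset.sum_ite_eq']
  have hnn : 0 ≤ ∫ t, ‖Bf N (NT θ q.1) t‖ ^ (2 * (N * k)) ∂μ := integral_nonneg fun t => by positivity
  have e4 : ‖(if (0:ℤ) ∈ c.support then c 0 * ((∫ t, ‖Bf N (NT θ q.1) t‖ ^ (2 * (N * k)) ∂μ : ℝ) : ℂ) else 0)‖ ≤ 
      ‖c 0‖ * ∫ t, ‖Bf N (NT θ q.1) t‖ ^ (2 * (N * k)) ∂μ := by
    split_ifs with h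
    · rw [norm_mul, Complex.norm_real, Real.norm_of_nonneg hnn]
    · rw [norm_zero]; positivity
  have h5 : ‖∑ n ∈ c.support, (if n / 2 = 0 then 0 else (if Even n then c n else 0) * TB N θ (n / 2) (N * k) q)‖ ≤ 
      sm3 N k θ c q := by
    refine (norm_sum_le _ _).trans ?_
    unfold sm3
    refine Finset.sum_le_sum fun n _ => ?_
    split_ifs
    · simp
    · rw [norm_mul]
    · simp; positivity
  exact (norm_add_le _ _).trans (add_le_add e4 h5)

end Pool.Agent.LibZD46
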