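import Mathlib
import Pool.Agent.LibZD46.D6

set_option autoImplicit false

namespace Pool.Agent.LibZD46

open MeasureTheory Set Filter Topology Complex ProbabilityTheory
open scoped NNReal ComplexConjugate
open Pool.Agent.LibZM

/-- Normalisation. -/
noncomputable def SS (k : ℕ) (q : ℝ × ℝ) : ℝ := (Real.log q.1) ^ ((k:ℝ) ^ 2 / 4)

lemma sm_tendsto {N : ℕ} (hN : 1 ≤ N) {k : ℕ} (hk : 2 ≤ k) {θ : ℝ} (hθ0 : 0 < θ) (hab : θ * (2 * N * k) ≤ 1/8) {η : ℝ} (hη : 0 < η) 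
    (c : ℤ →₀ ℂ) : Tendsto (fun q => (sm1 N k θ c q + sm2 N k θ c q) / SS k q) (Fl η) (𝓝 0) := by
  have h1 : Tendsto (fun q => sm1 N k θ c q / SS k q) (Fl η) (𝓝 0) := by
    have h := tendsto_finsetSum (f := fun n (q : ℝ × ℝ) => ‖c n‖ * (‖TW N θ ((n - 1) / 2) (N * (k - 1)) (N * (k - 1)) q‖ / SS k q)) 
      (a := fun _ => (0:ℝ)) (x := Fl η) c.support (fun n _ => by
        have := (odd_small hN hk hθ0 hab hη ((n - 1) / 2)).const_mul ‖c n‖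
        rwa [mul_zero] at this)
    rw [Finset.sum_const_zero] at h
    refine h.congr fun q => ?_
    unfold sm1
    rw [Finset.sum_div]
    exact Finset.sum_congr rfl fun n _ => by ring
  have h2 : Tendsto (fun q => sm2 N k θ c q / SS k q) (Fl η) (𝓝 0) := by
    have h := tendsto_finsetSum (f := fun n (q : ℝ × ℝ) => (if n / 2 = 0 then 0 else ‖c n‖ * ‖TW N θ (n / 2) (N * (k - 2)) (N * k) q‖) / SS k q) 
      (a := fun _ => (0:ℝ)) (x := Fl η) c.support (fun n _ => by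
        by_cases h0 : n / 2 = 0
        · simp only [h0, if_true, zero_div]; exact tendsto_const_nhds
        · simp only [h0, if_false]
          have := (even_small hN hk hθ0 hab hη h0).const_mul ‖c n‖
          rw [mul_zero] at this
          refine this.congr fun q => ?_
          unfold SS; ring)
    rw [Finset.sum_const_zero] at h
    refine h.congr fun q => ?_
    unfold sm2
    rw [Finset.sum_div]
  have h3 := h1.add h2
  rw [add_zero] at h3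
  refine h3.congr fun q => ?_
  rw [add_div]

lemma sm3_tendsto {N : ℕ} (hN : 1 ≤ N) {k : ℕ} {θ : ℝ} (hθ0 : 0 < θ) (hab : θ * (2 * N * k) ≤ 1/8) {η : ℝ} (hη : 0 < η) 
    (c : ℤ →₀ ℂ) : Tendsto (fun q => sm3 N k θ c q) (Fl η) (𝓝 0) := by
  have h := tendsto_finsetSum (f := fun n (q : ℝ × ℝ) => (if n / 2 = 0 then 0 else ‖c n‖ * ‖TB N θ (n / 2) (N * k) q‖)) 
    (a := fun _ => (0:ℝ)) (x := Fl η) c.support (fun n _ => by
      by_cases h0 : n / 2 = 0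
      · simp only [h0, if_true]; exact tendsto_const_nhds
      · simp only [h0, if_false]
        have := (TB_small (N := N) (m := N * k) hN hθ0 (by push_cast; nlinarith) hη h0).const_mul ‖c n‖
        rwa [mul_zero] at this)
  rw [Finset.sum_const_zero] at h
  exact h

/-- The constants used in the argument; they do not depend on the direction. -/
theorem consts {N : ℕ} (hN : 1 ≤ N) {k : ℕ} (hk : 2 ≤ k) {θ : ℝ} (hθ0 : 0 < θ) (hab : θ * (2 * N * k) ≤ 1/100) {η : ℝ} (hη : 0 < η) :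
    ∃ c1 C1 C2 : ℝ, 0 < c1 ∧ 0 < C1 ∧ 0 < C2 ∧ ∀ᶠ q : ℝ × ℝ in Fl η, 
      c1 * SS k q ≤ ‖TF N θ (N * (k - 2)) (N * k) q‖ ∧ 
      Integrable (fun t => ‖riemannZeta (crit t)‖ ^ 2 * ‖Bf N (NT θ q.1) t‖ ^ (2 * (N * (k - 2)))) (gaussianReal q.2 (vT (4/5) q.1)) ∧ 
      (∫ t, ‖riemannZeta (crit t)‖ ^ 2 * ‖Bf N (NT θ q.1) t‖ ^ (2 * (N * (k - 2))) ∂(gaussianReal q.2 (vT (4/5) q.1)) ≤ C1 * SS k q) ∧ 
      (∫ t, ‖Bf N (NT θ q.1) t‖ ^ (2 * (N * k)) ∂(gaussianReal q.2 (vT (4/5) q.1)) ≤ C2 * SS k q) := by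
  have hN' : (0:ℝ) < N := by exact_mod_cast hN
  have hk' : ((k - 2 : ℕ) : ℝ) = (k:ℝ) - 2 := by rw [Nat.cast_sub hk]; norm_num
  have hk2 : (2:ℝ) ≤ k := by exact_mod_cast hk
  have e1 : ((N * k : ℕ) : ℝ) / (2 * N) = (k:ℝ) / 2 := by push_cast; field_simp
  have e2 : ((k:ℝ) / 2) ^ 2 = (k:ℝ) ^ 2 / 4 := by ring
  obtain ⟨c1, hc1, h1⟩ := TF_lower (N := N) (θ := θ) (a := N * (k - 2)) (b := N * k) hN hθ0 
    (by obtain ⟨k, rfl⟩ := Nat.exists_eq_add_of_le hk; rw [Nat.add_sub_cancel_left]; ring) 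
    (by push_cast; rw [hk']; nlinarith) hη
  obtain ⟨C2, hC2, h2⟩ := B_upper (N := N) (θ := θ) (m := N * k) hN hθ0.le (by push_cast; nlinarith) hη
  obtain ⟨C1, hC1, h3⟩ := zeta_sq_upper (α := ((N * (k - 2) : ℕ) : ℝ) * (1 / (2 * (N:ℝ)))) (by positivity) (y := 1/100) (by norm_num) le_rfl hη
  refine ⟨c1, C1, C2, hc1, hC1, hC2, ?_⟩
  rw [e1, e2] at h1 h2
  filter_upwards [h1, h2, h3, Fl_one hη] with q a1 a2 a3 a4
  have hT : 1 ≤ q.1 := a4.1.le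
  obtain ⟨b1, b2⟩ := a3 (bt N (NT θ q.1) ^ (N * (k - 2))) (pow_nonneg_af (bt_nonneg N _) _) (bt_pow_le N _ _) (NT θ q.1 ^ (N * (k - 2))) 
    (by
      push_cast
      refine NT_pow_le hθ0.le _ hT ?_
      push_cast; rw [hk']; nlinarith) ((bt_supp N _).pow _)
  have e3 : ∀ t, ‖dp (bt N (NT θ q.1) ^ (N * (k - 2))) (NT θ q.1 ^ (N * (k - 2))) (crit t)‖ ^ 2 = 
      ‖Bf N (NT θ q.1) t‖ ^ (2 * (N * (k - 2))) := by
    intro t
    rw [← Bf_pow, norm_pow, ← pow_mul, mul_comm]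
  simp only [e3] at b1 b2
  refine ⟨a1, b1, ?_, a2⟩
  have e4 : (1 + ((N * (k - 2) : ℕ) : ℝ) * (1 / (2 * (N:ℝ)))) ^ 2 = (k:ℝ) ^ 2 / 4 := by
    push_cast
    rw [hk']
    field_simp
    ring
  rw [e4] at b2
  exact b2

lemma SS_pos {k : ℕ} {q : ℝ × ℝ} (h : 1 < q.1) : 0 < SS k q := Real.rpow_pos_of_pos (Real.log_pos h) _

/-- Pointwise arithmetic-geometric mean. -/
lemma amgm (N k : ℕ) (hk : 2 ≤ k) (x y : ℝ) : x * y ^ (2 * (N * (k - 1))) ≤ 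
    (x ^ 2 * y ^ (2 * (N * (k - 2))) + y ^ (2 * (N * k))) / 2 := by
  obtain ⟨k, rfl⟩ := Nat.exists_eq_add_of_le hk
  have e1 : 2 + k - 1 = k + 1 := by omega
  have e2 : 2 + k - 2 = k := by omega
  rw [e1, e2]
  have e3 : y ^ (2 * (N * (k + 1))) = y ^ (N * k) * y ^ (N * (2 + k)) := by rw [← pow_add]; congr 1; ring
  have e4 : y ^ (2 * (N * k)) = (y ^ (N * k)) ^ 2 := by rw [← pow_mul]; congr 1; ring
  have e5 : y ^ (2 * (N * (2 + k))) = (y ^ (N * (2 + k))) ^ 2 := by rw [← pow_mul]; congr 1; ring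
  rw [e3, e4, e5]
  nlinarith [sq_nonneg (x * y ^ (N * k) - y ^ (N * (2 + k)))]

/-- Main local estimate: all directions. -/
theorem local_dir {N : ℕ} (hN : 1 ≤ N) {k : ℕ} (hk : 2 ≤ k) {θ : ℝ} (hθ0 : 0 < θ) (hab : θ * (2 * N * k) ≤ 1/100) {η : ℝ} (hη : 0 < η)
    {c1 C1 C2 : ℝ} (hc1 : 0 < c1) (hC1 : 0 < C1) (hC2 : 0 < C2) 
    (hcon : ∀ᶠ q : ℝ × ℝ in Fl η, 
      c1 * SS k q ≤ ‖TF N θ (N * (k - 2)) (N * k) q‖ ∧ 
      Integrable (fun t => ‖riemannZeta (crit t)‖ ^ 2 * ‖Bf N (NT θ q.1) t‖ ^ (2 * (N * (k - 2)))) (gaussianReal q.2 (vT (4/5) q.1)) ∧ 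
      (∫ t, ‖riemannZeta (crit t)‖ ^ 2 * ‖Bf N (NT θ q.1) t‖ ^ (2 * (N * (k - 2))) ∂(gaussianReal q.2 (vT (4/5) q.1)) ≤ C1 * SS k q) ∧ 
      (∫ t, ‖Bf N (NT θ q.1) t‖ ^ (2 * (N * k)) ∂(gaussianReal q.2 (vT (4/5) q.1)) ≤ C2 * SS k q))
    (h : C(AddCircle (2 * Real.pi), ℝ)) (h0 : ∀ x, 0 ≤ h x) {c0 : ℝ} (hc0 : 0 < c0) 
    (hmean : (∫ x in (0:ℝ)..(2 * Real.pi), h (x : AddCircle (2 * Real.pi))) / (2 * Real.pi) = c0) : 
    ∀ᶠ q : ℝ × ℝ in Fl η, 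
      (c1 * c0 / 2) * SS k q ≤ 
        ∫ t, ‖riemannZeta (crit t)‖ * ‖Bf N (NT θ q.1) t‖ ^ (2 * (N * (k - 1))) * h (ang t) ∂(gaussianReal q.2 (vT (4/5) q.1)) ∧ 
      ∫ t, ‖Bf N (NT θ q.1) t‖ ^ (2 * (N * k)) * h (ang t) ∂(gaussianReal q.2 (vT (4/5) q.1)) ≤ 3 * c0 * C2 * SS k q := by
  have hab8 : θ * (2 * N * k) ≤ 1/8 := hab.trans (by norm_num)
  set C3 := (C1 + C2) / 2 with hC3
  have hC3p : 0 < C3 := by positivity
  set ε := min (c0 / 8) (c1 * c0 / (24 * C3)) with hε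
  have hεp : 0 < ε := by positivity
  obtain ⟨c, hc⟩ := trig_approx h hεp
  have hm := mean_approx h hc
  rw [hmean] at hm
  have hε1 : ε ≤ c0 / 8 := min_le_left _ _
  have hε2 : 3 * ε * C3 ≤ c1 * c0 / 8 := by
    have : ε ≤ c1 * c0 / (24 * C3) := min_le_right _ _
    rw [le_div_iff₀ (by positivity)] at this
    linarith
  have hcl : c0 - ε ≤ ‖c 0‖ := by
    have h1 := norm_sub_norm_le ((c0 : ℝ) : ℂ) (c 0)
    rw [Complex.norm_real, Real.norm_of_nonneg hc0.le] at h1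
    linarith
  have hcu : ‖c 0‖ ≤ c0 + ε := by
    have h1 := norm_sub_norm_le (c 0) ((c0 : ℝ) : ℂ)
    rw [Complex.norm_real, Real.norm_of_nonneg hc0.le, norm_sub_rev] at h1
    linarith
  have hs := (sm_tendsto hN hk hθ0 hab8 hη c).eventually_le_const (show (0:ℝ) < c1 * c0 / 8 by positivity)
  have hs3 := (sm3_tendsto (k := k) hN hθ0 hab8 hη c).eventually_le_const (show (0:ℝ) < c0 * C2 / 4 by positivity)
  obtain ⟨G, hG⟩ := h_bdd h
  filter_upwards [hcon, hs, hs3, Fl_one hη, (log_Fl η).eventually_ge_atTop 1] with q ⟨a1, a2, a3, a4⟩ b1 b3 b4 b5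
  have hS1 : 1 ≤ SS k q := Real.one_le_rpow b5 (by positivity)
  have hS : 0 < SS k q := by linarith
  rw [div_le_iff₀ hS] at b1
  set μ := gaussianReal q.2 (vT (4/5) q.1) with hμ
  set X := NT θ q.1 with hX
  have hGa : ∀ t, |h (ang t)| ≤ G := fun t => hG _
  have hmh := measurable_h_ang h
  have hGs : ∀ t, |hsym h (ang t)| ≤ G := by
    intro t
    unfold hsym
    have h1 := hG (ang t)
    have h2 := hG (ang t + ((Real.pi : ℝ) : AddCircle (2 * Real.pi)))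
    rw [abs_le] at h1 h2 ⊢
    constructor <;> linarith [h1.1, h1.2, h2.1, h2.2]
  have hms : Measurable (fun t => hsym h (ang t)) := by
    unfold hsym
    refine (hmh.add ?_).div_const 2
    exact (h.continuous.comp (continuous_add_const _)).measurable.comp measurable_ang
  have hs0 : ∀ t, 0 ≤ hsym h (ang t) := by
    intro t
    unfold hsym
    have := h0 (ang t)
    have := h0 (ang t + ((Real.pi : ℝ) : AddCircle (2 * Real.pi)))
    linarith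
  have iM : Integrable (fun t => ‖riemannZeta (crit t)‖ * ‖Bf N X t‖ ^ (2 * (N * (k - 1)))) μ := by
    have := int_M1 hN X q.2 (vT (4/5) q.1) (N * (k - 1)) (g := fun _ => (1:ℝ)) measurable_const (G := 1) (by simp)
    simpa using this
  have iMh := int_M1 hN X q.2 (vT (4/5) q.1) (N * (k - 1)) hmh hGa
  have iMs := int_M1 hN X q.2 (vT (4/5) q.1) (N * (k - 1)) hms hGs
  have iB : Integrable (fun t => ‖Bf N X t‖ ^ (2 * (N * k))) μ := by
    have := int_B hN X q.2 (vT (4/5) q.1) (2 * (N * k)) (g := fun _ => (1:ℝ)) measurable_const (G := 1) (by simp)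
    simpa using this
  have iBh := int_B hN X q.2 (vT (4/5) q.1) (2 * (N * k)) hmh hGa
  have iBs := int_B hN X q.2 (vT (4/5) q.1) (2 * (N * k)) hms hGs
  have iBh2 := int_B hN X q.2 (vT (4/5) q.1) (2 * (N * k)) hmh hGa
  obtain ⟨iO, nO⟩ := integral_Oo hN k θ c q
  obtain ⟨iE, nE⟩ := integral_Ee hN k θ c q
  obtain ⟨iF, nF⟩ := integral_EeB hN k θ c q
  rw [← hX, ← hμ] at iO nO iE nE iF nF
  -- total mass
  have hI1 : ∫ t, ‖riemannZeta (crit t)‖ * ‖Bf N X t‖ ^ (2 * (N * (k - 1))) ∂μ ≤ C3 * SS k q := by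
    calc ∫ t, ‖riemannZeta (crit t)‖ * ‖Bf N X t‖ ^ (2 * (N * (k - 1))) ∂μ 
        ≤ ∫ t, (‖riemannZeta (crit t)‖ ^ 2 * ‖Bf N X t‖ ^ (2 * (N * (k - 2))) + ‖Bf N X t‖ ^ (2 * (N * k))) / 2 ∂μ := by
          refine integral_mono iM ((a2.add iB).div_const 2) fun t => ?_
          exact amgm N k hk _ _
      _ = ((∫ t, ‖riemannZeta (crit t)‖ ^ 2 * ‖Bf N X t‖ ^ (2 * (N * (k - 2))) ∂μ) + ∫ t, ‖Bf N X t‖ ^ (2 * (N * k)) ∂μ) / 2 := by
          rw [integral_div, integral_add a2 iB]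
      _ ≤ _ := by rw [hC3]; linarith
  set I1 := ∫ t, ‖riemannZeta (crit t)‖ * ‖Bf N X t‖ ^ (2 * (N * (k - 1))) ∂μ with hI1d
  -- the complex function with Ee
  have mE : Measurable (fun t => Ee c t) := by
    unfold Ee Finsupp.sum
    refine Finset.measurable_sum _ fun n _ => ?_
    beta_reduce
    split_ifs
    · exact ((continuous_chi_zpow (n / 2)).const_mul (c n)).measurable
    · exact measurable_const
  have bE : ∀ t, ‖Ee c t‖ ≤ G + ε := by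
    intro t
    have h1 := point2 h hc t
    have h2 := norm_sub_norm_le (Ee c t) ((hsym h (ang t) : ℝ) : ℂ)
    rw [norm_sub_rev, Complex.norm_real, Real.norm_eq_abs] at h2
    linarith [hGs t]
  have iME : Integrable (fun t => ((‖riemannZeta (crit t)‖ * ‖Bf N X t‖ ^ (2 * (N * (k - 1))) : ℝ) : ℂ) * Ee c t) μ := by
    refine (Integrable.bdd_mul (c := G + ε) iM.ofReal mE.aestronglyMeasurable (Eventually.of_forall bE)).congr ?_
    exact Eventually.of_forall fun t => mul_comm _ _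
  -- step 1
  have st1 : ‖(∫ t, ((‖riemannZeta (crit t)‖ * ‖Bf N X t‖ ^ (2 * (N * (k - 1))) * h (ang t) : ℝ) : ℂ) ∂μ) - 
      ((∫ t, ((‖riemannZeta (crit t)‖ * ‖Bf N X t‖ ^ (2 * (N * (k - 1))) : ℝ) : ℂ) * Ee c t ∂μ) + 
       ∫ t, Oo c t * ((‖Bf N X t‖ ^ (2 * (N * (k - 1))) : ℝ) : ℂ) ∂μ)‖ ≤ ε * I1 := by
    have iS : Integrable (fun t => ((‖riemannZeta (crit t)‖ * ‖Bf N X t‖ ^ (2 * (N * (k - 1))) : ℝ) : ℂ) * Ee c t + 
        Oo c t * ((‖Bf N X t‖ ^ (2 * (N * (k - 1))) : ℝ) : ℂ)) μ := iME.add iO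
    have iMhc : Integrable (fun t => ((‖riemannZeta (crit t)‖ * ‖Bf N X t‖ ^ (2 * (N * (k - 1))) * h (ang t) : ℝ) : ℂ)) μ := iMh.ofReal
    rw [← integral_add iME iO, ← integral_sub iMhc iS, hI1d, ← integral_const_mul]
    refine norm_integral_le_of_norm_le (iM.const_mul ε) (Eventually.of_forall fun t => ?_)
    have h1 := point1 h hc t
    have e1 : ((‖riemannZeta (crit t)‖ * ‖Bf N X t‖ ^ (2 * (N * (k - 1))) * h (ang t) : ℝ) : ℂ) - 
        (((‖riemannZeta (crit t)‖ * ‖Bf N X t‖ ^ (2 * (N * (k - 1))) : ℝ) : ℂ) * Ee c t + 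
        Oo c t * ((‖Bf N X t‖ ^ (2 * (N * (k - 1))) : ℝ) : ℂ)) = 
        ((‖riemannZeta (crit t)‖ : ℂ) * ((h (ang t) : ℝ) : ℂ) - ((‖riemannZeta (crit t)‖ : ℂ) * Ee c t + Oo c t)) * 
          ((‖Bf N X t‖ ^ (2 * (N * (k - 1))) : ℝ) : ℂ) := by push_cast; ring
    rw [e1, norm_mul, Complex.norm_real, Real.norm_of_nonneg (by positivity)]
    calc _ ≤ (ε * ‖riemannZeta (crit t)‖) * ‖Bf N X t‖ ^ (2 * (N * (k - 1))) := mul_le_mul_of_nonneg_right h1 (by positivity)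
      _ = _ := by ring
  -- step 2
  have st2 : ‖(∫ t, ((‖riemannZeta (crit t)‖ * ‖Bf N X t‖ ^ (2 * (N * (k - 1))) * hsym h (ang t) : ℝ) : ℂ) ∂μ) - 
      (∫ t, ((‖riemannZeta (crit t)‖ * ‖Bf N X t‖ ^ (2 * (N * (k - 1))) : ℝ) : ℂ) * Ee c t ∂μ)‖ ≤ ε * I1 := by
    have iMsc : Integrable (fun t => ((‖riemannZeta (crit t)‖ * ‖Bf N X t‖ ^ (2 * (N * (k - 1))) * hsym h (ang t) : ℝ) : ℂ)) μ := iMs.ofReal
    rw [← integral_sub iMsc iME, hI1d, ← integral_const_mul]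
    refine norm_integral_le_of_norm_le (iM.const_mul ε) (Eventually.of_forall fun t => ?_)
    have h1 := point2 h hc t
    have e1 : ((‖riemannZeta (crit t)‖ * ‖Bf N X t‖ ^ (2 * (N * (k - 1))) * hsym h (ang t) : ℝ) : ℂ) - 
        ((‖riemannZeta (crit t)‖ * ‖Bf N X t‖ ^ (2 * (N * (k - 1))) : ℝ) : ℂ) * Ee c t = 
        (((hsym h (ang t) : ℝ) : ℂ) - Ee c t) * ((‖riemannZeta (crit t)‖ * ‖Bf N X t‖ ^ (2 * (N * (k - 1))) : ℝ) : ℂ) := by push_cast; ring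
    rw [e1, norm_mul, Complex.norm_real, Real.norm_of_nonneg (by positivity)]
    exact mul_le_mul_of_nonneg_right h1 (by positivity)
  -- step 3
  have iZs : Integrable (fun t => riemannZeta (crit t) * Bf N X t ^ (N * (k - 2)) * conj (Bf N X t) ^ (N * k) * ((hsym h (ang t) : ℝ) : ℂ)) μ := by
    refine (Integrable.bdd_mul (c := G) (int_twist hN X q.2 (vT (4/5) q.1) 0 (N * (k - 2)) (N * k)) 
      (Complex.measurable_ofReal.comp hms).aestronglyMeasurable (Eventually.of_forall fun t => ?_)).congr ?_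
    · simp only [Function.comp]
      rw [Complex.norm_real, Real.norm_eq_abs]; exact hGs t
    · refine Eventually.of_forall fun t => ?_
      simp only [Function.comp, zpow_zero, mul_one]
      ring
  have nz : ∀ t, ‖riemannZeta (crit t) * Bf N X t ^ (N * (k - 2)) * conj (Bf N X t) ^ (N * k)‖ = 
      ‖riemannZeta (crit t)‖ * ‖Bf N X t‖ ^ (2 * (N * (k - 1))) := by
    intro t
    rw [norm_mul, norm_mul, norm_pow, norm_pow, Complex.norm_conj, mul_assoc, ← pow_add]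
    congr 2
    obtain ⟨k, rfl⟩ := Nat.exists_eq_add_of_le hk
    have e1 : 2 + k - 1 = k + 1 := by omega
    have e2 : 2 + k - 2 = k := by omega
    rw [e1, e2]; ring
  have st3 : ‖(∫ t, riemannZeta (crit t) * Bf N X t ^ (N * (k - 2)) * conj (Bf N X t) ^ (N * k) * ((hsym h (ang t) : ℝ) : ℂ) ∂μ) - 
      (∫ t, riemannZeta (crit t) * Bf N X t ^ (N * (k - 2)) * conj (Bf N X t) ^ (N * k) * Ee c t ∂μ)‖ ≤ ε * I1 := by
    rw [← integral_sub iZs iE, hI1d, ← integral_const_mul]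
    refine norm_integral_le_of_norm_le (iM.const_mul ε) (Eventually.of_forall fun t => ?_)
    rw [← mul_sub, norm_mul, nz, mul_comm]
    exact mul_le_mul_of_nonneg_right (point2 h hc t) (by positivity)
  have st4 : ‖∫ t, riemannZeta (crit t) * Bf N X t ^ (N * (k - 2)) * conj (Bf N X t) ^ (N * k) * ((hsym h (ang t) : ℝ) : ℂ) ∂μ‖ ≤ 
      ∫ t, ‖riemannZeta (crit t)‖ * ‖Bf N X t‖ ^ (2 * (N * (k - 1))) * hsym h (ang t) ∂μ := by
    refine (norm_integral_le_integral_norm _).trans (le_of_eq ?_)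
    congr 1; ext t
    rw [norm_mul, nz, Complex.norm_real, Real.norm_of_nonneg (hs0 t)]
  constructor
  · -- lower bound
    set J := ∫ t, ‖riemannZeta (crit t)‖ * ‖Bf N X t‖ ^ (2 * (N * (k - 1))) * h (ang t) ∂μ with hJ
    set Js := ∫ t, ‖riemannZeta (crit t)‖ * ‖Bf N X t‖ ^ (2 * (N * (k - 1))) * hsym h (ang t) ∂μ with hJs
    have r1 : (∫ t, ((‖riemannZeta (crit t)‖ * ‖Bf N X t‖ ^ (2 * (N * (k - 1))) * h (ang t) : ℝ) : ℂ) ∂μ) = ((J:ℝ) : ℂ) := integral_complex_ofReal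
    have r2 : (∫ t, ((‖riemannZeta (crit t)‖ * ‖Bf N X t‖ ^ (2 * (N * (k - 1))) * hsym h (ang t) : ℝ) : ℂ) ∂μ) = ((Js:ℝ) : ℂ) := integral_complex_ofReal
    rw [r1] at st1
    rw [r2] at st2
    set E1 := ∫ t, ((‖riemannZeta (crit t)‖ * ‖Bf N X t‖ ^ (2 * (N * (k - 1))) : ℝ) : ℂ) * Ee c t ∂μ with hE1
    set O1 := ∫ t, Oo c t * ((‖Bf N X t‖ ^ (2 * (N * (k - 1))) : ℝ) : ℂ) ∂μ with hO1
    have t1 : Js - J ≤ 2 * (ε * I1) + sm1 N k θ c q := by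
      have e1 : ((Js:ℝ) : ℂ) - ((J:ℝ):ℂ) = (((Js:ℝ) : ℂ) - E1) - (((J:ℝ):ℂ) - (E1 + O1)) - O1 := by ring
      have e2 : ‖((Js:ℝ) : ℂ) - ((J:ℝ):ℂ)‖ ≤ ε * I1 + ε * I1 + sm1 N k θ c q := by
        rw [e1]
        refine (norm_sub_le _ _).trans (add_le_add ((norm_sub_le _ _).trans (add_le_add st2 st1)) nO)
      have e3 : Js - J ≤ ‖((Js:ℝ) : ℂ) - ((J:ℝ):ℂ)‖ := by
        rw [← Complex.ofReal_sub, Complex.norm_real]
        exact le_abs_self _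
      linarith
    have t2 : ‖c 0‖ * ‖TF N θ (N * (k - 2)) (N * k) q‖ - sm2 N k θ c q - ε * I1 ≤ Js := by
      have h1 := norm_sub_norm_le (∫ t, riemannZeta (crit t) * Bf N X t ^ (N * (k - 2)) * conj (Bf N X t) ^ (N * k) * Ee c t ∂μ) 
        (∫ t, riemannZeta (crit t) * Bf N X t ^ (N * (k - 2)) * conj (Bf N X t) ^ (N * k) * ((hsym h (ang t) : ℝ) : ℂ) ∂μ)
      rw [norm_sub_rev] at h1
      linarith
    have t3 : (c0 - ε) * (c1 * SS k q) ≤ ‖c 0‖ * ‖TF N θ (N * (k - 2)) (N * k) q‖ := by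
      have : 0 ≤ c0 - ε := by linarith
      gcongr
    have t4 : ε * I1 ≤ ε * (C3 * SS k q) := by gcongr
    have t5 : 3 * (ε * (C3 * SS k q)) ≤ c1 * c0 / 8 * SS k q := by
      calc 3 * (ε * (C3 * SS k q)) = (3 * ε * C3) * SS k q := by ring
        _ ≤ _ := by gcongr
    have t6 : (7 / 8 * c0) * (c1 * SS k q) ≤ (c0 - ε) * (c1 * SS k q) := by
      have : 7 / 8 * c0 ≤ c0 - ε := by linarith
      gcongr
    have t7 : 0 ≤ c1 * c0 * SS k q := by positivity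
    nlinarith
  · -- upper bound
    have iBE := iF
    have u1 : ∫ t, ‖Bf N X t‖ ^ (2 * (N * k)) * h (ang t) ∂μ ≤ 2 * ∫ t, ‖Bf N X t‖ ^ (2 * (N * k)) * hsym h (ang t) ∂μ := by
      rw [← integral_const_mul]
      refine integral_mono iBh (iBs.const_mul 2) fun t => ?_
      have h1 := h0 (ang t + ((Real.pi : ℝ) : AddCircle (2 * Real.pi)))
      have h2 : h (ang t) ≤ 2 * hsym h (ang t) := by unfold hsym; linarith
      calc ‖Bf N X t‖ ^ (2 * (N * k)) * h (ang t) ≤ ‖Bf N X t‖ ^ (2 * (N * k)) * (2 * hsym h (ang t)) := by gcongr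
        _ = _ := by ring
    set Q := ∫ t, ‖Bf N X t‖ ^ (2 * (N * k)) * hsym h (ang t) ∂μ with hQ
    set PB := ∫ t, ‖Bf N X t‖ ^ (2 * (N * k)) ∂μ with hPB
    have hPB0 : 0 ≤ PB := integral_nonneg fun t => by positivity
    have u2 : ‖((Q:ℝ) : ℂ) - ∫ t, ((‖Bf N X t‖ ^ (2 * (N * k)) : ℝ) : ℂ) * Ee c t ∂μ‖ ≤ ε * PB := by
      have r2 : (∫ t, ((‖Bf N X t‖ ^ (2 * (N * k)) * hsym h (ang t) : ℝ) : ℂ) ∂μ) = ((Q:ℝ) : ℂ) := integral_complex_ofReal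
      have iBsc : Integrable (fun t => ((‖Bf N X t‖ ^ (2 * (N * k)) * hsym h (ang t) : ℝ) : ℂ)) μ := iBs.ofReal
      rw [← r2, ← integral_sub iBsc iF, hPB, ← integral_const_mul]
      refine norm_integral_le_of_norm_le (iB.const_mul ε) (Eventually.of_forall fun t => ?_)
      have e1 : ((‖Bf N X t‖ ^ (2 * (N * k)) * hsym h (ang t) : ℝ) : ℂ) - ((‖Bf N X t‖ ^ (2 * (N * k)) : ℝ) : ℂ) * Ee c t = 
          (((hsym h (ang t) : ℝ) : ℂ) - Ee c t) * ((‖Bf N X t‖ ^ (2 * (N * k)) : ℝ) : ℂ) := by push_cast; ring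
      rw [e1, norm_mul, Complex.norm_real, Real.norm_of_nonneg (by positivity)]
      exact mul_le_mul_of_nonneg_right (point2 h hc t) (by positivity)
    have u3 : Q ≤ ‖((Q:ℝ) : ℂ)‖ := by rw [Complex.norm_real]; exact le_abs_self _
    have u4 := norm_sub_norm_le ((Q:ℝ) : ℂ) (∫ t, ((‖Bf N X t‖ ^ (2 * (N * k)) : ℝ) : ℂ) * Ee c t ∂μ)
    have u5 : Q ≤ (c0 + ε) * (C2 * SS k q) + c0 * C2 / 4 + ε * (C2 * SS k q) := by
      have h1 : ‖c 0‖ * PB ≤ (c0 + ε) * (C2 * SS k q) := by gcongr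
      have h2 : ε * PB ≤ ε * (C2 * SS k q) := by gcongr
      linarith
    have u6 : ε * (C2 * SS k q) ≤ c0 / 8 * (C2 * SS k q) := by gcongr
    have u7 : c0 * C2 / 4 ≤ c0 * C2 / 4 * SS k q := le_mul_of_one_le_right (by positivity) hS1
    nlinarith

end Pool.Agent.LibZD46
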