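import Mathlib
import Pool.Agent.LibZD46.D7

set_option autoImplicit false

namespace Pool.Agent.LibZD46

open MeasureTheory Set Filter Topology Complex ProbabilityTheory
open scoped NNReal ComplexConjugate
open Pool.Agent.LibZM

lemma pw {N k : ℕ} (hN : 1 ≤ N) (hk : 2 ≤ k) {x y A U W Vp Vm s : ℝ} (hx : 0 ≤ x) (hy : 0 ≤ y) (hA : 0 < A) (hU : 0 < U) (hW : 0 < W) 
    (hVp : 0 < Vp) (hVm : 0 < Vm) (hs : 0 < s) (h1 : U < y ^ (2 * N) → Vp ≤ y ^ 4) (h2 : y ^ (2 * N) < W → y ^ 4 ≤ Vm) 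
    (hout : U * A < x ∨ x < W / A) : 
    x * y ^ (2 * (N * (k - 1))) ≤ A⁻¹ * (x ^ 2 * y ^ (2 * (N * (k - 2))) + y ^ (2 * (N * k))) + s * (x ^ 2 * y ^ (2 * (N * (k - 2)))) + 
      s⁻¹ * (Vp⁻¹ * y ^ (2 * (N * k + 2)) + Vm * y ^ (2 * (N * k - 2))) := by
  obtain ⟨k, rfl⟩ := Nat.exists_eq_add_of_le hk
  have e1 : 2 + k - 1 = k + 1 := by omega
  have e2 : 2 + k - 2 = k := by omega
  rw [e1, e2]
  set r := y ^ (2 * N) with hr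
  have hr0 : 0 ≤ r := by positivity
  have f1 : y ^ (2 * (N * (k + 1))) = r ^ (k + 1) := by rw [hr, ← pow_mul]; congr 1; ring
  have f2 : y ^ (2 * (N * k)) = r ^ k := by rw [hr, ← pow_mul]; congr 1; ring
  have f3 : y ^ (2 * (N * (2 + k))) = r ^ (k + 2) := by rw [hr, ← pow_mul]; congr 1; ring
  have hNk : 2 ≤ N * (2 + k) := by nlinarith
  have f4 : y ^ (2 * (N * (2 + k) + 2)) = r ^ (k + 2) * y ^ 4 := by rw [← f3, ← pow_add]; congr 1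
  have f5 : y ^ (2 * (N * (2 + k) - 2)) * y ^ 4 = r ^ (k + 2) := by rw [← f3, ← pow_add]; congr 1; omega
  rw [f1, f2, f3, f4]
  have g5 : 0 ≤ y ^ (2 * (N * (2 + k) - 2)) := by positivity
  have hAM : x * r ^ (k + 1) ≤ s * (x ^ 2 * r ^ k) + s⁻¹ * r ^ (k + 2) := by
    have h3 : 0 ≤ (s * x - r) ^ 2 * (s⁻¹ * r ^ k) := by positivity
    have h4 : (s * x - r) ^ 2 * (s⁻¹ * r ^ k) = s * (x ^ 2 * r ^ k) + s⁻¹ * r ^ (k + 2) - 2 * (x * r ^ (k + 1)) := by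
      field_simp; ring
    have h5 : 0 ≤ x * r ^ (k + 1) := by positivity
    linarith
  have n1 : 0 ≤ A⁻¹ * (x ^ 2 * r ^ k + r ^ (k + 2)) := by positivity
  have n2 : 0 ≤ s * (x ^ 2 * r ^ k) := by positivity
  have n3 : 0 ≤ s⁻¹ * (Vp⁻¹ * (r ^ (k + 2) * y ^ 4)) := by positivity
  have n4 : 0 ≤ s⁻¹ * (Vm * y ^ (2 * (N * (2 + k) - 2))) := by positivity
  have nsplit : s⁻¹ * (Vp⁻¹ * (r ^ (k + 2) * y ^ 4) + Vm * y ^ (2 * (N * (2 + k) - 2))) = 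
      s⁻¹ * (Vp⁻¹ * (r ^ (k + 2) * y ^ 4)) + s⁻¹ * (Vm * y ^ (2 * (N * (2 + k) - 2))) := by ring
  rw [nsplit]
  rcases hout with ho | ho
  · rcases le_or_gt r U with hc | hc
    · -- r <= U
      have h3 : r * A ≤ x := by
        have : r * A ≤ U * A := by gcongr
        linarith
      have h4 : x * r ^ (k + 1) ≤ A⁻¹ * (x ^ 2 * r ^ k) := by
        rw [← div_eq_inv_mul, le_div_iff₀ hA]
        calc x * r ^ (k + 1) * A = (x * r ^ k) * (r * A) := by ring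
          _ ≤ (x * r ^ k) * x := by gcongr
          _ = _ := by ring
      have h5 : 0 ≤ A⁻¹ * r ^ (k + 2) := by positivity
      have h6 : A⁻¹ * (x ^ 2 * r ^ k + r ^ (k + 2)) = A⁻¹ * (x ^ 2 * r ^ k) + A⁻¹ * r ^ (k + 2) := by ring
      linarith
    · have h3 : r ^ (k + 2) ≤ Vp⁻¹ * (r ^ (k + 2) * y ^ 4) := by
        rw [← div_eq_inv_mul, le_div_iff₀ hVp]
        exact mul_le_mul_of_nonneg_left (h1 hc) (by positivity)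
      have h4 : s⁻¹ * r ^ (k + 2) ≤ s⁻¹ * (Vp⁻¹ * (r ^ (k + 2) * y ^ 4)) := by gcongr
      linarith
  · rcases le_or_gt W r with hc | hc
    · have h3 : x * A ≤ r := by
        rw [lt_div_iff₀ hA] at ho
        linarith
      have h4 : x * r ^ (k + 1) ≤ A⁻¹ * r ^ (k + 2) := by
        rw [← div_eq_inv_mul, le_div_iff₀ hA]
        calc x * r ^ (k + 1) * A = (x * A) * r ^ (k + 1) := by ring
          _ ≤ r * r ^ (k + 1) := by gcongr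
          _ = _ := by ring
      have h5 : 0 ≤ A⁻¹ * (x ^ 2 * r ^ k) := by positivity
      have h6 : A⁻¹ * (x ^ 2 * r ^ k + r ^ (k + 2)) = A⁻¹ * (x ^ 2 * r ^ k) + A⁻¹ * r ^ (k + 2) := by ring
      linarith
    · have h3 : r ^ (k + 2) ≤ Vm * y ^ (2 * (N * (2 + k) - 2)) := by
        rw [← f5, mul_comm]
        exact mul_le_mul_of_nonneg_right (h2 hc) g5
      have h4 : s⁻¹ * r ^ (k + 2) ≤ s⁻¹ * (Vm * y ^ (2 * (N * (2 + k) - 2))) := by gcongr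
      linarith

lemma pow_four_eq {N : ℕ} (hN : 1 ≤ N) {y : ℝ} (hy : 0 ≤ y) : (y ^ (2 * N)) ^ (2 / (N:ℝ)) = y ^ 4 := by
  have hN' : (0:ℝ) < N := by exact_mod_cast hN
  rw [← Real.rpow_natCast, ← Real.rpow_mul hy]
  have : ((2 * N : ℕ) : ℝ) * (2 / (N:ℝ)) = ((4:ℕ):ℝ) := by push_cast; field_simp; norm_num
  rw [this, Real.rpow_natCast]

lemma lev_up {N : ℕ} (hN : 1 ≤ N) {L e y : ℝ} (hL : 0 < L) (hy : 0 ≤ y) (h : L ^ e < y ^ (2 * N)) : L ^ (e * (2 / (N:ℝ))) ≤ y ^ 4 := by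
  rw [← pow_four_eq hN hy, Real.rpow_mul hL.le]
  exact Real.rpow_le_rpow (by positivity) h.le (by positivity)

lemma lev_down {N : ℕ} (hN : 1 ≤ N) {L e y : ℝ} (hL : 0 < L) (hy : 0 ≤ y) (h : y ^ (2 * N) < L ^ e) : y ^ 4 ≤ L ^ (e * (2 / (N:ℝ))) := by
  rw [← pow_four_eq hN hy, Real.rpow_mul hL.le]
  exact Real.rpow_le_rpow (by positivity) h.le (by positivity)

/-- The part with atypical size is negligible. -/
theorem size_tail {N : ℕ} (hN : 1 ≤ N) {k : ℕ} (hk : 2 ≤ k) {θ : ℝ} (hθ0 : 0 < θ) 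
    (hab2 : θ * (N * k + 2) ≤ 1/8) {η : ℝ} (hη : 0 < η)
    {e : ℝ} (he : 1 / (N:ℝ) < e) {C1 C2 : ℝ} 
    (hcon : ∀ᶠ q : ℝ × ℝ in Fl η, 
      Integrable (fun t => ‖riemannZeta (crit t)‖ ^ 2 * ‖Bf N (NT θ q.1) t‖ ^ (2 * (N * (k - 2)))) (gaussianReal q.2 (vT (4/5) q.1)) ∧ 
      (∫ t, ‖riemannZeta (crit t)‖ ^ 2 * ‖Bf N (NT θ q.1) t‖ ^ (2 * (N * (k - 2))) ∂(gaussianReal q.2 (vT (4/5) q.1)) ≤ C1 * SS k q) ∧ 
      (∫ t, ‖Bf N (NT θ q.1) t‖ ^ (2 * (N * k)) ∂(gaussianReal q.2 (vT (4/5) q.1)) ≤ C2 * SS k q))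
    {δ : ℝ} (hδ : 0 < δ) : 
    ∀ᶠ q : ℝ × ℝ in Fl η, ∀ g : ℝ → ℝ, Measurable g → (∀ t, 0 ≤ g t) → (∀ t, g t ≤ 1) → 
      (∀ t, (Real.log q.1) ^ ((k:ℝ)/2 - e) ≤ ‖riemannZeta (crit t)‖ → ‖riemannZeta (crit t)‖ ≤ (Real.log q.1) ^ ((k:ℝ)/2 + e) → g t = 0) → 
      ∫ t, ‖riemannZeta (crit t)‖ * ‖Bf N (NT θ q.1) t‖ ^ (2 * (N * (k - 1))) * g t ∂(gaussianReal q.2 (vT (4/5) q.1)) ≤ δ * SS k q := by
  have hN' : (0:ℝ) < N := by exact_mod_cast hN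
  have hkR : (2:ℝ) ≤ k := by exact_mod_cast hk
  have he0 : 0 < e := lt_trans (by positivity) he
  have hNk : 2 ≤ N * k := by nlinarith
  obtain ⟨Cp, hCp, hp⟩ := B_upper (N := N) (θ := θ) (m := N * k + 2) hN hθ0.le (by push_cast; exact hab2) hη
  obtain ⟨Cm, hCm, hm⟩ := B_upper (N := N) (θ := θ) (m := N * k - 2) hN hθ0.le (by
    refine le_trans ?_ hab2
    apply mul_le_mul_of_nonneg_left _ hθ0.le
    rw [Nat.cast_sub hNk]; push_cast; linarith) hη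
  set σ := (e / N - 1 / (N:ℝ) ^ 2) / 2 with hσ
  have hσ0 : 0 < σ := by
    have : 1 / (N:ℝ) ^ 2 < e / N := by
      rw [div_lt_div_iff₀ (by positivity) hN']
      rw [div_lt_iff₀ hN'] at he
      nlinarith
    rw [hσ]; linarith
  have ep : (((N * k + 2 : ℕ) : ℝ) / (2 * N)) ^ 2 = (k:ℝ) ^ 2 / 4 + k / N + 1 / (N:ℝ) ^ 2 := by push_cast; field_simp; ring
  have em : (((N * k - 2 : ℕ) : ℝ) / (2 * N)) ^ 2 = (k:ℝ) ^ 2 / 4 - k / N + 1 / (N:ℝ) ^ 2 := by 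
    rw [Nat.cast_sub hNk]; push_cast; field_simp; ring
  rw [ep] at hp
  rw [em] at hm
  -- limits
  have t1 : Tendsto (fun q : ℝ × ℝ => (Real.log q.1) ^ (-(e/2)) * (C1 + C2) + (Real.log q.1) ^ (-σ) * (C1 + Cp + Cm)) (Fl η) (𝓝 0) := by
    have h1 := ((tendsto_rpow_neg_atTop (y := e/2) (by linarith)).comp (log_Fl η)).mul_const (C1 + C2)
    have h2 := ((tendsto_rpow_neg_atTop (y := σ) hσ0).comp (log_Fl η)).mul_const (C1 + Cp + Cm)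
    have h3 := h1.add h2
    rw [zero_mul, zero_mul, add_zero] at h3
    exact h3
  filter_upwards [hcon, hp, hm, t1.eventually_le_const hδ, Fl_one hη, (log_Fl η).eventually_gt_atTop 1] with q ⟨a1, a2, a3⟩ b1 b2 b3 b4 b5
  intro g hgm hg0 hg1 hg
  set L := Real.log q.1 with hL
  have hL0 : 0 < L := by linarith
  set μ := gaussianReal q.2 (vT (4/5) q.1) with hμ
  set X := NT θ q.1 with hX
  have hS : 0 < SS k q := SS_pos b4.1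
  have hSe : SS k q = L ^ ((k:ℝ) ^ 2 / 4) := rfl
  have iB : ∀ m : ℕ, Integrable (fun t => ‖Bf N X t‖ ^ m) μ := fun m => by
    have := int_B hN X q.2 (vT (4/5) q.1) m (g := fun _ => (1:ℝ)) measurable_const (G := 1) (by simp)
    simpa using this
  have iM := int_M1 hN X q.2 (vT (4/5) q.1) (N * (k - 1)) hgm (G := 1) (fun t => by rw [abs_of_nonneg (hg0 t)]; exact hg1 t)
  have key : ∀ t, ‖riemannZeta (crit t)‖ * ‖Bf N X t‖ ^ (2 * (N * (k - 1))) * g t ≤ 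
      (L ^ (e/2))⁻¹ * (‖riemannZeta (crit t)‖ ^ 2 * ‖Bf N X t‖ ^ (2 * (N * (k - 2))) + ‖Bf N X t‖ ^ (2 * (N * k))) + 
      L ^ (-σ) * (‖riemannZeta (crit t)‖ ^ 2 * ‖Bf N X t‖ ^ (2 * (N * (k - 2)))) + 
      (L ^ (-σ))⁻¹ * ((L ^ (((k:ℝ)/2 + e/2) * (2 / (N:ℝ))))⁻¹ * ‖Bf N X t‖ ^ (2 * (N * k + 2)) + 
        L ^ (((k:ℝ)/2 - e/2) * (2 / (N:ℝ))) * ‖Bf N X t‖ ^ (2 * (N * k - 2))) := by
    intro t
    by_cases hin : L ^ ((k:ℝ)/2 - e) ≤ ‖riemannZeta (crit t)‖ ∧ ‖riemannZeta (crit t)‖ ≤ L ^ ((k:ℝ)/2 + e)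
    · rw [hg t hin.1 hin.2, mul_zero]
      positivity
    · have hout : L ^ ((k:ℝ)/2 + e/2) * L ^ (e/2) < ‖riemannZeta (crit t)‖ ∨ ‖riemannZeta (crit t)‖ < L ^ ((k:ℝ)/2 - e/2) / L ^ (e/2) := by
        rw [← Real.rpow_add hL0, ← Real.rpow_sub hL0]
        have e1 : (k:ℝ)/2 + e/2 + e/2 = (k:ℝ)/2 + e := by ring
        have e2 : (k:ℝ)/2 - e/2 - e/2 = (k:ℝ)/2 - e := by ring
        rw [e1, e2]
        by_contra hcon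
        push Not at hcon
        exact hin ⟨hcon.2, hcon.1⟩
      have h1 := pw hN hk (norm_nonneg (riemannZeta (crit t))) (norm_nonneg (Bf N X t)) (A := L ^ (e/2)) (U := L ^ ((k:ℝ)/2 + e/2)) 
        (W := L ^ ((k:ℝ)/2 - e/2)) (Vp := L ^ (((k:ℝ)/2 + e/2) * (2 / (N:ℝ)))) (Vm := L ^ (((k:ℝ)/2 - e/2) * (2 / (N:ℝ)))) (s := L ^ (-σ))
        (by positivity) (by positivity) (by positivity) (by positivity) (by positivity) (by positivity) 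
        (lev_up hN hL0 (norm_nonneg _)) (lev_down hN hL0 (norm_nonneg _)) hout
      refine le_trans ?_ h1
      exact mul_le_of_le_one_right (by positivity) (hg1 t)
  have iR1 : Integrable (fun t => (L ^ (e/2))⁻¹ * (‖riemannZeta (crit t)‖ ^ 2 * ‖Bf N X t‖ ^ (2 * (N * (k - 2))) + ‖Bf N X t‖ ^ (2 * (N * k)))) μ := 
    (a1.add (iB _)).const_mul _
  have iR2 : Integrable (fun t => L ^ (-σ) * (‖riemannZeta (crit t)‖ ^ 2 * ‖Bf N X t‖ ^ (2 * (N * (k - 2))))) μ := a1.const_mul _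
  have iR3 : Integrable (fun t => (L ^ (-σ))⁻¹ * ((L ^ (((k:ℝ)/2 + e/2) * (2 / (N:ℝ))))⁻¹ * ‖Bf N X t‖ ^ (2 * (N * k + 2)) + 
        L ^ (((k:ℝ)/2 - e/2) * (2 / (N:ℝ))) * ‖Bf N X t‖ ^ (2 * (N * k - 2)))) μ := 
    (((iB _).const_mul _).add ((iB _).const_mul _)).const_mul _
  have main := integral_mono iM ((iR1.add iR2).add iR3) key
  have e0 : ∫ t, (((fun t => (L ^ (e/2))⁻¹ * (‖riemannZeta (crit t)‖ ^ 2 * ‖Bf N X t‖ ^ (2 * (N * (k - 2))) + ‖Bf N X t‖ ^ (2 * (N * k)))) + 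
      (fun t => L ^ (-σ) * (‖riemannZeta (crit t)‖ ^ 2 * ‖Bf N X t‖ ^ (2 * (N * (k - 2)))))) + 
      (fun t => (L ^ (-σ))⁻¹ * ((L ^ (((k:ℝ)/2 + e/2) * (2 / (N:ℝ))))⁻¹ * ‖Bf N X t‖ ^ (2 * (N * k + 2)) + 
        L ^ (((k:ℝ)/2 - e/2) * (2 / (N:ℝ))) * ‖Bf N X t‖ ^ (2 * (N * k - 2))))) t ∂μ = 
      (L ^ (e/2))⁻¹ * ((∫ t, ‖riemannZeta (crit t)‖ ^ 2 * ‖Bf N X t‖ ^ (2 * (N * (k - 2))) ∂μ) + ∫ t, ‖Bf N X t‖ ^ (2 * (N * k)) ∂μ) + 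
      L ^ (-σ) * (∫ t, ‖riemannZeta (crit t)‖ ^ 2 * ‖Bf N X t‖ ^ (2 * (N * (k - 2))) ∂μ) + 
      (L ^ (-σ))⁻¹ * ((L ^ (((k:ℝ)/2 + e/2) * (2 / (N:ℝ))))⁻¹ * (∫ t, ‖Bf N X t‖ ^ (2 * (N * k + 2)) ∂μ) + 
        L ^ (((k:ℝ)/2 - e/2) * (2 / (N:ℝ))) * (∫ t, ‖Bf N X t‖ ^ (2 * (N * k - 2)) ∂μ)) := by
    rw [integral_add' (iR1.add iR2) iR3, integral_add' iR1 iR2, integral_const_mul, integral_const_mul, integral_const_mul, 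
      integral_add a1 (iB _), integral_add ((iB _).const_mul _) ((iB _).const_mul _), integral_const_mul, integral_const_mul]
  refine main.trans ?_
  rw [e0]
  -- numerical estimates
  have p1 : (L ^ (e/2))⁻¹ = L ^ (-(e/2)) := (Real.rpow_neg hL0.le _).symm
  have p2 : (L ^ (-σ))⁻¹ * ((L ^ (((k:ℝ)/2 + e/2) * (2 / (N:ℝ))))⁻¹ * (Cp * L ^ ((k:ℝ) ^ 2 / 4 + k / N + 1 / (N:ℝ) ^ 2))) = 
      Cp * (L ^ (-σ) * SS k q) := by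
    rw [← Real.rpow_neg hL0.le, ← Real.rpow_neg hL0.le, hSe]
    have : L ^ (-(-σ)) * (L ^ (-(((k:ℝ)/2 + e/2) * (2 / (N:ℝ)))) * (Cp * L ^ ((k:ℝ) ^ 2 / 4 + k / N + 1 / (N:ℝ) ^ 2))) = 
        Cp * (L ^ (-(-σ)) * (L ^ (-(((k:ℝ)/2 + e/2) * (2 / (N:ℝ)))) * L ^ ((k:ℝ) ^ 2 / 4 + k / N + 1 / (N:ℝ) ^ 2))) := by ring
    rw [this, ← Real.rpow_add hL0, ← Real.rpow_add hL0, ← Real.rpow_add hL0]
    congr 2
    rw [hσ]; field_simp; ring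
  have p3 : (L ^ (-σ))⁻¹ * (L ^ (((k:ℝ)/2 - e/2) * (2 / (N:ℝ))) * (Cm * L ^ ((k:ℝ) ^ 2 / 4 - k / N + 1 / (N:ℝ) ^ 2))) = 
      Cm * (L ^ (-σ) * SS k q) := by
    rw [← Real.rpow_neg hL0.le, hSe]
    have : L ^ (-(-σ)) * (L ^ (((k:ℝ)/2 - e/2) * (2 / (N:ℝ))) * (Cm * L ^ ((k:ℝ) ^ 2 / 4 - k / N + 1 / (N:ℝ) ^ 2))) = 
        Cm * (L ^ (-(-σ)) * (L ^ (((k:ℝ)/2 - e/2) * (2 / (N:ℝ))) * L ^ ((k:ℝ) ^ 2 / 4 - k / N + 1 / (N:ℝ) ^ 2))) := by ring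
    rw [this, ← Real.rpow_add hL0, ← Real.rpow_add hL0, ← Real.rpow_add hL0]
    congr 2
    rw [hσ]; field_simp; ring
  have q1 : (L ^ (e/2))⁻¹ * ((∫ t, ‖riemannZeta (crit t)‖ ^ 2 * ‖Bf N X t‖ ^ (2 * (N * (k - 2))) ∂μ) + ∫ t, ‖Bf N X t‖ ^ (2 * (N * k)) ∂μ) ≤ 
      L ^ (-(e/2)) * ((C1 + C2) * SS k q) := by
    rw [p1]; gcongr; linarith
  have q2 : L ^ (-σ) * (∫ t, ‖riemannZeta (crit t)‖ ^ 2 * ‖Bf N X t‖ ^ (2 * (N * (k - 2))) ∂μ) ≤ L ^ (-σ) * (C1 * SS k q) := by gcongr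
  have q3 : (L ^ (-σ))⁻¹ * ((L ^ (((k:ℝ)/2 + e/2) * (2 / (N:ℝ))))⁻¹ * (∫ t, ‖Bf N X t‖ ^ (2 * (N * k + 2)) ∂μ)) ≤ Cp * (L ^ (-σ) * SS k q) := by
    rw [← p2]; gcongr
  have q4 : (L ^ (-σ))⁻¹ * (L ^ (((k:ℝ)/2 - e/2) * (2 / (N:ℝ))) * (∫ t, ‖Bf N X t‖ ^ (2 * (N * k - 2)) ∂μ)) ≤ Cm * (L ^ (-σ) * SS k q) := by
    rw [← p3]; gcongr
  have q5 : (L ^ (-(e/2)) * (C1 + C2) + L ^ (-σ) * (C1 + Cp + Cm)) * SS k q ≤ δ * SS k q := by gcongr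
  nlinarith

end Pool.Agent.LibZD46
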