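import Mathlib
import Pool.Agent.LibZD46.D8

set_option autoImplicit false

namespace Pool.Agent.LibZD46

open MeasureTheory Set Filter Topology Complex ProbabilityTheory
open scoped NNReal ComplexConjugate
open Pool.Agent.LibZM

lemma young {k : ℕ} (hk : 1 ≤ k) {x r s : ℝ} (hx : 0 ≤ x) (hr : 0 ≤ r) (hs : 0 < s) : 
    x * r ^ (k - 1) ≤ s ^ (k - 1) * x ^ k + s⁻¹ * r ^ k := by
  obtain ⟨k, rfl⟩ := Nat.exists_eq_add_of_le hk
  rw [Nat.add_sub_cancel_left, add_comm 1 k]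
  rcases le_or_gt r (s * x) with h | h
  · have h1 : x * r ^ k ≤ s ^ k * x ^ (k + 1) := by
      calc x * r ^ k ≤ x * (s * x) ^ k := by gcongr
        _ = _ := by rw [mul_pow]; ring
    have h2 : 0 ≤ s⁻¹ * r ^ (k + 1) := by positivity
    linarith
  · have h1 : x ≤ s⁻¹ * r := by
      rw [← div_eq_inv_mul, le_div_iff₀ hs]; linarith
    have h2 : x * r ^ k ≤ s⁻¹ * r ^ (k + 1) := by
      calc x * r ^ k ≤ (s⁻¹ * r) * r ^ k := by gcongr
        _ = _ := by ring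
    have h3 : 0 ≤ s ^ k * x ^ (k + 1) := by positivity
    linarith

/-- the final constant -/
noncomputable def cfin (k : ℕ) (c1 C2 : ℝ) : ℝ := ((24 * C2 / c1) ^ (k - 1))⁻¹ * (c1 / 4)

lemma RT_val (T : ℝ) : RT (4/5) T = T ^ (19/20:ℝ) := by unfold RT; norm_num

lemma tail_lim (M : ℝ) : Tendsto (fun T : ℝ => T ^ (1/8:ℝ) * (Real.exp (- T ^ (19/20:ℝ) / T ^ (9/10:ℝ)) * (16 + 8 * T + 36 * T ^ (9/10:ℝ))) + M * 0) atTop (𝓝 0) := by
  have h1 := (lim_exp (a := 1) (ε := 1/20) (by norm_num) (by norm_num) 2).const_mul 60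
  rw [mul_zero] at h1
  rw [mul_zero]
  simp only [add_zero]
  refine squeeze_zero' ?_ ?_ h1
  · filter_upwards [eventually_ge_atTop 1] with T hT
    positivity
  · filter_upwards [eventually_ge_atTop 1] with T hT
    have hT0 : 0 < T := by linarith
    have e1 : -T ^ (19/20:ℝ) / T ^ (9/10:ℝ) = -(1 * T ^ (1/20:ℝ)) := by
      rw [neg_div, ← Real.rpow_sub hT0, one_mul]; norm_num
    rw [e1]
    have e2 : T ^ (9/10:ℝ) ≤ T := by
      calc T ^ (9/10:ℝ) ≤ T ^ (1:ℝ) := Real.rpow_le_rpow_of_exponent_le hT (by norm_num)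
        _ = T := Real.rpow_one T
    have e3 : T ^ (1/8:ℝ) ≤ T := by
      calc T ^ (1/8:ℝ) ≤ T ^ (1:ℝ) := Real.rpow_le_rpow_of_exponent_le hT (by norm_num)
        _ = T := Real.rpow_one T
    have e4 : T ^ (2:ℝ) = T * T := by
      rw [show (2:ℝ) = ((2:ℕ):ℝ) by norm_num, Real.rpow_natCast]; ring
    have hE := Real.exp_pos (-(1 * T ^ (1/20:ℝ)))
    calc T ^ (1/8:ℝ) * (Real.exp (-(1 * T ^ (1/20:ℝ))) * (16 + 8 * T + 36 * T ^ (9/10:ℝ))) 
        ≤ T * (Real.exp (-(1 * T ^ (1/20:ℝ))) * (16 * T + 8 * T + 36 * T)) := by gcongr; linarith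
      _ = 60 * (T ^ (2:ℝ) * Real.exp (-(1 * T ^ (1/20:ℝ)))) := by rw [e4]; ring

theorem local_final {N : ℕ} (hN : 1 ≤ N) {k : ℕ} (hk : 2 ≤ k) {θ : ℝ} (hθ0 : 0 < θ) (hab : θ * (2 * N * k) ≤ 1/100) 
    (hab2 : θ * (N * k + 2) ≤ 1/8) {η : ℝ} (hη : 0 < η) {e : ℝ} (he : 1 / (N:ℝ) < e)
    {c1 C1 C2 : ℝ} (hc1 : 0 < c1) (hC1 : 0 < C1) (hC2 : 0 < C2) 
    (hcon : ∀ᶠ q : ℝ × ℝ in Fl η, 
      c1 * SS k q ≤ ‖TF N θ (N * (k - 2)) (N * k) q‖ ∧ 
      Integrable (fun t => ‖riemannZeta (crit t)‖ ^ 2 * ‖Bf N (NT θ q.1) t‖ ^ (2 * (N * (k - 2)))) (gaussianReal q.2 (vT (4/5) q.1)) ∧ 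
      (∫ t, ‖riemannZeta (crit t)‖ ^ 2 * ‖Bf N (NT θ q.1) t‖ ^ (2 * (N * (k - 2))) ∂(gaussianReal q.2 (vT (4/5) q.1)) ≤ C1 * SS k q) ∧ 
      (∫ t, ‖Bf N (NT θ q.1) t‖ ^ (2 * (N * k)) ∂(gaussianReal q.2 (vT (4/5) q.1)) ≤ C2 * SS k q))
    (h : C(AddCircle (2 * Real.pi), ℝ)) (h0 : ∀ x, 0 ≤ h x) (h1 : ∀ x, h x ≤ 1) {c0 : ℝ} (hc0 : 0 < c0) 
    (hmean : (∫ x in (0:ℝ)..(2 * Real.pi), h (x : AddCircle (2 * Real.pi))) / (2 * Real.pi) = c0) : 
    ∀ᶠ q : ℝ × ℝ in Fl η, q.2 ≤ (1 - η) * q.1 → ∀ g : ℝ → ℝ, Measurable g → (∀ x, 0 ≤ g x) → (∀ x, g x ≤ 1) → 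
      (∀ x, (Real.log q.1) ^ ((k:ℝ)/2 - e) ≤ x → x ≤ (Real.log q.1) ^ ((k:ℝ)/2 + e) → g x = 1) → 
      cfin k c1 C2 * c0 * SS k q ≤ 
        ∫ t in Icc 0 q.1, ‖riemannZeta (crit t)‖ ^ k * (h (ang t) * g ‖riemannZeta (crit t)‖) ∂(gaussianReal q.2 (vT (4/5) q.1)) := by
  have hT1 := local_dir hN hk hθ0 hab hη hc1 hC1 hC2 hcon h h0 hc0 hmean
  have hcon' := hcon.mono fun q hq => hq.2
  have hT2 := size_tail hN hk hθ0 hab2 hη he hcon' (show (0:ℝ) < c1 * c0 / 16 by positivity)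
  have hT3 := (Fl_fst η).eventually ((tail_lim 0).eventually_le_const (show (0:ℝ) < c1 * c0 / 16 by positivity))
  have hR := RT_le_u (ε := η) (θ := 4/5) hη (by norm_num) (δ := 1) one_pos
  have hR2 : ∀ᶠ q : ℝ × ℝ in Fl η, RT (4/5) q.1 ≤ η * q.1 := by
    have h2 : Tendsto (fun T : ℝ => T ^ (19/20:ℝ) / T) atTop (𝓝 0) := by
      have := tendsto_rpow_neg_atTop (y := 1/20) (by norm_num)
      refine this.congr' ?_
      filter_upwards [eventually_gt_atTop 0] with T hT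
      have e : T ^ (19/20:ℝ) / T = T ^ (19/20 - 1 : ℝ) := by rw [Real.rpow_sub hT, Real.rpow_one]
      rw [e]; norm_num
    filter_upwards [(Fl_fst η).eventually (h2.eventually_le_const hη), Fl_one hη] with q a b
    rw [div_le_iff₀ (by linarith [b.1])] at a
    rw [RT_val]; exact a
  filter_upwards [hT1, hT2, hT3, hR2, Fl_one hη, (log_Fl η).eventually_ge_atTop 1, Fl_range η, 
    (Fl_fst η).eventually (four_le_vT (θ := 4/5) (by norm_num))] with q ⟨a1, a2⟩ b1 b2 b3 b4 b5 b6 b7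
  intro hq g hgm hg0 hg1 hg
  have hT0 : 0 < q.1 := by linarith [b4.1]
  have hS1 : 1 ≤ SS k q := Real.one_le_rpow b5 (by positivity)
  set μ := gaussianReal q.2 (vT (4/5) q.1) with hμ
  set X := NT θ q.1 with hX
  have mgz : Measurable (fun t => g ‖riemannZeta (crit t)‖) := hgm.comp continuous_zeta_crit.norm.measurable
  have mh := measurable_h_ang h
  have mφ : Measurable (fun t => h (ang t) * g ‖riemannZeta (crit t)‖) := mh.mul mgz
  have φ0 : ∀ t, 0 ≤ h (ang t) * g ‖riemannZeta (crit t)‖ := fun t => mul_nonneg (h0 _) (hg0 _)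
  have φ1 : ∀ t, h (ang t) * g ‖riemannZeta (crit t)‖ ≤ 1 := fun t => mul_le_one₀ (h1 _) (hg0 _) (hg1 _)
  have φh : ∀ t, h (ang t) * g ‖riemannZeta (crit t)‖ ≤ h (ang t) := fun t => mul_le_of_le_one_right (h0 _) (hg1 _)
  -- size cut
  have c1' := b1 (fun t => 1 - g ‖riemannZeta (crit t)‖) (measurable_const.sub mgz) (fun t => by linarith [hg1 ‖riemannZeta (crit t)‖]) 
    (fun t => by linarith [hg0 ‖riemannZeta (crit t)‖]) (fun t ht1 ht2 => by rw [hg _ ht1 ht2]; ring)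
  have iM1 := int_M1 hN X q.2 (vT (4/5) q.1) (N * (k - 1)) mφ (G := 1) (fun t => by rw [abs_of_nonneg (φ0 t)]; exact φ1 t)
  have mg1 : Measurable (fun t => 1 - g ‖riemannZeta (crit t)‖) := measurable_const.sub mgz
  have bg1 : ∀ t, |(fun t => 1 - g ‖riemannZeta (crit t)‖) t| ≤ 1 := fun t => by
    have e1 := hg1 ‖riemannZeta (crit t)‖
    have e2 := hg0 ‖riemannZeta (crit t)‖
    beta_reduce
    rw [abs_le]; constructor <;> linarith
  have iM2 : Integrable (fun t => ‖riemannZeta (crit t)‖ * ‖Bf N X t‖ ^ (2 * (N * (k - 1))) * (1 - g ‖riemannZeta (crit t)‖)) μ := 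
    int_M1 hN X q.2 (vT (4/5) q.1) (N * (k - 1)) mg1 (G := 1) bg1
  have iM3 := int_M1 hN X q.2 (vT (4/5) q.1) (N * (k - 1)) mh (G := 1) (fun t => by rw [abs_of_nonneg (h0 _)]; exact h1 _)
  have d1 : ∫ t, ‖riemannZeta (crit t)‖ * ‖Bf N X t‖ ^ (2 * (N * (k - 1))) * h (ang t) ∂μ ≤ 
      (∫ t, ‖riemannZeta (crit t)‖ * ‖Bf N X t‖ ^ (2 * (N * (k - 1))) * (h (ang t) * g ‖riemannZeta (crit t)‖) ∂μ) + 
      ∫ t, ‖riemannZeta (crit t)‖ * ‖Bf N X t‖ ^ (2 * (N * (k - 1))) * (1 - g ‖riemannZeta (crit t)‖) ∂μ := by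
    rw [← integral_add iM1 iM2]
    refine integral_mono iM3 (iM1.add iM2) fun t => ?_
    simp only [Pi.add_apply]
    rw [← mul_add]
    apply mul_le_mul_of_nonneg_left _ (by positivity)
    have e1 := h1 (ang t)
    have e2 := hg1 ‖riemannZeta (crit t)‖
    nlinarith
  -- restriction to [0,T]
  have hRu : RT (4/5) q.1 ≤ q.2 := b3.trans b6.1
  have hRu' : q.2 ≤ q.1 - RT (4/5) q.1 := by linarith
  have hvpos : 0 < vT (4/5) q.1 := lt_of_lt_of_le (by norm_num) b7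
  have hRnn : 0 ≤ RT (4/5) q.1 := (RT_pos _ hT0).le
  have tb := tail_bound hvpos hRnn hRu hRu'
  have hXm : (X:ℝ) ^ (2 * (N * (k - 1))) ≤ q.1 ^ (1/8:ℝ) := by
    refine NT_pow_le hθ0.le _ b4.1.le ?_
    push_cast
    have hk1 : ((k - 1 : ℕ) : ℝ) ≤ k := by exact_mod_cast Nat.sub_le k 1
    calc θ * (2 * (N * ((k - 1 : ℕ):ℝ))) ≤ θ * (2 * (N * k)) := by gcongr
      _ = θ * (2 * N * k) := by ring
      _ ≤ 1/8 := hab.trans (by norm_num)
  have d2 : ∫ t in (Icc 0 q.1)ᶜ, ‖riemannZeta (crit t)‖ * ‖Bf N X t‖ ^ (2 * (N * (k - 1))) * (h (ang t) * g ‖riemannZeta (crit t)‖) ∂μ ≤ 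
      c1 * c0 / 16 * SS k q := by
    have e1 : ∫ t in (Icc 0 q.1)ᶜ, ‖riemannZeta (crit t)‖ * ‖Bf N X t‖ ^ (2 * (N * (k - 1))) * (h (ang t) * g ‖riemannZeta (crit t)‖) ∂μ ≤ 
        ∫ t in (Icc 0 q.1)ᶜ, q.1 ^ (1/8:ℝ) * (4 + 2 * |t|) ∂μ := by
      refine integral_mono iM1.integrableOn ?_ fun t => ?_
      · exact (((integrable_const 4).add ((integrable_abs_gaussian _ _).const_mul 2)).const_mul _).integrableOn
      · have f1 := norm_zeta_crit_le t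
        have f2 := (norm_B_pow_le hN X (2 * (N * (k - 1))) t).trans hXm
        calc ‖riemannZeta (crit t)‖ * ‖Bf N X t‖ ^ (2 * (N * (k - 1))) * (h (ang t) * g ‖riemannZeta (crit t)‖) 
            ≤ ‖riemannZeta (crit t)‖ * ‖Bf N X t‖ ^ (2 * (N * (k - 1))) * 1 := 
              mul_le_mul_of_nonneg_left (φ1 t) (by positivity)
          _ ≤ (4 + 2 * |t|) * q.1 ^ (1/8:ℝ) * 1 := by gcongr
          _ = _ := by ring
    rw [integral_const_mul] at e1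
    refine e1.trans ?_
    have e2 : q.1 ^ (1/8:ℝ) * (∫ t in (Icc 0 q.1)ᶜ, (4 + 2 * |t|) ∂μ) ≤ 
        q.1 ^ (1/8:ℝ) * (Real.exp (- q.1 ^ (19/20:ℝ) / q.1 ^ (9/10:ℝ)) * (16 + 8 * q.1 + 36 * q.1 ^ (9/10:ℝ))) := by
      rw [sqrt_vT' hT0, RT_val] at tb
      apply mul_le_mul_of_nonneg_left (tb.trans _) (by positivity)
      have := b6.2
      gcongr
    rw [zero_mul, add_zero] at b2
    calc _ ≤ _ := e2
      _ ≤ c1 * c0 / 16 := b2
      _ ≤ c1 * c0 / 16 * SS k q := le_mul_of_one_le_right (by positivity) hS1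
  have d3 := integral_add_compl (μ := μ) (measurableSet_Icc (a := (0:ℝ)) (b := q.1)) iM1
  -- Young
  set s := 24 * C2 / c1 with hs
  have hs0 : 0 < s := by positivity
  have iZk : IntegrableOn (fun t => ‖riemannZeta (crit t)‖ ^ k * (h (ang t) * g ‖riemannZeta (crit t)‖)) (Icc 0 q.1) μ := by
    obtain ⟨C, hC⟩ := (isCompact_Icc (a := (0:ℝ)) (b := q.1)).exists_bound_of_continuousOn (f := fun t => ‖riemannZeta (crit t)‖ ^ k) 
      ((continuous_zeta_crit.norm.pow k).continuousOn)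
    refine Measure.integrableOn_of_bounded (M := C) (measure_ne_top _ _) ?_ ?_
    · exact ((continuous_zeta_crit.norm.pow k).measurable.mul mφ).aestronglyMeasurable
    · refine (ae_restrict_iff' measurableSet_Icc).mpr (Eventually.of_forall fun t ht => ?_)
      have f1 := hC t ht
      rw [norm_mul]
      rw [Real.norm_of_nonneg (φ0 t)]
      calc ‖‖riemannZeta (crit t)‖ ^ k‖ * (h (ang t) * g ‖riemannZeta (crit t)‖) ≤ ‖‖riemannZeta (crit t)‖ ^ k‖ * 1 := 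
            mul_le_mul_of_nonneg_left (φ1 t) (norm_nonneg _)
        _ ≤ C := by rw [mul_one]; exact f1
  have iBh := int_B hN X q.2 (vT (4/5) q.1) (2 * (N * k)) mh (G := 1) (fun t => by rw [abs_of_nonneg (h0 _)]; exact h1 _)
  have d4 : ∫ t in Icc 0 q.1, ‖riemannZeta (crit t)‖ * ‖Bf N X t‖ ^ (2 * (N * (k - 1))) * (h (ang t) * g ‖riemannZeta (crit t)‖) ∂μ ≤ 
      s ^ (k - 1) * (∫ t in Icc 0 q.1, ‖riemannZeta (crit t)‖ ^ k * (h (ang t) * g ‖riemannZeta (crit t)‖) ∂μ) + 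
      s⁻¹ * ∫ t, ‖Bf N X t‖ ^ (2 * (N * k)) * h (ang t) ∂μ := by
    have f1 : s⁻¹ * ∫ t in Icc 0 q.1, ‖Bf N X t‖ ^ (2 * (N * k)) * h (ang t) ∂μ ≤ s⁻¹ * ∫ t, ‖Bf N X t‖ ^ (2 * (N * k)) * h (ang t) ∂μ := by
      apply mul_le_mul_of_nonneg_left _ (by positivity)
      exact setIntegral_le_integral iBh (Eventually.of_forall fun t => mul_nonneg (by positivity) (h0 _))
    refine le_trans ?_ (add_le_add le_rfl f1)
    rw [← integral_const_mul, ← integral_const_mul, ← integral_add (iZk.const_mul _) (iBh.integrableOn.const_mul _)]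
    refine integral_mono iM1.integrableOn ((iZk.const_mul _).add (iBh.integrableOn.const_mul _)) fun t => ?_
    simp only [Pi.add_apply]
    have y1 := young (k := k) (by omega) (norm_nonneg (riemannZeta (crit t))) (show 0 ≤ ‖Bf N X t‖ ^ (2 * N) by positivity) hs0
    have e1 : (‖Bf N X t‖ ^ (2 * N)) ^ (k - 1) = ‖Bf N X t‖ ^ (2 * (N * (k - 1))) := by rw [← pow_mul]; congr 1; ring
    have e2 : (‖Bf N X t‖ ^ (2 * N)) ^ k = ‖Bf N X t‖ ^ (2 * (N * k)) := by rw [← pow_mul]; congr 1; ring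
    rw [e1, e2] at y1
    calc ‖riemannZeta (crit t)‖ * ‖Bf N X t‖ ^ (2 * (N * (k - 1))) * (h (ang t) * g ‖riemannZeta (crit t)‖) 
        ≤ (s ^ (k - 1) * ‖riemannZeta (crit t)‖ ^ k + s⁻¹ * ‖Bf N X t‖ ^ (2 * (N * k))) * (h (ang t) * g ‖riemannZeta (crit t)‖) := 
          mul_le_mul_of_nonneg_right y1 (φ0 t)
      _ = s ^ (k - 1) * (‖riemannZeta (crit t)‖ ^ k * (h (ang t) * g ‖riemannZeta (crit t)‖)) + 
          s⁻¹ * (‖Bf N X t‖ ^ (2 * (N * k)) * (h (ang t) * g ‖riemannZeta (crit t)‖)) := by ring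
      _ ≤ _ := by
        have := φh t
        gcongr
  have d5 : s⁻¹ * (3 * c0 * C2 * SS k q) = c1 * c0 / 8 * SS k q := by
    rw [hs]; field_simp; ring
  have d6 : s⁻¹ * ∫ t, ‖Bf N X t‖ ^ (2 * (N * k)) * h (ang t) ∂μ ≤ c1 * c0 / 8 * SS k q := by
    rw [← d5]; gcongr
  have hsk : 0 < s ^ (k - 1) := by positivity
  have d7 : c1 * c0 / 4 * SS k q ≤ s ^ (k - 1) * (∫ t in Icc 0 q.1, ‖riemannZeta (crit t)‖ ^ k * (h (ang t) * g ‖riemannZeta (crit t)‖) ∂μ) := by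
    have : 0 ≤ c1 * c0 * SS k q := by positivity
    nlinarith
  have d8 : cfin k c1 C2 * c0 * SS k q = (s ^ (k - 1))⁻¹ * (c1 * c0 / 4 * SS k q) := by unfold cfin; ring
  rw [d8, inv_mul_le_iff₀ hsk]
  exact d7

end Pool.Agent.LibZD46
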