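import Mathlib
import Pool.Agent.LibZD46.D9
import Pool.Agent.LibZM.Average

set_option autoImplicit false

namespace Pool.Agent.LibZD46

open MeasureTheory Set Filter Topology Complex ProbabilityTheory
open scoped NNReal ComplexConjugate
open Pool.Agent.LibZM

/-- Tent function on the circle. -/
noncomputable def tent (m l : ℝ) : C(AddCircle (2 * Real.pi), ℝ) := 
  ⟨fun x => max 0 (1 - ‖x - (m : AddCircle (2 * Real.pi))‖ / (l / 2)), by fun_prop⟩

lemma tent_apply (m l : ℝ) (x : AddCircle (2 * Real.pi)) : tent m l x = max 0 (1 - ‖x - (m : AddCircle (2 * Real.pi))‖ / (l / 2)) := rfl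

lemma tent_nonneg (m l : ℝ) (x : AddCircle (2 * Real.pi)) : 0 ≤ tent m l x := le_max_left _ _

lemma tent_le_one {l : ℝ} (hl : 0 < l) (m : ℝ) (x : AddCircle (2 * Real.pi)) : tent m l x ≤ 1 := by
  rw [tent_apply]
  apply max_le (by norm_num)
  have : 0 ≤ ‖x - (m : AddCircle (2 * Real.pi))‖ / (l / 2) := by positivity
  linarith

lemma tent_pos {m l : ℝ} (hl : 0 < l) {x : ℝ} (h : 0 < tent m l (x : AddCircle (2 * Real.pi))) : ∃ n : ℤ, |x - n * (2 * Real.pi) - m| < l / 2 := by
  rw [tent_apply, lt_max_iff] at h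
  rcases h with h | h
  · exact absurd h (lt_irrefl 0)
  · have h1 : ‖(x : AddCircle (2 * Real.pi)) - (m : AddCircle (2 * Real.pi))‖ < l / 2 := by
      have h2 : ‖(x : AddCircle (2 * Real.pi)) - (m : AddCircle (2 * Real.pi))‖ / (l / 2) < 1 := by linarith
      rwa [div_lt_one (by positivity)] at h2
    rw [← AddCircle.coe_sub, AddCircle.norm_eq] at h1
    refine ⟨round ((2 * Real.pi)⁻¹ * (x - m)), ?_⟩
    have e : x - (round ((2 * Real.pi)⁻¹ * (x - m)) : ℝ) * (2 * Real.pi) - m = x - m - (round ((2 * Real.pi)⁻¹ * (x - m)) : ℝ) * (2 * Real.pi) := by ring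
    rw [e]; exact h1

lemma tent_mean {m l : ℝ} (hl : 0 < l) (hl2 : l ≤ 2 * Real.pi) : 
    l / (8 * Real.pi) ≤ (∫ x in (0:ℝ)..(2 * Real.pi), tent m l (x : AddCircle (2 * Real.pi))) / (2 * Real.pi) := by
  have hpi := Real.pi_pos
  have hcoe : Continuous (fun x : ℝ => (x : AddCircle (2 * Real.pi))) := AddCircle.continuous_mk' _
  have hc : Continuous (fun x : ℝ => tent m l (x : AddCircle (2 * Real.pi))) := (tent m l).continuous.comp hcoe
  have hper : Function.Periodic (fun x : ℝ => tent m l (x : AddCircle (2 * Real.pi))) (2 * Real.pi) := by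
    intro x
    simp
  have h1 := hper.intervalIntegral_add_eq 0 (m - Real.pi)
  rw [zero_add] at h1
  rw [h1]
  have h2 : ∫ x in (m - l/4)..(m + l/4), (1/2:ℝ) ≤ ∫ x in (m - Real.pi)..(m - Real.pi + 2 * Real.pi), tent m l (x : AddCircle (2 * Real.pi)) := by
    have e1 : ∫ x in (m - l/4)..(m + l/4), (1/2:ℝ) ≤ ∫ x in (m - l/4)..(m + l/4), tent m l (x : AddCircle (2 * Real.pi)) := by
      refine intervalIntegral.integral_mono_on (by linarith) (by simp) (hc.intervalIntegrable _ _) fun x hx => ?_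
      rw [tent_apply]
      refine le_max_of_le_right ?_
      rw [← AddCircle.coe_sub]
      have h3 : ‖((x - m : ℝ) : AddCircle (2 * Real.pi))‖ ≤ |x - m| := by
        have h31 : |x - m| ≤ |2 * Real.pi| / 2 := by
          rw [abs_of_pos (show (0:ℝ) < 2 * Real.pi by positivity)]
          rw [abs_le]; constructor <;> linarith [hx.1, hx.2]
        exact ((AddCircle.norm_coe_eq_abs_iff (2 * Real.pi) (by positivity)).2 h31).le
      have h4 : |x - m| ≤ l / 4 := by
        rw [abs_le]; constructor <;> linarith [hx.1, hx.2]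
      have h5 : ‖((x - m : ℝ) : AddCircle (2 * Real.pi))‖ / (l / 2) ≤ 1 / 2 := by
        rw [div_le_iff₀ (by positivity)]; linarith
      linarith
    refine e1.trans ?_
    apply intervalIntegral.integral_mono_interval (by linarith) (by linarith) (by linarith)
    · exact Eventually.of_forall fun x => tent_nonneg _ _ _
    · exact hc.intervalIntegrable _ _
  rw [intervalIntegral.integral_const, smul_eq_mul] at h2
  rw [div_le_div_iff₀ (by positivity) (by positivity)]
  nlinarith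

/-- trapezoidal cut-off -/
noncomputable def cut (a b c d x : ℝ) : ℝ := max 0 (min 1 (min ((x - a) / (b - a)) ((d - x) / (d - c))))

lemma cut_nonneg (a b c d x : ℝ) : 0 ≤ cut a b c d x := le_max_left _ _

lemma cut_le_one (a b c d x : ℝ) : cut a b c d x ≤ 1 := max_le (by norm_num) (min_le_left _ _)

lemma continuous_cut (a b c d : ℝ) : Continuous (cut a b c d) := by unfold cut; fun_prop

lemma cut_one {a b c d x : ℝ} (hab : a < b) (hcd : c < d) (h1 : b ≤ x) (h2 : x ≤ c) : cut a b c d x = 1 := by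
  unfold cut
  have e1 : 1 ≤ (x - a) / (b - a) := by rw [le_div_iff₀ (by linarith)]; linarith
  have e2 : 1 ≤ (d - x) / (d - c) := by rw [le_div_iff₀ (by linarith)]; linarith
  rw [min_eq_left (le_min e1 e2)]
  norm_num

lemma cut_zero {a b c d x : ℝ} (hab : a < b) (hcd : c < d) (h : x ≤ a ∨ d ≤ x) : cut a b c d x = 0 := by
  unfold cut
  apply max_eq_left
  rcases h with h | h
  · refine (min_le_right _ _).trans ((min_le_left _ _).trans ?_)
    exact div_nonpos_of_nonpos_of_nonneg (by linarith) (by linarith)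
  · refine (min_le_right _ _).trans ((min_le_right _ _).trans ?_)
    exact div_nonpos_of_nonpos_of_nonneg (by linarith) (by linarith)

lemma continuous_prod (k : ℕ) (h : C(AddCircle (2 * Real.pi), ℝ)) {g : ℝ → ℝ} (hg : Continuous g) {a : ℝ} (ha : 0 < a) 
    (hg0 : ∀ x, x ≤ a → g x = 0) : Continuous (fun t => ‖riemannZeta (crit t)‖ ^ k * (h (ang t) * g ‖riemannZeta (crit t)‖)) := by
  rw [continuous_iff_continuousAt]
  intro t
  by_cases hz : riemannZeta (crit t) = 0
  · -- locally zero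
    have h1 : ∀ᶠ s in 𝓝 t, ‖riemannZeta (crit s)‖ < a := by
      have := (continuous_zeta_crit.norm).continuousAt (x := t)
      refine this.eventually_lt_const ?_
      simp [hz, ha]
    have h2 : (fun s => ‖riemannZeta (crit s)‖ ^ k * (h (ang s) * g ‖riemannZeta (crit s)‖)) =ᶠ[𝓝 t] fun _ => 0 := by
      filter_upwards [h1] with s hs
      rw [hg0 _ hs.le]; ring
    exact (continuousAt_const.congr h2.symm)
  · have h1 : ∀ᶠ s in 𝓝 t, riemannZeta (crit s) ≠ 0 := continuous_zeta_crit.continuousAt.eventually_ne hz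
    have h2 : ContinuousAt (fun s => ((arg (riemannZeta (crit s)) : ℝ) : AddCircle (2 * Real.pi))) t := 
      ContinuousAt.comp (g := fun w : ℂ => ((arg w : ℝ) : Real.Angle)) (f := fun s => riemannZeta (crit s)) 
        (Complex.continuousAt_arg_coe_angle hz) continuous_zeta_crit.continuousAt
    have h3 : ContinuousAt ang t := by
      refine h2.congr ?_
      filter_upwards [h1] with s hs
      unfold ang
      rw [if_neg hs]
    have h4 : ContinuousAt (fun s => h (ang s)) t := h.continuous.continuousAt.comp h3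
    have h5 : ContinuousAt (fun s => g ‖riemannZeta (crit s)‖) t := (hg.comp continuous_zeta_crit.norm).continuousAt
    have h6 : ContinuousAt (fun s => ‖riemannZeta (crit s)‖ ^ k) t := (continuous_zeta_crit.norm.pow k).continuousAt
    exact h6.mul (h4.mul h5)

/-- Main theorem. -/
theorem main {k : ℕ} (hk : 2 ≤ k) {ε : ℝ} (hε : 0 < ε) : ∃ c : ℝ, 0 < c ∧ ∀ α β : ℝ, α < β → β ≤ α + 2 * Real.pi → 
    ∀ᶠ T : ℝ in atTop, c * (β - α) * (T * (Real.log T) ^ ((k:ℝ) ^ 2 / 4)) ≤ 
      ∫ t in {t : ℝ | 0 ≤ t ∧ t ≤ T ∧ (Real.log T) ^ ((k:ℝ)/2 - ε) ≤ ‖riemannZeta (crit t)‖ ∧ 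
        ‖riemannZeta (crit t)‖ ≤ (Real.log T) ^ ((k:ℝ)/2 + ε) ∧ 
        ∃ φ : ℝ, α < φ ∧ φ < β ∧ riemannZeta (crit t) = ‖riemannZeta (crit t)‖ * cexp (φ * I)}, ‖riemannZeta (crit t)‖ ^ k := by
  have hpi := Real.pi_pos
  obtain ⟨N, hN⟩ := exists_nat_one_div_lt (show (0:ℝ) < ε / 2 by positivity)
  set M := N + 1 with hM
  have hM1 : 1 ≤ M := by omega
  have hMe : 1 / (M:ℝ) < ε / 2 := by rw [hM]; push_cast; exact hN
  have hMR : (1:ℝ) ≤ M := by exact_mod_cast hM1
  have hkR : (2:ℝ) ≤ k := by exact_mod_cast hk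
  set θ : ℝ := 1 / (400 * M * k) with hθ
  have hθ0 : 0 < θ := by positivity
  have hab : θ * (2 * M * k) ≤ 1/100 := by
    rw [hθ]; field_simp; norm_num
  have hab2 : θ * (M * k + 2) ≤ 1/8 := by
    rw [hθ, one_div, inv_mul_le_iff₀ (by positivity)]
    nlinarith
  obtain ⟨c1, C1, C2, hc1, hC1, hC2, hcon⟩ := consts (η := 1/4) hM1 hk hθ0 hab (by norm_num)
  have hcf : 0 < cfin k c1 C2 := by unfold cfin; positivity
  refine ⟨cfin k c1 C2 / (16 * Real.pi), by positivity, ?_⟩
  intro α β hαβ hβ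
  set l := β - α with hl
  have hl0 : 0 < l := by linarith
  have hl2 : l ≤ 2 * Real.pi := by linarith
  set m := (α + β) / 2 with hm
  set c0 := (∫ x in (0:ℝ)..(2 * Real.pi), tent m l (x : AddCircle (2 * Real.pi))) / (2 * Real.pi) with hc0
  have hc0l : l / (8 * Real.pi) ≤ c0 := tent_mean hl0 hl2
  have hc0p : 0 < c0 := lt_of_lt_of_le (by positivity) hc0l
  have hloc := local_final (η := 1/4) (e := ε/2) hM1 hk hθ0 hab hab2 (by norm_num) hMe hc1 hC1 hC2 hcon (tent m l) (tent_nonneg m l) 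
    (tent_le_one hl0 m) hc0p hc0.symm
  rw [Fl_iff] at hloc
  filter_upwards [hloc, eventually_gt_atTop 1, Real.tendsto_log_atTop.eventually_gt_atTop 1, eventually_ge_atTop 1, 
    four_le_vT (θ := 4/5) (by norm_num)] with T a1 a2 a3 a4 a5
  have hT0 : 0 < T := by linarith
  set L := Real.log T with hL
  have hL0 : 0 < L := by linarith
  have w1 : L ^ ((k:ℝ)/2 - ε) < L ^ ((k:ℝ)/2 - ε/2) := Real.rpow_lt_rpow_of_exponent_lt a3 (by linarith)
  have w2 : L ^ ((k:ℝ)/2 + ε/2) < L ^ ((k:ℝ)/2 + ε) := Real.rpow_lt_rpow_of_exponent_lt a3 (by linarith)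
  set g := cut (L ^ ((k:ℝ)/2 - ε)) (L ^ ((k:ℝ)/2 - ε/2)) (L ^ ((k:ℝ)/2 + ε/2)) (L ^ ((k:ℝ)/2 + ε)) with hg
  have hgc : Continuous g := continuous_cut _ _ _ _
  have hcont := continuous_prod k (tent m l) hgc (show 0 < L ^ ((k:ℝ)/2 - ε) by positivity) (fun x hx => cut_zero w1 w2 (Or.inl hx))
  have hF0 : ∀ t, 0 ≤ ‖riemannZeta (crit t)‖ ^ k * (tent m l (ang t) * g ‖riemannZeta (crit t)‖) := fun t => 
    mul_nonneg (by positivity) (mul_nonneg (tent_nonneg _ _ _) (cut_nonneg _ _ _ _ _))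
  have hv0 : vT (4/5) T ≠ 0 := (lt_of_lt_of_le (by norm_num) a5).ne'
  have hge := moment_ge (v := vT (4/5) T) hv0 hcont hF0 (T := T) (R := T/4) (c := cfin k c1 C2 * c0 * SS k (T, 0)) (by linarith) (by
    intro u hu1 hu2
    have h1 := a1 u (by linarith) (by linarith) (by show u ≤ (1 - 1/4) * T; linarith) g hgc.measurable (fun x => cut_nonneg _ _ _ _ _) 
      (fun x => cut_le_one _ _ _ _ _) (fun x h1 h2 => cut_one w1 w2 h1 h2)
    exact h1)
  have hSS : SS k (T, 0) = L ^ ((k:ℝ) ^ 2 / 4) := rfl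
  rw [hSS] at hge
  have e1 : cfin k c1 C2 / (16 * Real.pi) * l * (T * L ^ ((k:ℝ) ^ 2 / 4)) ≤ (T - 2 * (T/4)) * (cfin k c1 C2 * c0 * L ^ ((k:ℝ) ^ 2 / 4)) := by
    have e2 : cfin k c1 C2 / (16 * Real.pi) * l * (T * L ^ ((k:ℝ) ^ 2 / 4)) = (T / 2) * (cfin k c1 C2 * (l / (8 * Real.pi)) * L ^ ((k:ℝ) ^ 2 / 4)) := by
      field_simp; ring
    rw [e2]
    have e3 : T - 2 * (T/4) = T/2 := by ring
    rw [e3]
    gcongr
  refine e1.trans (hge.trans ?_)
  set A : Set ℝ := {t : ℝ | 0 ≤ t ∧ t ≤ T ∧ L ^ ((k:ℝ)/2 - ε) ≤ ‖riemannZeta (crit t)‖ ∧ 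
        ‖riemannZeta (crit t)‖ ≤ L ^ ((k:ℝ)/2 + ε) ∧ 
        ∃ φ : ℝ, α < φ ∧ φ < β ∧ riemannZeta (crit t) = ‖riemannZeta (crit t)‖ * cexp (φ * I)} with hA
  set A' : Set ℝ := {t : ℝ | 0 < tent m l (ang t) ∧ L ^ ((k:ℝ)/2 - ε) ≤ ‖riemannZeta (crit t)‖ ∧ 
        ‖riemannZeta (crit t)‖ ≤ L ^ ((k:ℝ)/2 + ε)} with hA'
  have mA' : MeasurableSet A' := by
    refine (measurableSet_lt measurable_const (measurable_h_ang _)).inter ?_
    exact (measurableSet_le measurable_const continuous_zeta_crit.norm.measurable).inter 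
      (measurableSet_le continuous_zeta_crit.norm.measurable measurable_const)
  have hsub : Icc 0 T ∩ A' ⊆ A := by
    rintro t ⟨⟨h1, h2⟩, h3, h4, h5⟩
    refine ⟨h1, h2, h4, h5, ?_⟩
    have hz : riemannZeta (crit t) ≠ 0 := by
      intro h0
      rw [h0, norm_zero] at h4
      have : 0 < L ^ ((k:ℝ)/2 - ε) := by positivity
      linarith
    have e : ang t = ((arg (riemannZeta (crit t)) : ℝ) : AddCircle (2 * Real.pi)) := by unfold ang; rw [if_neg hz]
    rw [e] at h3
    obtain ⟨n, hn⟩ := tent_pos hl0 h3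
    rw [abs_lt] at hn
    refine ⟨arg (riemannZeta (crit t)) - n * (2 * Real.pi), by rw [hm, hl] at hn; linarith [hn.1], by rw [hm, hl] at hn; linarith [hn.2], ?_⟩
    have h6 : cexp (((arg (riemannZeta (crit t)) - n * (2 * Real.pi) : ℝ) : ℂ) * I) = cexp ((arg (riemannZeta (crit t)) : ℂ) * I) := by
      rw [Complex.exp_eq_exp_iff_exists_int]
      exact ⟨-n, by push_cast; ring⟩
    rw [h6, Complex.norm_mul_exp_arg_mul_I]
  have iIcc : IntegrableOn (fun t => ‖riemannZeta (crit t)‖ ^ k) (Icc 0 T) := 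
    (continuous_zeta_crit.norm.pow k).continuousOn.integrableOn_compact isCompact_Icc
  have hAI : A ⊆ Icc 0 T := fun t ht => ⟨ht.1, ht.2.1⟩
  calc ∫ t in Icc 0 T, ‖riemannZeta (crit t)‖ ^ k * (tent m l (ang t) * g ‖riemannZeta (crit t)‖) 
      ≤ ∫ t in Icc 0 T, A'.indicator (fun t => ‖riemannZeta (crit t)‖ ^ k) t := by
        refine integral_mono (hcont.continuousOn.integrableOn_compact isCompact_Icc) (iIcc.indicator mA') fun t => ?_
        by_cases ht : t ∈ A'
        · rw [indicator_of_mem ht]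
          apply mul_le_of_le_one_right (by positivity)
          exact mul_le_one₀ (tent_le_one hl0 _ _) (cut_nonneg _ _ _ _ _) (cut_le_one _ _ _ _ _)
        · rw [indicator_of_notMem ht]
          apply le_of_eq
          have h1 : tent m l (ang t) = 0 ∨ g ‖riemannZeta (crit t)‖ = 0 := by
            by_contra hcn
            push Not at hcn
            apply ht
            refine ⟨lt_of_le_of_ne (tent_nonneg _ _ _) (Ne.symm hcn.1), ?_, ?_⟩
            · by_contra hlt
              push Not at hlt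
              exact hcn.2 (cut_zero w1 w2 (Or.inl hlt.le))
            · by_contra hlt
              push Not at hlt
              exact hcn.2 (cut_zero w1 w2 (Or.inr hlt.le))
          rcases h1 with h1 | h1 <;> rw [h1] <;> ring
    _ = ∫ t in Icc 0 T ∩ A', ‖riemannZeta (crit t)‖ ^ k := by
        rw [setIntegral_indicator mA']
    _ ≤ ∫ t in A, ‖riemannZeta (crit t)‖ ^ k := by
        refine setIntegral_mono_set (iIcc.mono_set hAI) (Eventually.of_forall fun t => by positivity) hsub.eventuallyLE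

end Pool.Agent.LibZD46
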